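import Pool.Agent.NAP.AvgN

/-!
# NAP / AvgS: one stage

`stage_bound`: for a node `v` of index `j` (common form, at most `n_j` windows) and a stage, i.e. the blocks
`l ∈ [K, K + n)` with `nn j + 1 ≤ e n`, `0 < n`: the mean of `avg (c l) p v` over the stage is at most
`ρ / m_j + e ρ`: let `q l = s (I l)` (monotone). The blocks with a point `t r`, `r ≤ k`, inside
`(q l, q (l + 1))` are at most `k + 1 ≤ n_j + 1 ≤ e n` (`cross_count`), each has value `≤ ρ`
(`hρ`); the others have value `≤ ρ / m_j` (`avg_noncross`).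
-/

namespace Pool.Agent.NAP

variable {s : ℕ → ℕ} {p : ℕ → V → ℝ}

theorem stage_bound (h : WinS s p) {c : ℕ → ℕ →₀ ℝ} {I : ℕ → ℕ} (hI : StrictMono I)
    (hc : ∀ l, CC (c l) (I l) (I (l + 1))) {ρ : ℝ} (hρ0 : 0 ≤ ρ)
    (hρ : ∀ l a L, Atom a L → avg (c l) p a ≤ ρ) {v : V} {j : ℕ} (hv : Atom v (Sum.inl j))
    {e : ℝ} (he : 0 < e) {K n : ℕ} (hn : 0 < n) (hjn : (nn j : ℝ) + 1 ≤ e * n) :
    (1 / (n : ℝ)) * ∑ l ∈ Finset.Ico K (K + n), avg (c l) p v ≤ ρ / mm j + e * ρ := by
  classical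
  obtain ⟨k, a, b, La, Lb, t, hP⟩ := hv.node
  have hq : Monotone (fun l => s (I l)) := h.mono.monotone.comp hI.monotone
  have hmj : (0 : ℝ) < mm j := by
    unfold mm
    positivity
  set S := Finset.Ico K (K + n) with hS
  set T := S.filter (fun l => ∃ r ≤ k, s (I l) < t r ∧ t r < s (I (l + 1))) with hT
  have hcard : T.card ≤ k + 1 := cross_count (q := fun l => s (I l)) hq k S
  have hnR : (0 : ℝ) < n := by exact_mod_cast hn
  have hcard' : (T.card : ℝ) ≤ e * n := by
    have h1 : (T.card : ℝ) ≤ (k : ℝ) + 1 := by exact_mod_cast hcard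
    have h2 : (k : ℝ) ≤ nn j := by exact_mod_cast hP.hk
    linarith
  have hdiv : 0 ≤ ρ / mm j := div_nonneg hρ0 hmj.le
  have hle : ∀ l ∈ S, avg (c l) p v ≤ ρ / mm j + (if l ∈ T then ρ else 0) := by
    intro l hl
    by_cases hlT : l ∈ T
    · rw [if_pos hlT]
      have := hρ l v _ hv
      linarith
    · rw [if_neg hlT, add_zero]
      refine avg_noncross h (hc l) hρ0 (hρ l) hP fun r hr hcr => hlT ?_
      exact Finset.mem_filter.2 ⟨hl, r, hr, hcr⟩
  have hsum : ∑ l ∈ S, avg (c l) p v ≤ n * (ρ / mm j) + T.card * ρ := by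
    refine (Finset.sum_le_sum hle).trans (le_of_eq ?_)
    have hTS : S.filter (fun l => l ∈ T) = T := by
      rw [hT]
      ext l
      simp only [Finset.mem_filter]
      tauto
    have hSc : S.card = n := by rw [hS, Nat.card_Ico, Nat.add_sub_cancel_left]
    rw [Finset.sum_add_distrib, Finset.sum_const, hSc, ← Finset.sum_filter, hTS,
      Finset.sum_const, nsmul_eq_mul, nsmul_eq_mul]
  have h3 : (T.card : ℝ) * ρ ≤ e * n * ρ := mul_le_mul_of_nonneg_right hcard' hρ0
  rw [one_div, inv_mul_le_iff₀ hnR]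
  linarith

end Pool.Agent.NAP
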