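import Pool.Agent.NAP.Split

/-!
# NAP / Shrink: linear functionals are small on far atoms

`halve`: a monotone property `P` of reals with `P C` and `P c → P (c / 2 + ε)` for all `c ≥ 0`, `ε > 0` holds
for all positive numbers: by induction on `k`, `P (C / 2 ^ k + 2 ε)` for all `k` (`(C / 2^k + 2 ε) / 2 + ε =
C / 2^(k+1) + 2 ε`); take `ε` a quarter and `k` large, and monotonicity.

`exists_plain`: a plain node from a supply. Let `i` be even, `N ≥ i`, and `S : ℕ → V → V → Prop` such that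
for every `N'` and every finite set `F` of vectors there are `a`, `b` with `TL N' a`, `TL N' b`, `S N' F a b`
... here only the simplest form is needed, see the statement: for all `N'` there is `a` with `TL N' a` and
`δ ≤ φ a`. Then there is a plain node `z` of index `i` with `φ z ≥ (n_i / m_i) δ`: choose recursively
`t 0 = i`, `a r` with `TL (t r) (a r)`, `φ (a r) ≥ δ`, and `t (r + 1) ≥ t r` so large that the support of
`a r` (`exists_Sup`) and its label lie below `t (r + 1)`. Take `a = b`, `k = n_i`;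
`(1/2) (a r + a r) = a r`.

`shrink_large`: otherwise there is `ε > 0` such that for all `N` there is `a` with `TL N a`, `|φ a| > ε`; by
`TL.neg` we may take `φ a ≥ ε`. For even `i`: `C ≥ φ z ≥ (n_i / m_i) ε = m_i ε / 4` (`nn_even`), which is
false for large `i` (`lt_mm`: `i < m_i`).

`shrink`: `halve` with `P c = ∃ N, ∀ a, TA N a → |φ a| ≤ c`; `P C` holds with `N = 0`. Step: let `c` hold from
`N1`, and let (by `shrink_large`) `L1` be such that `TL L1 a → |φ a| ≤ ε`, and `N2` such that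
`TL N2 a → |φ a| ≤ e`, `e = ε / (1 + m_(L1)^3)`. Let `N = max N1 (max L1 N2)` and `TA N v`. A leaf with
label `≤ N` is zero (`atom_inr_eq_zero`); a leaf with label `> N` satisfies `TL N v`, so `|φ v| ≤ ε`. A node
of index `j > L1`: `TL L1 v`, so `|φ v| ≤ ε`. A node of index `j ≤ L1`: `split_bound` gives
`|φ v| ≤ c / 2 + n_j e ≤ c / 2 + ε` (`nn_le`, `mm_mono`).
-/

namespace Pool.Agent.NAP

theorem halve {P : ℝ → Prop} {C : ℝ} (hC : 0 ≤ C) (h0 : P C)
    (hmono : ∀ c c' : ℝ, c ≤ c' → P c → P c')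
    (hstep : ∀ c : ℝ, 0 ≤ c → P c → ∀ ε : ℝ, 0 < ε → P (c / 2 + ε)) : ∀ ε : ℝ, 0 < ε → P ε := by
  intro ε hε
  have h1 : ∀ k : ℕ, P (C / 2 ^ k + ε / 2) := by
    intro k
    induction k with
    | zero => exact hmono C _ (by simp; linarith) h0
    | succ k ih =>
      have h2 := hstep _ (by positivity) ih (ε / 4) (by positivity)
      have h3 : (C / 2 ^ k + ε / 2) / 2 + ε / 4 = C / 2 ^ (k + 1) + ε / 2 := by
        rw [pow_succ]
        field_simp
        ring
      rw [h3] at h2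
      exact h2
  obtain ⟨k, hk⟩ := pow_unbounded_of_one_lt (C / (ε / 2)) (one_lt_two (α := ℝ))
  refine hmono _ _ ?_ (h1 k)
  have h4 : C / 2 ^ k ≤ ε / 2 := by
    rw [div_le_iff₀ (by positivity)]
    rw [div_lt_iff₀ (by positivity)] at hk
    linarith
  linarith

variable {φ : V →ₗ[ℚ] ℝ} {C : ℝ}

theorem exists_plain {δ : ℝ} (hg : ∀ N, ∃ a, TL N a ∧ δ ≤ φ a) {i : ℕ} (hi : Even i) :
    ∃ z, Atom z (Sum.inl i) ∧ (nn i : ℝ) / mm i * δ ≤ φ z := by
  choose a ha hδ using hg
  have hs : ∀ N, ∃ T, ∀ t, T ≤ t → Sup (a N) N t := fun N => exists_Sup (ha N).1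
  choose T hT using hs
  have hl : ∀ N, ∃ L, Atom (a N) L ∧ N < lv L := fun N => (ha N).2
  choose L hL hL' using hl
  -- windows
  let t : ℕ → ℕ := fun r => Nat.rec i (fun _ s => max s (max (T s) (lv (L s)))) r
  have ht0 : t 0 = i := rfl
  have hts : ∀ r, t (r + 1) = max (t r) (max (T (t r)) (lv (L (t r)))) := fun r => rfl
  have htm : Monotone t := by
    refine monotone_nat_of_le_succ fun r => ?_
    rw [hts]
    exact le_max_left _ _
  have key : PlainS Atom i (nn i) (fun r => a (t r)) (fun r => a (t r)) (fun r => L (t r))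
      (fun r => L (t r)) t
      ((1 / (mm i : ℚ)) • ∑ r ∈ Finset.range (nn i), (1 / 2 : ℚ) • (a (t r) + a (t r))) := by
    have hsup : ∀ r < nn i, Sup (a (t r)) (t r) (t (r + 1)) := by
      intro r _
      apply hT
      rw [hts]
      exact (le_max_left _ _).trans (le_max_right _ _)
    have hlab : ∀ r < nn i, LIn (L (t r)) (t r) (t (r + 1)) := by
      intro r _
      refine ⟨hL' _, ?_⟩
      rw [hts]
      exact (le_max_right _ _).trans (le_max_right _ _)
    exact ⟨le_rfl, le_rfl, htm, fun r _ => hL _, fun r _ => hL _, hsup, hsup, hlab, hlab, rfl⟩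
  refine ⟨_, atom_plain hi key, ?_⟩
  rw [map_smul, map_sum]
  have h1 : ∀ r, φ ((1 / 2 : ℚ) • (a (t r) + a (t r))) = φ (a (t r)) := by
    intro r
    congr 1
    rw [← two_smul ℚ, smul_smul]
    norm_num
  simp only [h1]
  have h2 : (nn i : ℝ) * δ ≤ ∑ r ∈ Finset.range (nn i), φ (a (t r)) := by
    have := Finset.card_nsmul_le_sum (Finset.range (nn i)) (fun r => φ (a (t r))) δ
      (fun r _ => hδ (t r))
    rw [Finset.card_range, nsmul_eq_mul] at this
    exact this
  have h3 : ∀ y : ℝ, (1 / (mm i : ℚ)) • y = (1 / (mm i : ℝ)) * y := by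
    intro y
    rw [Rat.smul_def]
    push_cast
    rfl
  rw [h3]
  have h4 : (0 : ℝ) ≤ 1 / (mm i : ℝ) := by positivity
  calc (nn i : ℝ) / mm i * δ = 1 / (mm i : ℝ) * ((nn i : ℝ) * δ) := by ring
    _ ≤ _ := mul_le_mul_of_nonneg_left h2 h4

theorem shrink_large (hφ : ∀ a L, Atom a L → |φ a| ≤ C) {ε : ℝ} (hε : 0 < ε) :
    ∃ N, ∀ a, TL N a → |φ a| ≤ ε := by
  by_contra hcon
  push Not at hcon
  have hg : ∀ N, ∃ a, TL N a ∧ ε ≤ φ a := by
    intro N
    obtain ⟨a, ha, h1⟩ := hcon N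
    rcases lt_abs.1 h1 with h2 | h2
    · exact ⟨a, ha, h2.le⟩
    · exact ⟨-a, ha.neg, by rw [map_neg]; exact h2.le⟩
  obtain ⟨i0, hi0⟩ := exists_nat_gt (4 * C / ε)
  have hev : Even (2 * i0) := even_two_mul i0
  obtain ⟨z, hz, h1⟩ := exists_plain hg hev
  have h2 : φ z ≤ C := (le_abs_self _).trans (hφ z _ hz)
  have h3 : (4 : ℝ) * nn (2 * i0) = (mm (2 * i0) : ℝ) ^ 2 := by exact_mod_cast nn_even hev
  have h4 : (0 : ℝ) < mm (2 * i0) := by exact_mod_cast mm_pos _
  have h5 : (nn (2 * i0) : ℝ) / mm (2 * i0) = mm (2 * i0) / 4 := by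
    field_simp
    linarith
  rw [h5] at h1
  have h6 : (i0 : ℝ) < mm (2 * i0) := by
    have : i0 < mm (2 * i0) := lt_of_le_of_lt (by omega) (lt_mm (2 * i0))
    exact_mod_cast this
  rw [div_lt_iff₀ hε] at hi0
  nlinarith

theorem shrink (hφ : ∀ a L, Atom a L → |φ a| ≤ C) {ε : ℝ} (hε : 0 < ε) :
    ∃ N, ∀ a, TA N a → |φ a| ≤ ε := by
  have hC : 0 ≤ C := (abs_nonneg _).trans (hφ 0 (Sum.inr 0) (atom_zero 0))
  refine halve (P := fun c => ∃ N, ∀ a, TA N a → |φ a| ≤ c) hC ?_ ?_ ?_ ε hε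
  · exact ⟨0, fun a ha => hφ a _ ha.2.choose_spec⟩
  · rintro c c' hcc ⟨N, hN⟩
    exact ⟨N, fun a ha => (hN a ha).trans hcc⟩
  · rintro c hc ⟨N1, hN1⟩ η hη
    obtain ⟨L1, hL1⟩ := shrink_large hφ hη
    have hM : (0 : ℝ) < 1 + (mm L1 : ℝ) ^ 3 := by positivity
    have he : 0 < η / (1 + (mm L1 : ℝ) ^ 3) := by positivity
    obtain ⟨N2, hN2⟩ := shrink_large hφ he
    refine ⟨max N1 (max L1 N2), fun v hv => ?_⟩
    obtain ⟨hT, L, hL⟩ := hv
    have hcη : η ≤ c / 2 + η := by linarith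
    rcases L with j | n
    · by_cases hj : L1 < j
      · exact (hL1 v ⟨hT.mono ((le_max_left _ _).trans (le_max_right _ _)), _, hL, hj⟩).trans hcη
      · have h1 := split_bound (φ := φ) (N := max N1 (max L1 N2)) hc he.le
          (fun a ha => hN1 a (ha.mono (le_max_left _ _)))
          (fun a ha => hN2 a (ha.mono ((le_max_right _ _).trans (le_max_right _ _)))) hL hT
        refine h1.trans ?_
        have h2 : (nn j : ℝ) ≤ (mm L1 : ℝ) ^ 3 := by
          have : nn j ≤ mm L1 ^ 3 :=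
            (nn_le j).trans (Nat.pow_le_pow_left (mm_mono (not_lt.1 hj)) 3)
          exact_mod_cast this
        have h3 : (nn j : ℝ) * (η / (1 + (mm L1 : ℝ) ^ 3)) ≤ η := by
          rw [mul_div_assoc', div_le_iff₀ hM]
          nlinarith
        linarith
    · by_cases hn : n ≤ max N1 (max L1 N2)
      · rw [atom_inr_eq_zero hL hT hn, map_zero, abs_zero]
        linarith
      · rw [not_le] at hn
        refine (hL1 v ⟨hT.mono ((le_max_left _ _).trans (le_max_right _ _)), _, hL, ?_⟩).trans hcη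
        exact lt_of_le_of_lt ((le_max_left _ _).trans (le_max_right _ _)) hn

end Pool.Agent.NAP
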