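import Pool.Agent.NAP.AvgB
import Pool.Agent.NAP.AvgS
import Pool.Agent.NAP.Shrink

/-!
# NAP / Avg: convex combinations of seminorms on windows which are small on all atoms

`avg_step`: `HH p ρ → HH p (ρ / 2 + ε)`. Given `i0`. Let `e = ε / (4 (1 + ρ))` (so `e ρ ≤ ε/4`,
`e ≤ ε/4`), and `T ≥ 1` with `ρ / T ≤ ε / 4`. Take the blocks `c l`, `I l` (`blocks`) and the stages for
`q l = s (I l)` (`stages`). Let `c = ∑_(x < T) (1/T) (1/Ln x) ∑_(l ∈ [K x, K (x+1))) c l`: a convex
combination with indices in `[i0, I (K T))` (`I 0 = i0`, `I` and `K` monotone). For a leaf `v` with label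
`n`: `avg (c l) p v` is zero except for the one `l` with `n ∈ (q l, q (l + 1)]` (`avg_eq_zero`), so
`avg c p v ≤ ρ / T` (the weight of each block is at most `1/T`). For a node `v` of index `j` let
`A x = (1/Ln x) ∑_(l ∈ [K x, K (x+1))) avg (c l) p v`. If `nn j + 1 ≤ e Ln x` then
`A x ≤ ρ / m_j + e ρ ≤ ρ / 2 + ε / 4` (`stage_bound`). If `e Ln (x + 1) < nn j + 1` then
`q (K (x + 1)) ≤ e m_j`, and `avg (c l) p v ≤ s (I (l+1)) / m_j ≤ q (K (x + 1)) / m_j ≤ e` for
`l < K (x + 1)` (`avg_size`, `Atom.c1_le_inv`), so `A x ≤ e ≤ ε / 4`. Since `Ln` is monotone there is at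
most one `x` in neither case (`e Ln x < nn j + 1 ≤ e Ln (x + 1)`); for it `A x ≤ ρ`. So
`avg c p v = (1/T) ∑ A x ≤ ρ / 2 + ε / 4 + ρ / T ≤ ρ / 2 + ε / 2`.

`avg_all`: `halve` with `P = HH p`, `C = 1` (`avg_le_one`; `HH p 1`: `c = single i0 1`).
-/

namespace Pool.Agent.NAP

variable {s : ℕ → ℕ} {p : ℕ → V → ℝ}

private theorem sum_one_bad {f : ℕ → ℝ} {T : ℕ} {ρ δ : ℝ} (hρ : 0 ≤ ρ) (hδ : 0 ≤ δ)
    (h1 : ∀ x, f x ≤ ρ) (h2 : ∃ x0, ∀ x, x ≠ x0 → f x ≤ δ) :
    ∑ x ∈ Finset.range T, f x ≤ T * δ + ρ := by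
  obtain ⟨x0, h2⟩ := h2
  have h3 : ∀ x ∈ Finset.range T, f x ≤ δ + (if x = x0 then ρ else 0) := by
    intro x _
    by_cases hx : x = x0
    · rw [if_pos hx]
      linarith [h1 x]
    · rw [if_neg hx, add_zero]
      exact h2 x hx
  refine (Finset.sum_le_sum h3).trans ?_
  rw [Finset.sum_add_distrib, Finset.sum_const, Finset.card_range, nsmul_eq_mul,
    Finset.sum_ite_eq']
  have : (if x0 ∈ Finset.range T then ρ else 0) ≤ ρ := by
    split_ifs
    · exact le_refl _
    · exact hρ
  linarith

theorem avg_step (h : WinS s p) {ρ : ℝ} (hρ0 : 0 ≤ ρ) (hρ : HH p ρ) {ε : ℝ} (hε : 0 < ε) :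
    HH p (ρ / 2 + ε) := by
  intro i0
  obtain ⟨e, he, heρ, heε⟩ : ∃ e : ℝ, 0 < e ∧ e * ρ ≤ ε / 4 ∧ e ≤ ε / 4 := by
    refine ⟨ε / (4 * (1 + ρ)), by positivity, ?_, ?_⟩
    · rw [div_mul_eq_mul_div, div_le_div_iff₀ (by positivity) (by norm_num)]
      nlinarith
    · rw [div_le_div_iff₀ (by positivity) (by norm_num)]
      nlinarith
  obtain ⟨T, hT1, hT⟩ : ∃ T : ℕ, 1 ≤ T ∧ ρ / T ≤ ε / 4 := by
    obtain ⟨T, hT⟩ := exists_nat_ge (4 * ρ / ε)
    refine ⟨T + 1, by omega, ?_⟩
    rw [div_le_iff₀ hε] at hT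
    rw [div_le_div_iff₀ (by positivity) (by norm_num)]
    push_cast
    nlinarith
  have hTpos : (0 : ℝ) < T := by exact_mod_cast (by omega : 0 < T)
  obtain ⟨c, I, hI0, hI, hc, hcρ⟩ := blocks hρ i0
  obtain ⟨Ln, K, hLn, hLpos, hK0, hKs, hst⟩ := stages (fun l => s (I l)) he
  have hLposR : ∀ x, (0 : ℝ) < Ln x := fun x => by exact_mod_cast hLpos x
  have hKmono : Monotone K := monotone_nat_of_le_succ fun x => by rw [hKs]; omega
  -- the combination
  have hlin : ∀ (p' : ℕ → V → ℝ) (v : V),
      avg (∑ x ∈ Finset.range T, (1 / (T : ℝ)) • ((1 / (Ln x : ℝ)) •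
        ∑ l ∈ Finset.Ico (K x) (K x + Ln x), c l)) p' v =
      ∑ x ∈ Finset.range T, (1 / (T : ℝ)) * ((1 / (Ln x : ℝ)) *
        ∑ l ∈ Finset.Ico (K x) (K x + Ln x), avg (c l) p' v) := by
    intro p' v
    rw [avg_sum]
    refine Finset.sum_congr rfl fun x _ => ?_
    rw [avg_smul, avg_smul, avg_sum]
  refine ⟨∑ x ∈ Finset.range T, (1 / (T : ℝ)) • ((1 / (Ln x : ℝ)) •
        ∑ l ∈ Finset.Ico (K x) (K x + Ln x), c l), I (K T), ?_, ?_⟩
  · have hex : ∀ i, (∑ x ∈ Finset.range T, (1 / (T : ℝ)) • ((1 / (Ln x : ℝ)) •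
        ∑ l ∈ Finset.Ico (K x) (K x + Ln x), c l)) i ≠ 0 →
        ∃ x < T, ∃ l, K x ≤ l ∧ l < K x + Ln x ∧ i ∈ (c l).support := by
      intro i hi
      rw [Finsupp.finsetSum_apply] at hi
      obtain ⟨x, hx, hx2⟩ := Finset.exists_ne_zero_of_sum_ne_zero hi
      rw [Finsupp.smul_apply, Finsupp.smul_apply, Finsupp.finsetSum_apply, smul_eq_mul,
        smul_eq_mul] at hx2
      have hx3 := right_ne_zero_of_mul (right_ne_zero_of_mul hx2)
      obtain ⟨l, hl, hl2⟩ := Finset.exists_ne_zero_of_sum_ne_zero hx3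
      rw [Finset.mem_Ico] at hl
      exact ⟨x, Finset.mem_range.1 hx, l, hl.1, hl.2, Finsupp.mem_support_iff.2 hl2⟩
    constructor
    · intro i
      rw [Finsupp.finsetSum_apply]
      refine Finset.sum_nonneg fun x _ => ?_
      rw [Finsupp.smul_apply, Finsupp.smul_apply, Finsupp.finsetSum_apply, smul_eq_mul,
        smul_eq_mul]
      have : 0 ≤ ∑ l ∈ Finset.Ico (K x) (K x + Ln x), (c l) i :=
        Finset.sum_nonneg fun l _ => (hc l).nonneg i
      have := hLposR x
      positivity
    · have h1 := hlin (fun _ _ => 1) 0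
      have h2 : ∀ l, avg (c l) (fun _ _ => 1) 0 = 1 := by
        intro l
        unfold avg
        simp only [mul_one]
        exact (hc l).sum
      simp only [h2] at h1
      unfold avg at h1
      simp only [mul_one] at h1
      rw [h1]
      have h3 : ∀ x ∈ Finset.range T, 1 / (T : ℝ) * (1 / (Ln x : ℝ) *
          ∑ _l ∈ Finset.Ico (K x) (K x + Ln x), (1 : ℝ)) = 1 / (T : ℝ) := by
        intro x _
        rw [Finset.sum_const, Nat.card_Ico, nsmul_eq_mul, mul_one, Nat.add_sub_cancel_left]
        have := hLposR x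
        field_simp
      rw [Finset.sum_congr rfl h3, Finset.sum_const, Finset.card_range, nsmul_eq_mul]
      field_simp
    · intro i hi
      obtain ⟨x, hx, l, hl1, hl2, hl3⟩ := hex i (Finsupp.mem_support_iff.1 hi)
      have h1 := (hc l).lo i hl3
      have h2 : I 0 ≤ I l := hI.monotone (Nat.zero_le l)
      omega
    · intro i hi
      obtain ⟨x, hx, l, hl1, hl2, hl3⟩ := hex i (Finsupp.mem_support_iff.1 hi)
      have h1 := (hc l).hi i hl3
      have h2 : K (x + 1) ≤ K T := hKmono (by omega)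
      rw [hKs] at h2
      have h3 : I (l + 1) ≤ I (K T) := hI.monotone (by omega)
      omega
  · intro a L ha
    rw [hlin]
    -- the means over the stages
    obtain ⟨A, hA⟩ : ∃ A : ℕ → ℝ, A = fun x => (1 / (Ln x : ℝ)) *
        ∑ l ∈ Finset.Ico (K x) (K x + Ln x), avg (c l) p a := ⟨_, rfl⟩
    have hAle : ∀ x (C : ℝ), (∀ l, K x ≤ l → l < K x + Ln x → avg (c l) p a ≤ C) → A x ≤ C := by
      intro x C hC
      rw [hA]
      show (1 / (Ln x : ℝ)) * ∑ l ∈ Finset.Ico (K x) (K x + Ln x), avg (c l) p a ≤ C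
      have h1 : ∑ l ∈ Finset.Ico (K x) (K x + Ln x), avg (c l) p a ≤
          ∑ _l ∈ Finset.Ico (K x) (K x + Ln x), C := by
        refine Finset.sum_le_sum fun l hl => ?_
        rw [Finset.mem_Ico] at hl
        exact hC l hl.1 hl.2
      rw [Finset.sum_const, Nat.card_Ico, nsmul_eq_mul, Nat.add_sub_cancel_left] at h1
      have h2 := hLposR x
      rw [one_div, inv_mul_le_iff₀ h2]
      exact h1
    have hAρ : ∀ x, A x ≤ ρ := fun x => hAle x ρ fun l _ _ => hcρ l a L ha
    have hkey : ∃ x0, ∀ x, x ≠ x0 → A x ≤ ρ / 2 + ε / 4 := by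
      rcases L with j | n
      · by_cases hb : ∃ x0, e * (Ln x0 : ℝ) < nn j + 1 ∧ (nn j : ℝ) + 1 ≤ e * (Ln (x0 + 1) : ℝ)
        all_goals
          have hI1 : ∀ x, (nn j : ℝ) + 1 ≤ e * (Ln x : ℝ) → A x ≤ ρ / 2 + ε / 4 := by
            intro x hx
            rw [hA]
            have h1 := stage_bound h hI hc hρ0 hcρ ha he (K := K x) (hLpos x) hx
            refine h1.trans ?_
            have h2 : ρ / mm j ≤ ρ / 2 := by
              apply div_le_div_of_nonneg_left hρ0 (by norm_num)
              exact_mod_cast two_le_mm j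
            linarith
          have hI2 : ∀ x, e * (Ln (x + 1) : ℝ) < nn j + 1 → A x ≤ ρ / 2 + ε / 4 := by
            intro x hx
            apply hAle
            intro l hl1 hl2
            have hm : (0 : ℝ) < mm j := by exact_mod_cast mm_pos j
            have h1 : avg (c l) p a ≤ s (I (l + 1)) * (1 / (mm j : ℝ)) := by
              apply avg_size h (hc l) (by positivity)
              intro n
              have := ha.c1_le_inv n
              have h3 : ((c1 a n : ℚ) : ℝ) ≤ ((1 / (mm j : ℚ) : ℚ) : ℝ) := by exact_mod_cast this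
              push_cast at h3
              exact h3
            have h2 : s (I (l + 1)) ≤ s (I (K (x + 1))) := by
              apply h.mono.monotone
              apply hI.monotone
              rw [hKs]
              omega
            have h3 : (s (I (l + 1)) : ℝ) ≤ s (I (K (x + 1))) := by exact_mod_cast h2
            have h4 : (s (I (K (x + 1))) : ℝ) ≤ e * mm j := hst x j hx
            have h5 : (s (I (l + 1)) : ℝ) * (1 / (mm j : ℝ)) ≤ e := by
              rw [mul_one_div, div_le_iff₀ hm]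
              linarith
            linarith
        · obtain ⟨x0, h1, h2⟩ := hb
          refine ⟨x0, fun x hx => ?_⟩
          rcases Nat.lt_or_gt_of_ne hx with hlt | hgt
          · apply hI2
            have h3 : (Ln (x + 1) : ℝ) ≤ Ln x0 := by exact_mod_cast hLn (by omega : x + 1 ≤ x0)
            nlinarith
          · apply hI1
            have h3 : (Ln (x0 + 1) : ℝ) ≤ Ln x := by exact_mod_cast hLn (by omega : x0 + 1 ≤ x)
            nlinarith
        · refine ⟨0, fun x _ => ?_⟩
          by_cases h1 : (nn j : ℝ) + 1 ≤ e * (Ln x : ℝ)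
          · exact hI1 x h1
          · push Not at h1
            apply hI2
            by_contra h2
            push Not at h2
            exact hb ⟨x, h1, h2⟩
      · -- leaf
        have hleaf : ∀ k, k ≠ n → a k = 0 := by
          rcases ha.cases with h1 | ⟨j, hj, _⟩ | ⟨j, hj, _⟩
          · obtain ⟨n', hn', h2, _⟩ := h1
            cases hn'
            exact h2
          · cases hj
          · cases hj
        have hnz : ∀ l, avg (c l) p a ≠ 0 → s (I l) < n ∧ n ≤ s (I (l + 1)) := by
          intro l hl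
          by_contra hcon
          apply hl
          apply avg_eq_zero h (hc l)
          intro k hk1 hk2
          apply hleaf
          rintro rfl
          exact hcon ⟨hk1, hk2⟩
        have huniq : ∀ l l', avg (c l) p a ≠ 0 → avg (c l') p a ≠ 0 → l ≤ l' → l = l' := by
          intro l l' h1 h2 h3
          by_contra hne
          have h4 := hnz l h1
          have h5 := hnz l' h2
          have h6 : s (I (l + 1)) ≤ s (I l') := h.mono.monotone (hI.monotone (by omega))
          omega
        by_cases hb : ∃ x0, ∃ l, K x0 ≤ l ∧ l < K x0 + Ln x0 ∧ avg (c l) p a ≠ 0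
        · obtain ⟨x0, l0, h1, h2, h3⟩ := hb
          refine ⟨x0, fun x hx => ?_⟩
          apply hAle
          intro l hl1 hl2
          by_cases hz : avg (c l) p a = 0
          · rw [hz]; positivity
          · exfalso
            have h4 : l = l0 := by
              rcases le_total l l0 with h5 | h5
              · exact huniq l l0 hz h3 h5
              · exact (huniq l0 l h3 hz h5).symm
            subst h4
            rcases Nat.lt_or_gt_of_ne hx with hlt | hgt
            · have h6 : K (x + 1) ≤ K x0 := hKmono (by omega)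
              rw [hKs] at h6
              omega
            · have h6 : K (x0 + 1) ≤ K x := hKmono (by omega)
              rw [hKs] at h6
              omega
        · refine ⟨0, fun x _ => ?_⟩
          apply hAle
          intro l hl1 hl2
          by_cases hz : avg (c l) p a = 0
          · rw [hz]; positivity
          · exact absurd ⟨x, l, hl1, hl2, hz⟩ hb
    have hsum := sum_one_bad (T := T) hρ0 (by positivity : 0 ≤ ρ / 2 + ε / 4) hAρ hkey
    have e1 : ∑ x ∈ Finset.range T, (1 / (T : ℝ)) * ((1 / (Ln x : ℝ)) *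
        ∑ l ∈ Finset.Ico (K x) (K x + Ln x), avg (c l) p a) =
        (1 / (T : ℝ)) * ∑ x ∈ Finset.range T, A x := by
      rw [Finset.mul_sum, hA]
    rw [e1]
    have e2 : (1 / (T : ℝ)) * ∑ x ∈ Finset.range T, A x ≤
        (1 / (T : ℝ)) * (T * (ρ / 2 + ε / 4) + ρ) := by
      gcongr
    have e3 : (1 / (T : ℝ)) * (T * (ρ / 2 + ε / 4) + ρ) = ρ / 2 + ε / 4 + ρ / T := by
      field_simp
    linarith

theorem avg_all (h : WinS s p) {ρ : ℝ} (hρ : 0 < ρ) : HH p ρ := by
  refine halve (P := HH p) (C := 1) zero_le_one ?_ ?_ ?_ ρ hρ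
  · intro i0
    have hcc : CC (Finsupp.single i0 (1 : ℝ)) i0 (i0 + 1) := by
      constructor
      · intro i
        rw [Finsupp.single_apply]
        split_ifs <;> norm_num
      · rw [Finsupp.sum_single_index rfl]
      · intro i hi
        have := Finsupp.support_single_subset hi
        rw [Finset.mem_singleton] at this
        omega
      · intro i hi
        have := Finsupp.support_single_subset hi
        rw [Finset.mem_singleton] at this
        omega
    exact ⟨_, _, hcc, fun a L ha => avg_le_one h hcc ha⟩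
  · intro c c' hcc' hP i0
    obtain ⟨d, i1, h1, h2⟩ := hP i0
    exact ⟨d, i1, h1, fun a L ha => (h2 a L ha).trans hcc'⟩
  · intro c hc0 hc ε hε
    exact avg_step h hc0 hc hε

end Pool.Agent.NAP
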