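import Pool.Agent.NAP.AvgDef

/-!
# NAP / AvgA: elementary facts on averages, one block

* `avg_add`, `avg_smul`, `avg_sum`: linear in `c` (`Finsupp.sum_add_index'`, `Finsupp.sum_smul_index`).
* `avg_nonneg`, `avg_le_one`: from `0 ≤ p i v`, and `p i a ≤ 1` for atoms, `∑ c i = 1`.
* `avg_half`: `avg c p (x • (1/2) (a + b)) ≤ |x| ρ` if both values are `≤ ρ` (`add`, `smul`).
* `avg_congr`: if `v` and `w` agree at all coordinates in `(s i0, s i1]` then `avg c p v = avg c p w` (`win`,
  `mono`).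
* `avg_size`: `avg c p v ≤ s i1 * C` if `c1 v n ≤ C` for all `n` (`size`; the window of `i` has at most
  `s (i + 1) ≤ s i1` elements; convex combination).
* `avg_eq_zero`: if `v` vanishes on `(s i0, s i1]` then `avg c p v = 0` (`avg_congr` with `0`, `p i 0 = 0`).
* `cross_count`: choose for every `l` in the set such an `r ≤ k`; it is injective, because the open intervals
  `(q l, q (l + 1))` are disjoint (`q` monotone), so the set injects into `range (k + 1)`.
-/

namespace Pool.Agent.NAP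

variable {s : ℕ → ℕ} {p : ℕ → V → ℝ} {c c' : ℕ →₀ ℝ} {i0 i1 : ℕ}

theorem avg_add (v : V) : avg (c + c') p v = avg c p v + avg c' p v := by
  unfold avg
  refine Finsupp.sum_add_index' (fun i => zero_mul _) (fun i x y => add_mul x y _)

theorem avg_smul (x : ℝ) (v : V) : avg (x • c) p v = x * avg c p v := by
  unfold avg
  rw [Finsupp.sum_smul_index (fun i => zero_mul _), Finsupp.mul_sum]
  refine Finsupp.sum_congr fun i _ => ?_
  rw [mul_assoc]

theorem avg_sum {ι : Type*} (S : Finset ι) (f : ι → ℕ →₀ ℝ) (v : V) :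
    avg (∑ l ∈ S, f l) p v = ∑ l ∈ S, avg (f l) p v := by
  classical
  induction S using Finset.induction_on with
  | empty => simp [avg]
  | insert a S ha ih => rw [Finset.sum_insert ha, Finset.sum_insert ha, avg_add, ih]

theorem avg_nonneg (h : WinS s p) (hc : CC c i0 i1) (v : V) : 0 ≤ avg c p v := by
  unfold avg Finsupp.sum
  exact Finset.sum_nonneg fun i _ => mul_nonneg (hc.nonneg i) (h.nonneg i v)

theorem avg_le_one (h : WinS s p) (hc : CC c i0 i1) {a : V} {L : Lab} (ha : Atom a L) :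
    avg c p a ≤ 1 := by
  have h1 := hc.sum
  unfold avg Finsupp.sum at *
  rw [← h1]
  refine Finset.sum_le_sum fun i _ => ?_
  have h2 := mul_le_mul_of_nonneg_left (h.atom i a L ha) (hc.nonneg i)
  rwa [mul_one] at h2

theorem avg_half (h : WinS s p) (hc : CC c i0 i1) {a b : V} {ρ : ℝ} (ha : avg c p a ≤ ρ)
    (hb : avg c p b ≤ ρ) (x : ℚ) : avg c p (x • (1 / 2 : ℚ) • (a + b)) ≤ |(x : ℝ)| * ρ := by
  have h1 : avg c p (x • (1 / 2 : ℚ) • (a + b)) ≤
      |(x : ℝ)| * (1 / 2 * (avg c p a + avg c p b)) := by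
    unfold avg Finsupp.sum
    rw [← Finset.sum_add_distrib, Finset.mul_sum, Finset.mul_sum]
    refine Finset.sum_le_sum fun i _ => ?_
    have h2 := h.add i a b
    have h3 : p i (x • (1 / 2 : ℚ) • (a + b)) = |(x : ℝ)| * (1 / 2 * p i (a + b)) := by
      rw [h.smul, h.smul]
      norm_num
    beta_reduce
    rw [h3]
    have h4 : c i * (|(x : ℝ)| * (1 / 2 * p i (a + b))) ≤
        c i * (|(x : ℝ)| * (1 / 2 * (p i a + p i b))) :=
      mul_le_mul_of_nonneg_left (mul_le_mul_of_nonneg_left (by linarith) (abs_nonneg _))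
        (hc.nonneg i)
    calc c i * (|(x : ℝ)| * (1 / 2 * p i (a + b))) ≤
        c i * (|(x : ℝ)| * (1 / 2 * (p i a + p i b))) := h4
      _ = |(x : ℝ)| * (1 / 2 * (c i * p i a + c i * p i b)) := by ring
  exact h1.trans (mul_le_mul_of_nonneg_left (by linarith) (abs_nonneg _))

theorem avg_congr (h : WinS s p) (hc : CC c i0 i1) {v w : V}
    (hvw : ∀ n, s i0 < n → n ≤ s i1 → v n = w n) : avg c p v = avg c p w := by
  unfold avg
  refine Finsupp.sum_congr fun i hi => ?_
  have h1 := h.mono.monotone (hc.lo i hi)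
  have h2 : s (i + 1) ≤ s i1 := h.mono.monotone (hc.hi i hi)
  rw [h.win i v w fun n hn hn' => hvw n (lt_of_le_of_lt h1 hn) (hn'.trans h2)]

theorem avg_eq_zero (h : WinS s p) (hc : CC c i0 i1) {v : V}
    (hv : ∀ n, s i0 < n → n ≤ s i1 → v n = 0) : avg c p v = 0 := by
  rw [avg_congr h hc (w := 0) (fun n hn hn' => by rw [hv n hn hn', Finsupp.zero_apply])]
  unfold avg Finsupp.sum
  refine Finset.sum_eq_zero fun i _ => ?_
  have h1 := h.smul i 0 0
  rw [zero_smul] at h1
  beta_reduce
  rw [h1]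
  simp

theorem avg_size (h : WinS s p) (hc : CC c i0 i1) {v : V} {C : ℝ} (hC0 : 0 ≤ C)
    (hC : ∀ n, (c1 v n : ℝ) ≤ C) : avg c p v ≤ s i1 * C := by
  have h1 := hc.sum
  have h2 : avg c p v ≤ (c.sum fun _ x => x) * (s i1 * C) := by
    unfold avg Finsupp.sum
    rw [Finset.sum_mul]
    refine Finset.sum_le_sum fun i hi => ?_
    refine mul_le_mul_of_nonneg_left ?_ (hc.nonneg i)
    have h3 := h.size i v
    have h4 : ∑ n ∈ Finset.Ioc (s i) (s (i + 1)), (c1 v n : ℝ) ≤
        ∑ _n ∈ Finset.Ioc (s i) (s (i + 1)), C := Finset.sum_le_sum fun n _ => hC n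
    rw [Finset.sum_const, Nat.card_Ioc, nsmul_eq_mul] at h4
    have h5 : s (i + 1) ≤ s i1 := h.mono.monotone (hc.hi i hi)
    have h6 : ((s (i + 1) - s i : ℕ) : ℝ) ≤ (s i1 : ℝ) := by
      exact_mod_cast (Nat.sub_le _ _).trans h5
    have h7 := mul_le_mul_of_nonneg_right h6 hC0
    linarith
  rw [h1, one_mul] at h2
  exact h2

/-- the points `t r`, `r ≤ k`, lie in the interior of at most `k + 1` of the successive intervals -/
theorem cross_count {q t : ℕ → ℕ} (hq : Monotone q) (k : ℕ) (S : Finset ℕ) :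
    (S.filter (fun l => ∃ r ≤ k, q l < t r ∧ t r < q (l + 1))).card ≤ k + 1 := by
  classical
  have hch : ∀ l, ∃ r, (∃ r ≤ k, q l < t r ∧ t r < q (l + 1)) →
      r ≤ k ∧ q l < t r ∧ t r < q (l + 1) := by
    intro l
    by_cases hl : ∃ r ≤ k, q l < t r ∧ t r < q (l + 1)
    · obtain ⟨r, hr⟩ := hl
      exact ⟨r, fun _ => hr⟩
    · exact ⟨0, fun h => absurd h hl⟩
  choose f hf using hch
  have h1 : (S.filter (fun l => ∃ r ≤ k, q l < t r ∧ t r < q (l + 1))).card ≤
      (Finset.range (k + 1)).card := by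
    refine Finset.card_le_card_of_injOn f ?_ ?_
    · intro l hl
      have hl' := (Finset.mem_filter.1 (Finset.mem_coe.1 hl)).2
      have := (hf l hl').1
      simp only [Finset.coe_range, Set.mem_Iio]
      omega
    · intro l hl l' hl' hll
      have e1 := hf l (Finset.mem_filter.1 (Finset.mem_coe.1 hl)).2
      have e2 := hf l' (Finset.mem_filter.1 (Finset.mem_coe.1 hl')).2
      rw [← hll] at e2
      by_contra hne
      rcases Nat.lt_or_gt_of_ne hne with hlt | hlt
      · have h3 : q (l + 1) ≤ q l' := hq hlt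
        omega
      · have h3 : q (l' + 1) ≤ q l := hq hlt
        omega
  rwa [Finset.card_range] at h1

end Pool.Agent.NAP
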