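import Pool.Agent.NAP.AvgA

/-!
# NAP / AvgB: successive blocks and lengths of the stages

`blocks`: from `HH p ρ` choose recursively `I 0 = i0`, `c l` with `CC (c l) (I l) (I (l + 1))`; one may
enlarge `i1` (`max i1 (i0 + 1)`) so that `I` is strictly monotone.

`stages`: let `q : ℕ → ℕ` (`q l = s (I l)`), `e > 0`. There are `Ln : ℕ → ℕ`, monotone, positive,
`K : ℕ → ℕ` with `K 0 = 0`, `K (x + 1) = K x + Ln x`, such that for all `x` and `j`: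
`e * Ln (x + 1) < nn j + 1 → q (K (x + 1)) ≤ e * mm j`. Recursion: the pair `(K x, Ln x)`; given
`K (x + 1) = K x + Ln x` let `R = q (K (x + 1))` and `Ln (x + 1) = max (Ln x) ⌈2 (R / e)^3 / e⌉`. If
`e * Ln (x + 1) < nn j + 1` then `2 (R/e)^3 < nn j + 1 ≤ 2 m_j^3` (`nn_le`, `1 ≤ m_j^3`), so
`R / e < m_j`.
-/

namespace Pool.Agent.NAP

variable {s : ℕ → ℕ} {p : ℕ → V → ℝ}

theorem blocks {ρ : ℝ} (h : HH p ρ) (i0 : ℕ) : ∃ (c : ℕ → ℕ →₀ ℝ) (I : ℕ → ℕ), I 0 = i0 ∧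
    StrictMono I ∧ (∀ l, CC (c l) (I l) (I (l + 1))) ∧ ∀ l a L, Atom a L → avg (c l) p a ≤ ρ := by
  choose C J hCJ hC using h
  let I : ℕ → ℕ := fun l => Nat.rec i0 (fun _ x => max (J x) (x + 1)) l
  have hI : ∀ l, I (l + 1) = max (J (I l)) (I l + 1) := fun l => rfl
  refine ⟨fun l => C (I l), I, rfl, ?_, ?_, ?_⟩
  · refine strictMono_nat_of_lt_succ fun l => ?_
    rw [hI]
    exact lt_of_lt_of_le (Nat.lt_succ_self _) (le_max_right _ _)
  · intro l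
    have h1 := hCJ (I l)
    refine ⟨h1.nonneg, h1.sum, h1.lo, fun i hi => ?_⟩
    rw [hI]
    exact lt_of_lt_of_le (h1.hi i hi) (le_max_left _ _)
  · intro l a L ha
    exact hC (I l) a L ha

theorem stages (q : ℕ → ℕ) {e : ℝ} (he : 0 < e) : ∃ Ln K : ℕ → ℕ, Monotone Ln ∧ (∀ x, 0 < Ln x) ∧
    K 0 = 0 ∧ (∀ x, K (x + 1) = K x + Ln x) ∧
    ∀ x j : ℕ, e * (Ln (x + 1) : ℝ) < nn j + 1 → (q (K (x + 1)) : ℝ) ≤ e * mm j := by
  let st : ℕ → ℕ × ℕ := fun x => Nat.rec (0, 1)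
    (fun _ y => (y.1 + y.2, max y.2 ⌈2 * ((q (y.1 + y.2) : ℝ) / e) ^ 3 / e⌉₊)) x
  have hst : ∀ x, st (x + 1) = ((st x).1 + (st x).2,
      max (st x).2 ⌈2 * ((q ((st x).1 + (st x).2) : ℝ) / e) ^ 3 / e⌉₊) := fun x => rfl
  have hK : ∀ x, (st (x + 1)).1 = (st x).1 + (st x).2 := fun x => by rw [hst]
  have hL : ∀ x, (st (x + 1)).2 =
      max (st x).2 ⌈2 * ((q ((st (x + 1)).1) : ℝ) / e) ^ 3 / e⌉₊ := fun x => by rw [hK, hst]
  have hmono : Monotone (fun x => (st x).2) := by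
    refine monotone_nat_of_le_succ fun x => ?_
    rw [hL]
    exact le_max_left _ _
  refine ⟨fun x => (st x).2, fun x => (st x).1, hmono, ?_, rfl, hK, ?_⟩
  · intro x
    have h1 : (st 0).2 ≤ (st x).2 := hmono (Nat.zero_le x)
    have h2 : (st 0).2 = 1 := rfl
    show 0 < (st x).2
    omega
  · intro x j hj
    by_contra hcon
    push Not at hcon
    have hj' : e * ((st (x + 1)).2 : ℝ) < nn j + 1 := hj
    have hcon' : e * (mm j : ℝ) < (q ((st (x + 1)).1) : ℝ) := hcon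
    set R : ℝ := (q ((st (x + 1)).1) : ℝ) / e with hR
    have h1 : (mm j : ℝ) < R := by
      rw [hR, lt_div_iff₀ he]
      linarith
    have h2 : 2 * R ^ 3 / e ≤ ((st (x + 1)).2 : ℝ) := by
      refine (Nat.le_ceil _).trans ?_
      rw [hL]
      exact_mod_cast le_max_right _ _
    rw [div_le_iff₀ he] at h2
    have h3 : (1 : ℝ) ≤ (mm j : ℝ) := by exact_mod_cast mm_pos j
    have h4 : (mm j : ℝ) ^ 3 < R ^ 3 := pow_lt_pow_left₀ h1 (by linarith) (by norm_num)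
    have h5 : (1 : ℝ) ≤ (mm j : ℝ) ^ 3 := one_le_pow₀ h3
    have h6 : (nn j : ℝ) ≤ (mm j : ℝ) ^ 3 := by exact_mod_cast nn_le j
    linarith

end Pool.Agent.NAP
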