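import Pool.Agent.NAP.Basic

/-!
# NAP / AvgDef: seminorms on windows and their averages

`WinS s p`: the seminorm `p i` depends only on the coordinates in the window `(s i, s (i + 1)]`, is at most
one on atoms, and is at most the sum of the sizes of the coordinates in the window.
`avg c p v = ∑ c i * p i v`. `CC c`: `c` is a convex combination. `HH p ρ`: there are convex combinations,
arbitrarily far out, with `avg c p a ≤ ρ` for all atoms `a`.
-/

namespace Pool.Agent.NAP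

structure WinS (s : ℕ → ℕ) (p : ℕ → V → ℝ) : Prop where
  mono : StrictMono s
  nonneg : ∀ i v, 0 ≤ p i v
  add : ∀ i v w, p i (v + w) ≤ p i v + p i w
  smul : ∀ i (c : ℚ) v, p i (c • v) = |(c : ℝ)| * p i v
  win : ∀ i v w, (∀ n, s i < n → n ≤ s (i + 1) → v n = w n) → p i v = p i w
  atom : ∀ i a L, Atom a L → p i a ≤ 1
  size : ∀ i v, p i v ≤ ∑ n ∈ Finset.Ioc (s i) (s (i + 1)), (c1 v n : ℝ)

/-- value of a combination -/
noncomputable def avg (c : ℕ →₀ ℝ) (p : ℕ → V → ℝ) (v : V) : ℝ := c.sum fun i x => x * p i v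

/-- convex combinations with indices in `[i0, i1)` -/
structure CC (c : ℕ →₀ ℝ) (i0 i1 : ℕ) : Prop where
  nonneg : ∀ i, 0 ≤ c i
  sum : (c.sum fun _ x => x) = 1
  lo : ∀ i ∈ c.support, i0 ≤ i
  hi : ∀ i ∈ c.support, i < i1

def HH (p : ℕ → V → ℝ) (ρ : ℝ) : Prop :=
  ∀ i0, ∃ (c : ℕ →₀ ℝ) (i1 : ℕ), CC c i0 i1 ∧ ∀ a L, Atom a L → avg c p a ≤ ρ

end Pool.Agent.NAP
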