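import Pool.Agent.NAP.AvgA

/-!
# NAP / AvgN: a block which does not cross the windows of a node

`avg_noncross`: let `v` be a node in the common form with windows `t r`, `r ≤ k`, and suppose that no
`t r` with `r ≤ k` satisfies `s i0 < t r < s i1`. Then `avg c p v ≤ ρ / m_j`, if `avg c p a ≤ ρ` for all
atoms. Proof: (a) if `s i1 ≤ t 0` or `t k ≤ s i0` then `v` vanishes on `(s i0, s i1]` (`v` is supported in
`(t 0, t k]`), so the value is `0` (`avg_eq_zero`). (b) Otherwise let `r` be the largest number `≤ k` with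
`t r ≤ s i0` (it exists because `t 0 ≤ s i0`: `t 0 < s i1`, so not `s i0 < t 0`); `r < k` because
`s i0 < t k`; `s i0 < t (r + 1)`, so `s i1 ≤ t (r + 1)`. On `(s i0, s i1]`, a part of `(t r, t (r+1)]`, only
the `r`-th constituent does not vanish: `v` agrees there with `(1/m_j) (1/2) (a r + b r)`; use `avg_congr`,
`avg_half`.
-/

namespace Pool.Agent.NAP

variable {s : ℕ → ℕ} {p : ℕ → V → ℝ} {c c' : ℕ →₀ ℝ} {i0 i1 : ℕ}

private theorem plain_apply {j k : ℕ} {a b : ℕ → V} {La Lb : ℕ → Lab} {t : ℕ → ℕ}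
    {v : V} (hv : PlainS Atom j k a b La Lb t v) (n : ℕ) :
    v n = (1 / (mm j : ℚ)) • ∑ r ∈ Finset.range k, (1 / 2 : ℚ) • (a r n + b r n) := by
  rw [hv.hv, Finsupp.smul_apply, Finsupp.finsetSum_apply]
  rfl

theorem avg_noncross (h : WinS s p) (hc : CC c i0 i1) {ρ : ℝ} (hρ0 : 0 ≤ ρ)
    (hρ : ∀ a L, Atom a L → avg c p a ≤ ρ) {j k : ℕ} {a b : ℕ → V} {La Lb : ℕ → Lab} {t : ℕ → ℕ}
    {v : V} (hv : PlainS Atom j k a b La Lb t v) (ht : ∀ r ≤ k, ¬ (s i0 < t r ∧ t r < s i1)) :
    avg c p v ≤ ρ / mm j := by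
  have hR : (0 : ℝ) ≤ ρ / mm j := div_nonneg hρ0 (Nat.cast_nonneg _)
  -- a constituent vanishes outside its window
  have hz : ∀ r < k, ∀ n, (n ≤ t r ∨ t (r + 1) < n) → a r n = 0 ∧ b r n = 0 := by
    intro r hr n hn
    constructor
    · by_contra h0
      have := hv.sa r hr n h0
      omega
    · by_contra h0
      have := hv.sb r hr n h0
      omega
  by_cases h1 : s i1 ≤ t 0
  · rw [avg_eq_zero h hc]
    · exact hR
    · intro n _ hn
      rw [plain_apply hv n, Finset.sum_eq_zero, smul_zero]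
      intro r hr
      have h2 : t 0 ≤ t r := hv.ht (Nat.zero_le r)
      obtain ⟨e1, e2⟩ := hz r (Finset.mem_range.1 hr) n (Or.inl (by omega))
      rw [e1, e2, add_zero, smul_zero]
  by_cases h2 : t k ≤ s i0
  · rw [avg_eq_zero h hc]
    · exact hR
    · intro n hn _
      rw [plain_apply hv n, Finset.sum_eq_zero, smul_zero]
      intro r hr
      have hrk := Finset.mem_range.1 hr
      have h3 : t (r + 1) ≤ t k := hv.ht hrk
      obtain ⟨e1, e2⟩ := hz r hrk n (Or.inr (by omega))
      rw [e1, e2, add_zero, smul_zero]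
  push Not at h1 h2
  have h0 : t 0 ≤ s i0 := by
    by_contra h3
    exact ht 0 (Nat.zero_le k) ⟨by omega, h1⟩
  set r := Nat.findGreatest (fun r => t r ≤ s i0) k with hr
  have hr1 : t r ≤ s i0 := Nat.findGreatest_spec (P := fun r => t r ≤ s i0) (Nat.zero_le k) h0
  have hrk : r < k := by
    have h3 : r ≤ k := Nat.findGreatest_le k
    rcases Nat.lt_or_ge r k with h4 | h4
    · exact h4
    · have : r = k := le_antisymm h3 h4
      rw [this] at hr1
      omega
  have hr2 : s i0 < t (r + 1) := by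
    have := Nat.findGreatest_is_greatest (P := fun r => t r ≤ s i0) (n := k) (k := r + 1)
      (by rw [← hr]; omega) hrk
    simpa using this
  have hr3 : s i1 ≤ t (r + 1) := by
    by_contra h3
    exact ht (r + 1) hrk ⟨hr2, by omega⟩
  have e : avg c p v = avg c p ((1 / (mm j : ℚ)) • (1 / 2 : ℚ) • (a r + b r)) := by
    refine avg_congr h hc fun n hn hn' => ?_
    rw [plain_apply hv n, Finset.sum_eq_single r]
    · rfl
    · intro q hq hqr
      have hqk := Finset.mem_range.1 hq
      rcases Nat.lt_or_gt_of_ne hqr with h3 | h3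
      · have h4 : t (q + 1) ≤ t r := hv.ht h3
        obtain ⟨e1, e2⟩ := hz q hqk n (Or.inr (by omega))
        rw [e1, e2, add_zero, smul_zero]
      · have h4 : t (r + 1) ≤ t q := hv.ht h3
        obtain ⟨e1, e2⟩ := hz q hqk n (Or.inl (by omega))
        rw [e1, e2, add_zero, smul_zero]
    · intro h3
      exact absurd (Finset.mem_range.2 hrk) h3
  rw [e]
  refine (avg_half h hc (hρ _ _ (hv.ha r hrk)) (hρ _ _ (hv.hb r hrk)) _).trans (le_of_eq ?_)
  have h5 : (((1 / (mm j : ℚ) : ℚ)) : ℝ) = 1 / (mm j : ℝ) := by push_cast; ring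
  rw [h5, abs_of_nonneg (by positivity)]
  ring

end Pool.Agent.NAP
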