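import Pool.Agent.NAP.Emb
import Pool.Agent.NAP.Avg

/-!
# NAP / BC: the partial sums of the coordinates converge

`bc`: `‖x - pr N x‖` is nonincreasing (`norm_sub_pr_anti`). Suppose it does not tend to zero: there is
`δ > 0` with `‖x - pr N x‖ > δ` for all `N`. So for every `N` there are `h ∈ GG`, `M` with
`AP M h (crd (x - pr N x)) > δ` (`norm_le_of`). Choose recursively `s 0 = 0`, `g i ∈ GG`,
`s (i + 1) ≥ max M (s i + 1)` for `N = s i`. Let `p i v = ∑_(n ∈ (s i, s (i+1)]) ‖om (g i n) (emb v n)‖`. Then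
`WinS s p`: `atom`: a part of the sum `AP (s (i+1) + 1) (g i) (emb a) ≤ 1`; `size`: `h_coord` and
`‖om h y‖ ≤ ‖y.1‖ + ‖y.2‖`. And `∑_(n ∈ (s i, s (i+1)]) ‖om (g i n) (crd x n)‖ > δ` (the coordinates
of `x - pr N x` up to `N` vanish, the others are those of `x`; `M ≤ s (i + 1)`). Let `ρ > 0`. By `avg_all`
there is a convex combination `c` with `avg c p a ≤ ρ` for all atoms. Let `h n = c i • g i n` for
`n ∈ (s i, s (i+1)]` (real scalar, `0` if `n = 0`). For an atom `a`: `AP M h (emb a) ≤ avg c p a ≤ ρ`. So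
`ρ⁻¹ • h ∈ GG`, and `δ < ∑ c i ∑_(n ∈ window i) ‖om (g i n) (crd x n)‖ = AP M h (crd x) ≤ ρ ‖x‖` for large
`M`. For `ρ = δ / (1 + ‖x‖)` this is a contradiction.
-/

namespace Pool.Agent.NAP

open Filter Topology

variable {𝕜 : Type} [RCLike 𝕜]

private theorem bcz_crd_sub (N : ℕ) (x : X 𝕜) (n : ℕ) :
    crd (x - pr N x) n = if n ≤ N then 0 else crd x n := by
  rw [map_sub, Pi.sub_apply, crd_pr]
  split_ifs <;> simp

private theorem bcz_om_le (a b : 𝕜 × 𝕜) (h1 : ‖a.1‖ ≤ 1) (h2 : ‖a.2‖ ≤ 1) :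
    ‖om a b‖ ≤ ‖b.2‖ + ‖b.1‖ := by
  unfold om
  refine (norm_sub_le _ _).trans ?_
  rw [norm_mul, norm_mul]
  exact add_le_add (mul_le_of_le_one_left (norm_nonneg _) h1)
    (mul_le_of_le_one_left (norm_nonneg _) h2)

private theorem bcz_norm_rat (q : ℚ) : ‖(q : 𝕜)‖ = |(q : ℝ)| := by
  have : (q : 𝕜) = ((q : ℝ) : 𝕜) := by push_cast; ring
  rw [this, RCLike.norm_ofReal]

/-- sum over a window -/
private noncomputable def bczW (s : ℕ → ℕ) (g : ℕ → Sq 𝕜) (i : ℕ) (y : Sq 𝕜) : ℝ :=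
  ∑ n ∈ Finset.Ioc (s i) (s (i + 1)), ‖om (g i n) (y n)‖

private theorem bcz_win (s : ℕ → ℕ) (hs : StrictMono s) (g : ℕ → Sq 𝕜) (hg : ∀ i, g i ∈ GG 𝕜) :
    WinS s (fun i v => bczW s g i (emb 𝕜 v)) where
  mono := hs
  nonneg := fun i v => Finset.sum_nonneg fun _ _ => norm_nonneg _
  add := by
    intro i v w
    unfold bczW
    rw [← Finset.sum_add_distrib]
    refine Finset.sum_le_sum fun n _ => ?_
    rw [emb_add, Pi.add_apply, om_add_right]
    exact norm_add_le _ _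
  smul := by
    intro i c v
    unfold bczW
    rw [Finset.mul_sum]
    refine Finset.sum_congr rfl fun n _ => ?_
    rw [emb_smul, Pi.smul_apply, om_smul_right, norm_mul, bcz_norm_rat]
  win := by
    intro i v w h
    unfold bczW
    refine Finset.sum_congr rfl fun n hn => ?_
    rw [Finset.mem_Ioc] at hn
    have h1 : emb 𝕜 v n = emb 𝕜 w n := by
      unfold emb
      rw [h n hn.1 hn.2]
    rw [h1]
  atom := by
    intro i a L ha
    refine le_trans ?_ (hg i (s (i + 1) + 1) a L ha)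
    unfold AP bczW
    refine Finset.sum_le_sum_of_subset_of_nonneg ?_ fun _ _ _ => norm_nonneg _
    intro n hn
    rw [Finset.mem_Ioc] at hn
    rw [Finset.mem_range]
    omega
  size := by
    intro i v
    unfold bczW
    refine Finset.sum_le_sum fun n _ => ?_
    have h1 := h_coord (hg i) n
    refine (bcz_om_le _ _ h1.1 h1.2).trans ?_
    unfold emb c1
    rw [bcz_norm_rat, bcz_norm_rat]
    push_cast
    linarith

private theorem bcz_consec (s : ℕ → ℕ) (hs : Monotone s) (f : ℕ → ℝ) (k : ℕ) :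
    ∑ i ∈ Finset.range k, ∑ n ∈ Finset.Ioc (s i) (s (i + 1)), f n =
      ∑ n ∈ Finset.Ioc (s 0) (s k), f n := by
  induction k with
  | zero => simp
  | succ k ih =>
    rw [Finset.sum_range_succ, ih]
    exact Finset.sum_Ioc_consecutive f (hs (Nat.zero_le k)) (hs (Nat.le_succ k))

/-- the combination of the functionals -/
private noncomputable def bczh (s : ℕ → ℕ) (g : ℕ → Sq 𝕜) (c : ℕ →₀ ℝ) (k : ℕ) : Sq 𝕜 :=
  fun n => ∑ i ∈ Finset.range k,
    if n ∈ Finset.Ioc (s i) (s (i + 1)) then ((c i : ℝ) : 𝕜) • g i n else 0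

private theorem bcz_om_sum (k : ℕ) (u : ℕ → 𝕜 × 𝕜) (y : 𝕜 × 𝕜) :
    om (∑ i ∈ Finset.range k, u i) y = ∑ i ∈ Finset.range k, om (u i) y := by
  induction k with
  | zero => simp [om_zero_left]
  | succ k ih => rw [Finset.sum_range_succ, om_add_left, ih, Finset.sum_range_succ]

private theorem bcz_upper (s : ℕ → ℕ) (g : ℕ → Sq 𝕜) (c : ℕ →₀ ℝ) (hc : ∀ i, 0 ≤ c i) (k M : ℕ)
    (y : Sq 𝕜) : AP M (bczh s g c k) y ≤ ∑ i ∈ Finset.range k, c i * bczW s g i y := by
  unfold AP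
  have h1 : ∀ n, ‖om (bczh s g c k n) (y n)‖ ≤ ∑ i ∈ Finset.range k,
      if n ∈ Finset.Ioc (s i) (s (i + 1)) then c i * ‖om (g i n) (y n)‖ else 0 := by
    intro n
    unfold bczh
    rw [bcz_om_sum]
    refine (norm_sum_le _ _).trans (Finset.sum_le_sum fun i _ => ?_)
    split_ifs
    · rw [om_smul_left, norm_mul, RCLike.norm_ofReal, abs_of_nonneg (hc i)]
    · rw [om_zero_left, norm_zero]
  refine (Finset.sum_le_sum fun n _ => h1 n).trans ?_
  rw [Finset.sum_comm]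
  refine Finset.sum_le_sum fun i _ => ?_
  unfold bczW
  rw [Finset.mul_sum, ← Finset.sum_filter]
  refine Finset.sum_le_sum_of_subset_of_nonneg ?_ fun n _ _ =>
    mul_nonneg (hc i) (norm_nonneg _)
  intro n hn
  exact (Finset.mem_filter.1 hn).2

private theorem bcz_h_apply (s : ℕ → ℕ) (hs : Monotone s) (g : ℕ → Sq 𝕜) (c : ℕ →₀ ℝ) {k i : ℕ}
    (hi : i < k) {n : ℕ} (hn : n ∈ Finset.Ioc (s i) (s (i + 1))) :
    bczh s g c k n = ((c i : ℝ) : 𝕜) • g i n := by
  unfold bczh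
  rw [Finset.sum_eq_single i]
  · rw [if_pos hn]
  · intro j _ hji
    rw [if_neg]
    intro hj
    rw [Finset.mem_Ioc] at hn hj
    rcases lt_or_gt_of_ne hji with h | h
    · have := hs (show j + 1 ≤ i from h)
      omega
    · have := hs (show i + 1 ≤ j from h)
      omega
  · intro h
    exact absurd (Finset.mem_range.2 hi) h

private theorem bcz_lower (s : ℕ → ℕ) (hs : Monotone s) (g : ℕ → Sq 𝕜) (c : ℕ →₀ ℝ)
    (hc : ∀ i, 0 ≤ c i) (k : ℕ) (y : Sq 𝕜) :
    ∑ i ∈ Finset.range k, c i * bczW s g i y ≤ AP (s k + 1) (bczh s g c k) y := by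
  have h1 : ∑ i ∈ Finset.range k, c i * bczW s g i y =
      ∑ i ∈ Finset.range k, ∑ n ∈ Finset.Ioc (s i) (s (i + 1)),
        ‖om (bczh s g c k n) (y n)‖ := by
    refine Finset.sum_congr rfl fun i hi => ?_
    unfold bczW
    rw [Finset.mul_sum]
    refine Finset.sum_congr rfl fun n hn => ?_
    rw [bcz_h_apply s hs g c (Finset.mem_range.1 hi) hn, om_smul_left, norm_mul,
      RCLike.norm_ofReal, abs_of_nonneg (hc i)]
  rw [h1, bcz_consec s hs (fun n => ‖om (bczh s g c k n) (y n)‖) k]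
  unfold AP
  refine Finset.sum_le_sum_of_subset_of_nonneg ?_ fun _ _ _ => norm_nonneg _
  intro n hn
  rw [Finset.mem_Ioc] at hn
  rw [Finset.mem_range]
  omega

theorem bc_norm (x : X 𝕜) {ε : ℝ} (hε : 0 < ε) : ∃ N, ‖x - pr N x‖ ≤ ε := by
  by_contra hcon
  push Not at hcon
  have hA : ∀ N, ∃ (h : Sq 𝕜) (M : ℕ), h ∈ GG 𝕜 ∧ ε < AP M h (crd (x - pr N x)) := by
    intro N
    by_contra h1
    push Not at h1
    exact absurd (norm_le_of fun h hh M => h1 h M hh) (not_le.2 (hcon N))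
  choose g0 M0 hg0 hM0 using hA
  obtain ⟨s, hs0, hs1⟩ : ∃ s : ℕ → ℕ, s 0 = 0 ∧ ∀ i, s (i + 1) = max (M0 (s i)) (s i + 1) :=
    ⟨fun i => Nat.rec 0 (fun _ r => max (M0 r) (r + 1)) i, rfl, fun _ => rfl⟩
  have hs : StrictMono s := strictMono_nat_of_lt_succ fun i => by
    rw [hs1]
    exact lt_of_lt_of_le (Nat.lt_succ_self _) (le_max_right _ _)
  have hW : ∀ i, ε < bczW s (fun i => g0 (s i)) i (crd x) := by
    intro i
    refine lt_of_lt_of_le (hM0 (s i)) ?_
    unfold AP bczW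
    rw [← Finset.sum_filter_add_sum_filter_not _ (fun n => n ≤ s i)]
    have h1 : ∑ n ∈ (Finset.range (M0 (s i))).filter (fun n => n ≤ s i),
        ‖om (g0 (s i) n) (crd (x - pr (s i) x) n)‖ = 0 := by
      refine Finset.sum_eq_zero fun n hn => ?_
      rw [bcz_crd_sub, if_pos (Finset.mem_filter.1 hn).2, om_zero_right, norm_zero]
    rw [h1, zero_add]
    have h2 : ∑ n ∈ (Finset.range (M0 (s i))).filter (fun n => ¬ n ≤ s i),
        ‖om (g0 (s i) n) (crd (x - pr (s i) x) n)‖ =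
        ∑ n ∈ (Finset.range (M0 (s i))).filter (fun n => ¬ n ≤ s i),
        ‖om (g0 (s i) n) (crd x n)‖ := by
      refine Finset.sum_congr rfl fun n hn => ?_
      rw [bcz_crd_sub, if_neg (Finset.mem_filter.1 hn).2]
    rw [h2]
    refine Finset.sum_le_sum_of_subset_of_nonneg ?_ fun _ _ _ => norm_nonneg _
    intro n hn
    rw [Finset.mem_filter, Finset.mem_range] at hn
    rw [Finset.mem_Ioc, hs1]
    refine ⟨not_le.1 hn.2, le_trans hn.1.le (le_max_left _ _)⟩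
  have hwin := bcz_win s hs (fun i => g0 (s i)) (fun i => hg0 (s i))
  have hx1 : 0 < 1 + ‖x‖ := by positivity
  have hρ : 0 < ε / (1 + ‖x‖) := by positivity
  obtain ⟨c, k, hc, hca⟩ := avg_all hwin hρ 0
  have hsub : c.support ⊆ Finset.range k := fun i hi => Finset.mem_range.2 (hc.hi i hi)
  have hsum : ∑ i ∈ Finset.range k, c i = 1 := by
    rw [← hc.sum]
    exact (Finsupp.sum_of_support_subset c hsub (fun _ r => r) (fun _ _ => rfl)).symm
  have hav : ∀ a, avg c (fun i v => bczW s (fun i => g0 (s i)) i (emb 𝕜 v)) a =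
      ∑ i ∈ Finset.range k, c i * bczW s (fun i => g0 (s i)) i (emb 𝕜 a) := by
    intro a
    unfold avg
    exact Finsupp.sum_of_support_subset c hsub _ (fun _ _ => zero_mul _)
  have hmem : (((ε / (1 + ‖x‖))⁻¹ : ℝ) : 𝕜) • bczh s (fun i => g0 (s i)) c k ∈ GG 𝕜 := by
    intro M a L ha
    rw [AP_comm, AP_smul_right, RCLike.norm_ofReal, abs_of_pos (inv_pos.2 hρ), AP_comm]
    have h1 := (bcz_upper s (fun i => g0 (s i)) c hc.nonneg k M (emb 𝕜 a)).trans
      ((hav a).ge.trans (hca a L ha))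
    calc (ε / (1 + ‖x‖))⁻¹ * AP M (bczh s (fun i => g0 (s i)) c k) (emb 𝕜 a)
        ≤ (ε / (1 + ‖x‖))⁻¹ * (ε / (1 + ‖x‖)) :=
          mul_le_mul_of_nonneg_left h1 (inv_pos.2 hρ).le
      _ = 1 := inv_mul_cancel₀ hρ.ne'
  have h2 := AP_le_norm x hmem (s k + 1)
  rw [AP_comm, AP_smul_right, RCLike.norm_ofReal, abs_of_pos (inv_pos.2 hρ), AP_comm] at h2
  have h3 : ε ≤ AP (s k + 1) (bczh s (fun i => g0 (s i)) c k) (crd x) := by
    refine le_trans ?_ (bcz_lower s hs.monotone (fun i => g0 (s i)) c hc.nonneg k (crd x))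
    calc ε = ∑ i ∈ Finset.range k, c i * ε := by rw [← Finset.sum_mul, hsum, one_mul]
      _ ≤ _ := Finset.sum_le_sum fun i _ => mul_le_mul_of_nonneg_left (hW i).le (hc.nonneg i)
  have h4 : (ε / (1 + ‖x‖))⁻¹ * ε ≤ ‖x‖ :=
    (mul_le_mul_of_nonneg_left h3 (inv_pos.2 hρ).le).trans h2
  have h5 : (ε / (1 + ‖x‖))⁻¹ * ε = 1 + ‖x‖ := by
    field_simp
  rw [h5] at h4
  linarith

theorem bc (x : X 𝕜) : Tendsto (fun N => pr N x) atTop (𝓝 x) := by
  rw [Metric.tendsto_atTop]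
  intro ε hε
  obtain ⟨N, hN⟩ := bc_norm x (half_pos hε)
  refine ⟨N, fun n hn => ?_⟩
  rw [dist_eq_norm, norm_sub_rev]
  exact lt_of_le_of_lt ((norm_sub_pr_anti hn x).trans hN) (half_lt_self hε)

end Pool.Agent.NAP
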