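import Pool.Agent.NAP.Num

/-!
# NAP / Basic: elementary properties of atoms

Scalar functions `th`, closure of atoms under `th`, constructors and case distinction for `Atom`,
size and support of atoms.
-/

namespace Pool.Agent.NAP

/-! ## `th` -/

theorem th_add (θ : ℕ → ℚ) (v w : V) : th θ (v + w) = th θ v + th θ w := by
  ext n <;> simp

theorem th_smul (θ : ℕ → ℚ) (c : ℚ) (v : V) : th θ (c • v) = c • th θ v := by
  ext n <;> simp <;> ring

theorem th_zero (θ : ℕ → ℚ) : th θ 0 = 0 := by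
  ext n <;> simp

theorem th_sum {ι : Type*} (θ : ℕ → ℚ) (s : Finset ι) (f : ι → V) :
    th θ (∑ i ∈ s, f i) = ∑ i ∈ s, th θ (f i) := by
  classical
  induction s using Finset.induction_on with
  | empty => simp [th_zero]
  | insert a s ha ih => rw [Finset.sum_insert ha, Finset.sum_insert ha, th_add, ih]

theorem th_th (θ η : ℕ → ℚ) (v : V) : th θ (th η v) = th (fun n => θ n * η n) v := by
  ext n <;> simp <;> ring

theorem th_one (v : V) : th (fun _ => 1) v = v := by
  ext n <;> simp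

theorem th_neg_one (v : V) : th (fun _ => -1) v = -v := by
  ext n <;> simp

/-- indicator of a set of coordinates -/
noncomputable def indc (p : ℕ → Prop) : ℕ → ℚ := open Classical in fun n => if p n then 1 else 0

theorem abs_indc_le (p : ℕ → Prop) (n : ℕ) : |indc p n| ≤ 1 := by
  unfold indc
  split_ifs <;> simp

theorem th_indc_apply (p : ℕ → Prop) (v : V) (n : ℕ) [Decidable (p n)] :
    th (indc p) v n = if p n then v n else 0 := by
  rw [th_apply]
  unfold indc
  split_ifs <;> simp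

theorem th_indc_eq_self {p : ℕ → Prop} {v : V} (h : ∀ n, v n ≠ 0 → p n) : th (indc p) v = v := by
  classical
  apply Finsupp.ext
  intro n
  rw [th_indc_apply]
  split_ifs with h1
  · rfl
  · by_contra h2
    exact h1 (h n (Ne.symm h2))

theorem th_indc_eq_zero {p : ℕ → Prop} {v : V} (h : ∀ n, v n ≠ 0 → ¬ p n) : th (indc p) v = 0 := by
  classical
  apply Finsupp.ext
  intro n
  rw [th_indc_apply]
  split_ifs with h1
  · by_contra h2
    exact h n h2 h1
  · rfl

theorem Sup.th {v : V} {s t : ℕ} (h : Sup v s t) (θ : ℕ → ℚ) : Sup (th θ v) s t := by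
  intro n hn
  apply h n
  intro h0
  apply hn
  rw [th_apply, h0, smul_zero]

theorem Sup.mono {v : V} {s t s' t' : ℕ} (h : Sup v s t) (hs : s' ≤ s) (ht : t ≤ t') :
    Sup v s' t' := fun n hn => ⟨lt_of_le_of_lt hs (h n hn).1, (h n hn).2.trans ht⟩

theorem Sup.add {v w : V} {s t : ℕ} (h : Sup v s t) (h' : Sup w s t) : Sup (v + w) s t := by
  intro n hn
  by_cases h0 : v n = 0
  · apply h' n
    intro h1
    exact hn (by rw [Finsupp.add_apply, h0, h1, add_zero])
  · exact h n h0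

theorem Sup.smul {v : V} {s t : ℕ} (h : Sup v s t) (c : ℚ) : Sup (c • v) s t := by
  intro n hn
  apply h n
  intro h1
  exact hn (by rw [Finsupp.smul_apply, h1, smul_zero])

theorem Sup.sum {ι : Type*} {S : Finset ι} {f : ι → V} {s t : ℕ} (h : ∀ i ∈ S, Sup (f i) s t) :
    Sup (∑ i ∈ S, f i) s t := by
  classical
  induction S using Finset.induction_on with
  | empty => intro n hn; simp at hn
  | insert a S ha ih =>
    rw [Finset.sum_insert ha]
    exact (h a (Finset.mem_insert_self a S)).add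
      (ih fun i hi => h i (Finset.mem_insert_of_mem hi))

/-- every vector is supported in a window -/
theorem exists_Sup {N : ℕ} {v : V} (h : Tl N v) : ∃ T, ∀ t, T ≤ t → Sup v N t := by
  refine ⟨v.support.sup id, fun t ht n hn => ⟨?_, ?_⟩⟩
  · by_contra h1
    exact hn (h n (not_lt.1 h1))
  · exact (Finset.le_sup (f := id) (Finsupp.mem_support_iff.2 hn)).trans ht

theorem Tl.mono {N N' : ℕ} {v : V} (h : Tl N v) (h' : N' ≤ N) : Tl N' v :=
  fun n hn => h n (hn.trans h')

theorem Tl.th {N : ℕ} {v : V} (h : Tl N v) (θ : ℕ → ℚ) : Tl N (th θ v) := by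
  intro n hn
  rw [th_apply, h n hn, smul_zero]

theorem Tl.add {N : ℕ} {v w : V} (h : Tl N v) (h' : Tl N w) : Tl N (v + w) := by
  intro n hn
  rw [Finsupp.add_apply, h n hn, h' n hn, add_zero]

theorem Tl.smul {N : ℕ} {v : V} (h : Tl N v) (c : ℚ) : Tl N (c • v) := by
  intro n hn
  rw [Finsupp.smul_apply, h n hn, smul_zero]

theorem Sup.tl {v : V} {s t : ℕ} (h : Sup v s t) : Tl s v := by
  intro n hn
  by_contra h1
  exact absurd (h n h1).1 (not_lt.2 hn)

/-! ## closure of atoms under `th` -/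

theorem At_succ {d : ℕ} {v : V} {L : Lab} (h : At d v L) : At (d + 1) v L := Or.inl h

theorem At_mono {d d' : ℕ} (hd : d ≤ d') {v : V} {L : Lab} (h : At d v L) : At d' v L := by
  induction hd with
  | refl => exact h
  | step _ ih => exact At_succ ih

theorem c1_th_le {θ : ℕ → ℚ} (hθ : ∀ n, |θ n| ≤ 1) (v : V) (n : ℕ) : c1 (th θ v) n ≤ c1 v n := by
  unfold c1
  rw [th_apply, Prod.smul_fst, Prod.smul_snd, smul_eq_mul, smul_eq_mul, abs_mul, abs_mul]
  have h1 := mul_le_of_le_one_left (abs_nonneg (v n).1) (hθ n)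
  have h2 := mul_le_of_le_one_left (abs_nonneg (v n).2) (hθ n)
  exact add_le_add h1 h2

theorem At_th {d : ℕ} {v : V} {L : Lab} (h : At d v L) {θ : ℕ → ℚ} (hθ : ∀ n, |θ n| ≤ 1) :
    At d (th θ v) L := by
  induction d generalizing v L with
  | zero =>
    obtain ⟨n, hL, h1, h2⟩ := h
    refine ⟨n, hL, fun k hk => ?_, (c1_th_le hθ v n).trans h2⟩
    rw [th_apply, h1 k hk, smul_zero]
  | succ d ih =>
    rcases h with h | ⟨j, hL, hj, k, a, b, La, Lb, t, h⟩ | ⟨j, hL, hj, k, z, i, t, η, h⟩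
    · exact Or.inl (ih h)
    · refine Or.inr (Or.inl ⟨j, hL, hj, k, fun r => th θ (a r), fun r => th θ (b r), La, Lb, t,
        h.hk, h.ht0, h.ht, fun r hr => ih (h.ha r hr), fun r hr => ih (h.hb r hr),
        fun r hr => (h.sa r hr).th θ, fun r hr => (h.sb r hr).th θ, h.la, h.lb, ?_⟩)
      rw [h.hv, th_smul, th_sum]
      congr 1
      refine Finset.sum_congr rfl fun r _ => ?_
      rw [th_smul, th_add]
    · refine Or.inr (Or.inr ⟨j, hL, hj, k, z, i, t, fun n => θ n * η n,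
        h.hk, h.ht0, h.ht, fun n => ?_, h.hz, h.sz, h.li, h.sig, ?_⟩)
      · rw [abs_mul]
        exact mul_le_one₀ (hθ n) (abs_nonneg _) (h.hθ n)
      · rw [h.hv, th_th]

theorem Atom.th {v : V} {L : Lab} (h : Atom v L) {θ : ℕ → ℚ} (hθ : ∀ n, |θ n| ≤ 1) :
    Atom (th θ v) L := by
  obtain ⟨d, h⟩ := h
  exact ⟨d, At_th h hθ⟩

theorem Atom.neg {v : V} {L : Lab} (h : Atom v L) : Atom (-v) L := by
  rw [← th_neg_one]
  exact h.th (fun n => by simp)

theorem atom_leaf {v : V} {n : ℕ} (h : ∀ k, k ≠ n → v k = 0) (h' : c1 v n ≤ 1) :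
    Atom v (Sum.inr n) := ⟨0, n, rfl, h, h'⟩

theorem atom_zero (n : ℕ) : Atom 0 (Sum.inr n) :=
  atom_leaf (fun k _ => rfl) (by simp [c1])

theorem atom_plain {j k : ℕ} (hj : Even j) {a b : ℕ → V} {La Lb : ℕ → Lab} {t : ℕ → ℕ} {v : V}
    (h : PlainS Atom j k a b La Lb t v) : Atom v (Sum.inl j) := by
  have key : ∀ K ≤ k, ∃ d, ∀ r < K, At d (a r) (La r) ∧ At d (b r) (Lb r) := by
    intro K
    induction K with
    | zero => exact fun _ => ⟨0, fun r hr => absurd hr (Nat.not_lt_zero r)⟩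
    | succ K ih =>
      intro hK
      obtain ⟨d, hd⟩ := ih (by omega)
      obtain ⟨d1, h1⟩ := h.ha K (by omega)
      obtain ⟨d2, h2⟩ := h.hb K (by omega)
      refine ⟨max d (max d1 d2), fun r hr => ?_⟩
      rcases Nat.lt_succ_iff_lt_or_eq.1 hr with h3 | h3
      · exact ⟨At_mono (le_max_left _ _) (hd r h3).1, At_mono (le_max_left _ _) (hd r h3).2⟩
      · subst h3
        exact ⟨At_mono ((le_max_left _ _).trans (le_max_right _ _)) h1,
          At_mono ((le_max_right _ _).trans (le_max_right _ _)) h2⟩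
  obtain ⟨d, hd⟩ := key k le_rfl
  refine ⟨d + 1, Or.inr (Or.inl ⟨j, rfl, hj, k, a, b, La, Lb, t, h.hk, h.ht0, h.ht,
    fun r hr => (hd r hr).1, fun r hr => (hd r hr).2, h.sa, h.sb, h.la, h.lb, h.hv⟩)⟩

theorem atom_special {j k : ℕ} (hj : Odd j) {z : ℕ → V} {i : ℕ → ℕ} {t : ℕ → ℕ} {θ : ℕ → ℚ} {v : V}
    (h : SpecS Atom j k z i t θ v) : Atom v (Sum.inl j) := by
  have key : ∀ K ≤ k, ∃ d, ∀ r < K, At d (z r) (Sum.inl (i r)) := by
    intro K
    induction K with
    | zero => exact fun _ => ⟨0, fun r hr => absurd hr (Nat.not_lt_zero r)⟩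
    | succ K ih =>
      intro hK
      obtain ⟨d, hd⟩ := ih (by omega)
      obtain ⟨d1, h1⟩ := h.hz K (by omega)
      refine ⟨max d d1, fun r hr => ?_⟩
      rcases Nat.lt_succ_iff_lt_or_eq.1 hr with h3 | h3
      · exact At_mono (le_max_left _ _) (hd r h3)
      · subst h3
        exact At_mono (le_max_right _ _) h1
  obtain ⟨d, hd⟩ := key k le_rfl
  exact ⟨d + 1, Or.inr (Or.inr ⟨j, rfl, hj, k, z, i, t, θ, h.hk, h.ht0, h.ht, h.hθ, hd, h.sz,
    h.li, h.sig, h.hv⟩)⟩

/-- case distinction -/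
theorem Atom.cases {v : V} {L : Lab} (h : Atom v L) : IsLeaf v L ∨
    (∃ j, L = Sum.inl j ∧ Even j ∧ ∃ k a b La Lb t, PlainS Atom j k a b La Lb t v) ∨
    (∃ j, L = Sum.inl j ∧ Odd j ∧ ∃ k z i t θ, SpecS Atom j k z i t θ v) := by
  obtain ⟨d, h⟩ := h
  induction d with
  | zero => exact Or.inl h
  | succ d ih =>
    rcases h with h | ⟨j, hL, hj, k, a, b, La, Lb, t, h⟩ | ⟨j, hL, hj, k, z, i, t, η, h⟩
    · exact ih h
    · exact Or.inr (Or.inl ⟨j, hL, hj, k, a, b, La, Lb, t, h.hk, h.ht0, h.ht,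
        fun r hr => ⟨d, h.ha r hr⟩, fun r hr => ⟨d, h.hb r hr⟩, h.sa, h.sb, h.la, h.lb, h.hv⟩)
    · exact Or.inr (Or.inr ⟨j, hL, hj, k, z, i, t, η, h.hk, h.ht0, h.ht, h.hθ,
        fun r hr => ⟨d, h.hz r hr⟩, h.sz, h.li, h.sig, h.hv⟩)

/-! ## size and support -/

theorem c1_nonneg (v : V) (n : ℕ) : 0 ≤ c1 v n := add_nonneg (abs_nonneg _) (abs_nonneg _)

theorem c1_add_le (v w : V) (n : ℕ) : c1 (v + w) n ≤ c1 v n + c1 w n := by
  unfold c1
  rw [Finsupp.add_apply, Prod.fst_add, Prod.snd_add]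
  have h1 := abs_add_le (v n).1 (w n).1
  have h2 := abs_add_le (v n).2 (w n).2
  linarith

theorem c1_smul (c : ℚ) (v : V) (n : ℕ) : c1 (c • v) n = |c| * c1 v n := by
  unfold c1
  rw [Finsupp.smul_apply, Prod.smul_fst, Prod.smul_snd, smul_eq_mul, smul_eq_mul, abs_mul, abs_mul]
  ring

theorem c1_eq_zero {v : V} {n : ℕ} (h : v n = 0) : c1 v n = 0 := by
  unfold c1
  rw [h]
  simp

/-- in a sum over windows only one term is not zero at a given coordinate -/
theorem c1_sum_window {k : ℕ} {u : ℕ → V} {t : ℕ → ℕ} (ht : Monotone t)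
    (hu : ∀ r < k, Sup (u r) (t r) (t (r + 1))) {C : ℚ} (hC : 0 ≤ C) {n : ℕ}
    (h : ∀ r < k, c1 (u r) n ≤ C) : c1 (∑ r ∈ Finset.range k, u r) n ≤ C := by
  have key : (∑ r ∈ Finset.range k, u r) n = 0 ∨
      ∃ r < k, (∑ r ∈ Finset.range k, u r) n = u r n := by
    rw [Finsupp.finsetSum_apply]
    by_cases h1 : ∃ r < k, u r n ≠ 0
    · obtain ⟨r, hr, hrn⟩ := h1
      refine Or.inr ⟨r, hr, ?_⟩
      refine Finset.sum_eq_single_of_mem r (Finset.mem_range.2 hr) fun s hs hsr => ?_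
      by_contra h2
      have h3 := hu r hr n hrn
      have h4 := hu s (Finset.mem_range.1 hs) n h2
      rcases lt_or_gt_of_ne hsr with h5 | h5
      · have := ht (show s + 1 ≤ r by omega)
        omega
      · have := ht (show r + 1 ≤ s by omega)
        omega
    · push Not at h1
      exact Or.inl (Finset.sum_eq_zero fun r hr => h1 r (Finset.mem_range.1 hr))
  rcases key with h1 | ⟨r, hr, h1⟩
  · rw [c1_eq_zero h1]
    exact hC
  · unfold c1
    rw [h1]
    exact h r hr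

theorem c1_half_le {v w : V} {n : ℕ} {C : ℚ} (h : c1 v n ≤ C) (h' : c1 w n ≤ C) :
    c1 ((1 / 2 : ℚ) • (v + w)) n ≤ C := by
  rw [c1_smul]
  have h1 := c1_add_le v w n
  rw [abs_of_pos (by norm_num)]
  linarith

theorem Sup.half {v w : V} {s t : ℕ} (h : Sup v s t) (h' : Sup w s t) :
    Sup ((1 / 2 : ℚ) • (v + w)) s t := (h.add h').smul _

theorem At_c1 {d : ℕ} {v : V} {L : Lab} (h : At d v L) (n : ℕ) :
    c1 v n ≤ 1 ∧ ∀ j, L = Sum.inl j → c1 v n ≤ 1 / (mm j : ℚ) := by
  induction d generalizing v L with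
  | zero =>
    obtain ⟨m, hL, h1, h2⟩ := h
    constructor
    · by_cases hm : n = m
      · rw [hm]; exact h2
      · rw [c1_eq_zero (h1 n hm)]; norm_num
    · intro j hj
      rw [hL] at hj
      exact absurd hj (by simp)
  | succ d ih =>
    have hm : ∀ j, (1 / (mm j : ℚ)) ≤ 1 := by
      intro j
      rw [div_le_one (by exact_mod_cast mm_pos j)]
      exact_mod_cast (mm_pos j)
    rcases h with h | ⟨j, hL, hj, k, a, b, La, Lb, t, h⟩ | ⟨j, hL, hj, k, z, i, t, η, h⟩
    · exact ih h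
    · have key : c1 v n ≤ 1 / (mm j : ℚ) := by
        rw [h.hv, c1_smul, abs_of_pos (by have := mm_pos j; positivity)]
        have h1 : c1 (∑ r ∈ Finset.range k, (1 / 2 : ℚ) • (a r + b r)) n ≤ 1 :=
          c1_sum_window h.ht (fun r hr => (h.sa r hr).half (h.sb r hr)) zero_le_one
            fun r hr => c1_half_le (ih (h.ha r hr)).1 (ih (h.hb r hr)).1
        have := mm_pos j
        exact mul_le_of_le_one_right (by positivity) h1
      refine ⟨key.trans (hm j), fun j' hj' => ?_⟩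
      rw [hL] at hj'
      rw [← Sum.inl.inj hj']
      exact key
    · have key : c1 v n ≤ 1 / (mm j : ℚ) := by
        rw [h.hv]
        refine (c1_th_le h.hθ _ n).trans ?_
        rw [c1_smul, abs_of_pos (by have := mm_pos j; positivity)]
        have h1 : c1 (∑ r ∈ Finset.range k, z r) n ≤ 1 :=
          c1_sum_window h.ht h.sz zero_le_one fun r hr => (ih (h.hz r hr)).1
        have := mm_pos j
        exact mul_le_of_le_one_right (by positivity) h1
      refine ⟨key.trans (hm j), fun j' hj' => ?_⟩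
      rw [hL] at hj'
      rw [← Sum.inl.inj hj']
      exact key

theorem Atom.c1_le {v : V} {L : Lab} (h : Atom v L) (n : ℕ) : c1 v n ≤ 1 := by
  obtain ⟨d, h⟩ := h
  exact (At_c1 h n).1

theorem Atom.c1_le_inv {v : V} {j : ℕ} (h : Atom v (Sum.inl j)) (n : ℕ) :
    c1 v n ≤ 1 / (mm j : ℚ) := by
  obtain ⟨d, h⟩ := h
  exact (At_c1 h n).2 j rfl

/-- plain and special nodes in a common form -/
theorem Atom.node {v : V} {j : ℕ} (h : Atom v (Sum.inl j)) :
    ∃ k a b La Lb t, PlainS Atom j k a b La Lb t v := by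
  rcases h.cases with ⟨n, hL, -, -⟩ | ⟨j', hL, -, k, a, b, La, Lb, t, h⟩ |
    ⟨j', hL, -, k, z, i, t, θ, h⟩
  · exact absurd hL (by simp)
  · obtain rfl := Sum.inl.inj hL
    exact ⟨k, a, b, La, Lb, t, h⟩
  · obtain rfl := Sum.inl.inj hL
    refine ⟨k, fun r => NAP.th θ (z r), fun r => NAP.th θ (z r), fun r => Sum.inl (i r),
      fun r => Sum.inl (i r), t, h.hk, h.ht0, h.ht, fun r hr => (h.hz r hr).th h.hθ,
      fun r hr => (h.hz r hr).th h.hθ, fun r hr => (h.sz r hr).th θ, fun r hr => (h.sz r hr).th θ,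
      h.li, h.li, ?_⟩
    rw [h.hv, th_smul, th_sum]
    congr 1
    refine Finset.sum_congr rfl fun r _ => ?_
    rw [← two_smul ℚ, smul_smul]
    norm_num

theorem Atom.sup {v : V} {L : Lab} (h : Atom v L) {n : ℕ} (hn : v n ≠ 0) :
    (∃ j, L = Sum.inl j ∧ j < n) ∨ L = Sum.inr n := by
  rcases L with j | m
  · left
    refine ⟨j, rfl, ?_⟩
    obtain ⟨k, a, b, La, Lb, t, h⟩ := h.node
    have h1 : Sup v j (t k) := by
      rw [h.hv]
      refine (Sup.sum fun r hr => ?_).smul _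
      have hr' := Finset.mem_range.1 hr
      exact ((h.sa r hr').half (h.sb r hr')).mono (h.ht0.trans (h.ht (Nat.zero_le r)))
        (h.ht (show r + 1 ≤ k by omega))
    exact (h1 n hn).1
  · right
    rcases h.cases with ⟨m', hL, h1, -⟩ | ⟨j', hL, -⟩ | ⟨j', hL, -⟩
    · obtain rfl := Sum.inr.inj hL
      by_contra h2
      exact hn (h1 n fun h3 => h2 (by rw [h3]))
    · exact absurd hL (by simp)
    · exact absurd hL (by simp)

/-- an atom whose coordinates up to its leaf label vanish is zero -/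
theorem atom_inr_eq_zero {v : V} {m N : ℕ} (h : Atom v (Sum.inr m)) (hv : Tl N v) (hm : m ≤ N) :
    v = 0 := by
  apply Finsupp.ext
  intro n
  by_contra hn
  rcases h.sup hn with ⟨j, hj, -⟩ | h1
  · exact absurd hj (by simp)
  · obtain rfl := Sum.inr.inj h1
    exact hn (hv m hm)

theorem TL.ta {N : ℕ} {v : V} (h : TL N v) : TA N v := ⟨h.1, h.2.choose, h.2.choose_spec.1⟩

theorem TA.mono {N N' : ℕ} {v : V} (h : TA N v) (h' : N' ≤ N) : TA N' v := ⟨h.1.mono h', h.2⟩

theorem TL.mono {N N' : ℕ} {v : V} (h : TL N v) (h' : N' ≤ N) : TL N' v := by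
  obtain ⟨h1, L, h2, h3⟩ := h
  exact ⟨h1.mono h', L, h2, lt_of_le_of_lt h' h3⟩

theorem TL.neg {N : ℕ} {v : V} (h : TL N v) : TL N (-v) := by
  obtain ⟨h1, L, h2, h3⟩ := h
  refine ⟨fun n hn => ?_, L, h2.neg, h3⟩
  rw [Finsupp.neg_apply, h1 n hn, neg_zero]

end Pool.Agent.NAP
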