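import Pool.Agent.NAP.SpaceC

/-!
# NAP / Compl: completeness

* `X 𝕜` is complete: a Cauchy sequence `x k` is Cauchy in every coordinate (`coord_le`), let `y n` be the
  limit. For `h ∈ GG` and `M`: `AP M h (crd (x k) - y) = lim_l AP M h (crd (x k) - crd (x l)) ≤ ε` for
  `k ≥ k0` (a finite sum of continuous functions of the coordinates; `crd (x k) - crd (x l) = crd (x k - x l)`),
  so `y` belongs to `XS` (triangle inequality) and `‖x k - y‖ ≤ ε` (`norm_le_of`).
  Use `Metric.complete_of_cauchySeq_tendsto`.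
-/

namespace Pool.Agent.NAP

open Filter Topology

variable {𝕜 : Type} [RCLike 𝕜]

private theorem compl_coord (x y : X 𝕜) (n : ℕ) : dist (crd x n) (crd y n) ≤ dist x y := by
  rw [dist_eq_norm, dist_eq_norm]
  have h := coord_le (x - y) n
  rw [map_sub] at h
  rw [Prod.norm_def]
  exact max_le h.1 h.2

private theorem compl_AP {M : ℕ} {h : Sq 𝕜} {z : ℕ → Sq 𝕜} {y : Sq 𝕜}
    (hz : ∀ n, Tendsto (fun l => z l n) atTop (𝓝 (y n))) :
    Tendsto (fun l => AP M h (z l)) atTop (𝓝 (AP M h y)) := by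
  unfold AP
  refine tendsto_finsetSum _ fun n _ => ?_
  have hc : Continuous (fun w : 𝕜 × 𝕜 => ‖om (h n) w‖) := by
    unfold om
    fun_prop
  exact (hc.tendsto (y n)).comp (hz n)

instance : CompleteSpace (X 𝕜) := by
  refine Metric.complete_of_cauchySeq_tendsto fun u hu => ?_
  have h1 : ∀ n, ∃ w, Tendsto (fun k => crd (u k) n) atTop (𝓝 w) := by
    intro n
    refine cauchySeq_tendsto_of_complete ?_
    rw [Metric.cauchySeq_iff]
    intro ε hε
    obtain ⟨N, hN⟩ := Metric.cauchySeq_iff.1 hu ε hε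
    exact ⟨N, fun k hk l hl => lt_of_le_of_lt (compl_coord _ _ n) (hN k hk l hl)⟩
  choose y hy using h1
  have h2 : ∀ ε : ℝ, 0 < ε → ∃ N, ∀ k ≥ N, ∀ h ∈ GG 𝕜, ∀ M, AP M h (crd (u k) - y) ≤ ε := by
    intro ε hε
    obtain ⟨N, hN⟩ := Metric.cauchySeq_iff.1 hu ε hε
    refine ⟨N, fun k hk h hh M => ?_⟩
    have ht : Tendsto (fun l => AP M h (crd (u k) - crd (u l))) atTop
        (𝓝 (AP M h (crd (u k) - y))) := by
      refine compl_AP fun n => ?_
      exact tendsto_const_nhds.sub (hy n)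
    refine le_of_tendsto ht ?_
    filter_upwards [eventually_ge_atTop N] with l hl
    have h3 := AP_le_norm (u k - u l) hh M
    rw [map_sub] at h3
    have h4 := hN k hk l hl
    rw [dist_eq_norm] at h4
    exact h3.trans h4.le
  have hmem : ∃ C, ∀ h ∈ GG 𝕜, ∀ M, AP M h y ≤ C := by
    obtain ⟨N, hN⟩ := h2 1 one_pos
    refine ⟨‖u N‖ + 1, fun h hh M => ?_⟩
    have h3 : y = crd (u N) + (-1 : 𝕜) • (crd (u N) - y) := by
      rw [neg_smul, one_smul]
      abel
    rw [h3]
    refine (AP_add_right M h _ _).trans (add_le_add (AP_le_norm (u N) hh M) ?_)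
    rw [AP_smul_right, norm_neg, norm_one, one_mul]
    exact hN N le_rfl h hh M
  refine ⟨mkX y hmem, ?_⟩
  rw [Metric.tendsto_atTop]
  intro ε hε
  obtain ⟨N, hN⟩ := h2 (ε / 2) (half_pos hε)
  refine ⟨N, fun k hk => ?_⟩
  rw [dist_eq_norm]
  refine lt_of_le_of_lt (norm_le_of (C := ε / 2) fun h hh M => ?_) (half_lt_self hε)
  rw [map_sub, crd_mkX]
  exact hN k hk h hh M

end Pool.Agent.NAP
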