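import Mathlib

/-!
# NAP / Defs: atoms (MP_6aa5c2_an, norm attaining polynomials)

Project: a Banach space `X` (real and complex) on which every continuous 2-homogeneous polynomial
attains its norm, while some bounded bilinear form on `X` does not.

`V` is the set of finitely supported sequences of rational vectors of dimension two. Atoms are elements
of `V` with a label:

* leaves: supported at one coordinate `n`, label `inr n`;
* plain nodes of even index `j`, label `inl j`: `(1/m_j)` times the sum of at most `n_j = m_j^2/4` half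
  sums of atoms; there are windows `(t_r, t_(r+1)]`, `t_0 ≥ j`, such that the supports and the labels of
  the two atoms of the `r`-th half sum lie in the `r`-th window;
* special nodes of odd index `j`, label `inl j`: `(1/m_j)` times the sum of at most `n_j = m_j^3` plain
  nodes `z_r`, windows as before, such that the index of `z_r` belongs to `Sig [z_0, ..., z_(r-1)]`
  (the sets `Sig h` are infinite sets of even numbers, disjoint for different lists `h`); the result may
  be multiplied by a function `θ` with values in `[-1, 1]`.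
-/

namespace Pool.Agent.NAP

/-- finitely supported sequences of rational vectors of dimension two -/
abbrev V : Type := ℕ →₀ ℚ × ℚ

/-- labels: `Sum.inl j` for nodes of index `j`, `Sum.inr n` for leaves at the coordinate `n` -/
abbrev Lab : Type := ℕ ⊕ ℕ

/-- the number in a label -/
def lv : Lab → ℕ := Sum.elim id id

@[simp] theorem lv_inl (j : ℕ) : lv (Sum.inl j) = j := rfl

@[simp] theorem lv_inr (n : ℕ) : lv (Sum.inr n) = n := rfl

/-- the numbers `m_j` -/
def mm (j : ℕ) : ℕ := 2 ^ 8 ^ j

/-- the numbers `n_j` -/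
def nn (j : ℕ) : ℕ := if Even j then mm j ^ 2 / 4 else mm j ^ 3

theorem exists_code : ∃ c : List V → ℕ, Function.Injective c := by
  have h : Countable (List V) := inferInstance
  exact exists_injective_nat (List V)

/-- injective numbering of finite lists -/
noncomputable def code : List V → ℕ := Classical.choose exists_code

theorem code_injective : Function.Injective code := Classical.choose_spec exists_code

/-- admissible indices after the history `h` -/
def Sig (h : List V) : Set ℕ := {i | ∃ q, i = 2 * Nat.pair (code h) q}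

/-- history: the list `z 0, ..., z (r - 1)` -/
def hist (z : ℕ → V) (r : ℕ) : List V := (List.range r).map z

/-- multiply the coordinates by the scalars `θ n` -/
noncomputable def th (θ : ℕ → ℚ) (v : V) : V :=
  Finsupp.onFinset v.support (fun n => θ n • v n) (by
    intro n h
    rw [Finsupp.mem_support_iff]
    intro h0
    exact h (by rw [h0, smul_zero]))

@[simp] theorem th_apply (θ : ℕ → ℚ) (v : V) (n : ℕ) : th θ v n = θ n • v n := rfl

/-- `v` is supported in the window `(s, t]` -/
def Sup (v : V) (s t : ℕ) : Prop := ∀ n, v n ≠ 0 → s < n ∧ n ≤ t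

/-- the label lies in the window `(s, t]` -/
def LIn (L : Lab) (s t : ℕ) : Prop := s < lv L ∧ lv L ≤ t

/-- size of a coordinate -/
def c1 (v : V) (n : ℕ) : ℚ := |(v n).1| + |(v n).2|

/-- leaves -/
def IsLeaf (v : V) (L : Lab) : Prop :=
  ∃ n, L = Sum.inr n ∧ (∀ k, k ≠ n → v k = 0) ∧ c1 v n ≤ 1

/-- plain nodes -/
structure PlainS (Q : V → Lab → Prop) (j k : ℕ) (a b : ℕ → V) (La Lb : ℕ → Lab) (t : ℕ → ℕ)
    (v : V) : Prop where
  hk : k ≤ nn j
  ht0 : j ≤ t 0
  ht : Monotone t
  ha : ∀ r < k, Q (a r) (La r)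
  hb : ∀ r < k, Q (b r) (Lb r)
  sa : ∀ r < k, Sup (a r) (t r) (t (r + 1))
  sb : ∀ r < k, Sup (b r) (t r) (t (r + 1))
  la : ∀ r < k, LIn (La r) (t r) (t (r + 1))
  lb : ∀ r < k, LIn (Lb r) (t r) (t (r + 1))
  hv : v = (1 / (mm j : ℚ)) • ∑ r ∈ Finset.range k, (1 / 2 : ℚ) • (a r + b r)

/-- special nodes -/
structure SpecS (Q : V → Lab → Prop) (j k : ℕ) (z : ℕ → V) (i : ℕ → ℕ) (t : ℕ → ℕ) (θ : ℕ → ℚ)
    (v : V) : Prop where
  hk : k ≤ nn j
  ht0 : j ≤ t 0
  ht : Monotone t
  hθ : ∀ n, |θ n| ≤ 1
  hz : ∀ r < k, Q (z r) (Sum.inl (i r))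
  sz : ∀ r < k, Sup (z r) (t r) (t (r + 1))
  li : ∀ r < k, LIn (Sum.inl (i r)) (t r) (t (r + 1))
  sig : ∀ r < k, i r ∈ Sig (hist z r)
  hv : v = th θ ((1 / (mm j : ℚ)) • ∑ r ∈ Finset.range k, z r)

/-- atoms of depth at most `d` -/
def At : ℕ → V → Lab → Prop
  | 0, v, L => IsLeaf v L
  | d + 1, v, L => At d v L ∨
      (∃ j, L = Sum.inl j ∧ Even j ∧ ∃ k a b La Lb t, PlainS (At d) j k a b La Lb t v) ∨
      (∃ j, L = Sum.inl j ∧ Odd j ∧ ∃ k z i t θ, SpecS (At d) j k z i t θ v)

/-- atoms -/
def Atom (v : V) (L : Lab) : Prop := ∃ d, At d v L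

/-- the coordinates up to `N` vanish -/
def Tl (N : ℕ) (v : V) : Prop := ∀ n ≤ N, v n = 0

/-- `v` is an atom and its coordinates up to `N` vanish -/
def TA (N : ℕ) (v : V) : Prop := Tl N v ∧ ∃ L, Atom v L

/-- `v` is an atom with a label larger than `N` and its coordinates up to `N` vanish -/
def TL (N : ℕ) (v : V) : Prop := Tl N v ∧ ∃ L, Atom v L ∧ N < lv L

/-- symplectic pairing of the first `M` coordinates -/
def pa (M : ℕ) (v w : V) : ℚ := ∑ n ∈ Finset.range M, ((v n).1 * (w n).2 - (v n).2 * (w n).1)

end Pool.Agent.NAP
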