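import Pool.Agent.NAP.PairB

/-!
# NAP / PairP: pairing of two plain nodes of the same index

`PrQ Q Q'` says: a vector `v` with `Q v L` and a vector `w` with `Q' w L'` satisfy `|pa M v w| ≤ 1`, and
`|pa M v w| ≤ max (sm L) (sm L')` if `L ≠ L'`.

`pair_plain`: both are plain nodes with the same even index `j`. Let `W_r = {La r, Lb r}`,
`W'_s = {La' s, Lb' s}`, `f r s = pa M ((1/2) (a r + b r)) ((1/2) (a' s + b' s))`. All `|f r s| ≤ 1`
(`pa_half_le`, `pa_half_le'`). For `r`, `s` with `W_r ∩ W'_s = ∅` all four pairings are at most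
`max (sm _) (sm _) ≤ 2 / m_(j+1)` (`sm_le`: all labels are larger than `j`), so `|f r s| ≤ 2 / m_(j+1)`.
Each of the two labels in `W_r` lies in at most one `W'_s` (disjoint windows of the second node), so at most
`2 k ≤ 2 n_j` pairs `(r, s)` are bad (the set of bad pairs is the union of
`{(r, s) : La r ∈ W'_s}` and `{(r, s) : Lb r ∈ W'_s}`, on both the first projection is injective), and
`2 n_j + 1 = m_j^2 / 2 + 1 ≤ m_j^2` (`nn_even`: `4 n_j = m_j^2`, `m_j ≥ 2`). Use `pa_smul_left`,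
`pa_smul_right`, `pa_sum_left`, `pa_sum_right`, `pair_sum_two` with `c = 2 n_j`.
-/

namespace Pool.Agent.NAP

/-- for every `r` at most one `s` has the label `f r` in its window -/
private theorem card_label {k k' : ℕ} {f : ℕ → Lab} {La' Lb' : ℕ → Lab} {t' : ℕ → ℕ}
    (ht : Monotone t') (hla : ∀ r < k', LIn (La' r) (t' r) (t' (r + 1)))
    (hlb : ∀ r < k', LIn (Lb' r) (t' r) (t' (r + 1))) :
    ((Finset.range k ×ˢ Finset.range k').filter
      (fun x => f x.1 = La' x.2 ∨ f x.1 = Lb' x.2)).card ≤ k := by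
  have h1 : ∀ x ∈ (Finset.range k ×ˢ Finset.range k').filter
      (fun x => f x.1 = La' x.2 ∨ f x.1 = Lb' x.2), LIn (f x.1) (t' x.2) (t' (x.2 + 1)) := by
    intro x hx
    rw [Finset.mem_filter, Finset.mem_product, Finset.mem_range, Finset.mem_range] at hx
    rcases hx.2 with h | h
    · rw [h]; exact hla _ hx.1.2
    · rw [h]; exact hlb _ hx.1.2
  refine (Finset.card_le_card_of_injOn (t := Finset.range k) Prod.fst ?_ ?_).trans
    (Finset.card_range k).le
  · intro x hx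
    have hx' := Finset.mem_coe.1 hx
    rw [Finset.mem_filter, Finset.mem_product] at hx'
    exact Finset.mem_coe.2 hx'.1.1
  · intro x hx y hy hxy
    have hx' := h1 x (Finset.mem_coe.1 hx)
    have hy' := h1 y (Finset.mem_coe.1 hy)
    rw [hxy] at hx'
    refine Prod.ext hxy ?_
    by_contra hne
    rcases lt_or_gt_of_ne hne with h2 | h2
    · have h3 := ht (show x.2 + 1 ≤ y.2 by omega)
      unfold LIn at hx' hy'
      omega
    · have h3 := ht (show y.2 + 1 ≤ x.2 by omega)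
      unfold LIn at hx' hy'
      omega

theorem pair_plain {Q Q' : V → Lab → Prop} (h : PrQ Q Q') {j k k' : ℕ} (hj : Even j)
    {a b a' b' : ℕ → V} {La Lb La' Lb' : ℕ → Lab} {t t' : ℕ → ℕ} {v w : V}
    (hv : PlainS Q j k a b La Lb t v) (hw : PlainS Q' j k' a' b' La' Lb' t' w) (M : ℕ) :
    |pa M v w| ≤ 1 := by
  classical
  have ev : pa M v w = (1 / (mm j : ℚ)) * ((1 / (mm j : ℚ)) *
      ∑ r ∈ Finset.range k, ∑ s ∈ Finset.range k',
        pa M ((1 / 2 : ℚ) • (a r + b r)) ((1 / 2 : ℚ) • (a' s + b' s))) := by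
    rw [hv.hv, hw.hv, pa_smul_left, pa_smul_right, pa_sum_left]
    congr 2
    exact Finset.sum_congr rfl fun r _ => pa_sum_right M _ _ _
  rw [ev]
  have hsm : ∀ r < k, sm (La r) ≤ 2 / (mm (j + 1) : ℚ) ∧ sm (Lb r) ≤ 2 / (mm (j + 1) : ℚ) :=
    fun r hr => ⟨sm_le (lt_of_le_of_lt (hv.ht0.trans (hv.ht (Nat.zero_le r))) (hv.la r hr).1),
      sm_le (lt_of_le_of_lt (hv.ht0.trans (hv.ht (Nat.zero_le r))) (hv.lb r hr).1)⟩
  have hsm' : ∀ r < k', sm (La' r) ≤ 2 / (mm (j + 1) : ℚ) ∧ sm (Lb' r) ≤ 2 / (mm (j + 1) : ℚ) :=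
    fun r hr => ⟨sm_le (lt_of_le_of_lt (hw.ht0.trans (hw.ht (Nat.zero_le r))) (hw.la r hr).1),
      sm_le (lt_of_le_of_lt (hw.ht0.trans (hw.ht (Nat.zero_le r))) (hw.lb r hr).1)⟩
  refine pair_sum_two (c := 2 * nn j) hv.hk hw.hk (fun r hr s hs => ?_) ?_ ?_
  · exact pa_half_le
      (pa_half_le' (h _ _ _ _ (hv.ha r hr) (hw.ha s hs) M).1
        (h _ _ _ _ (hv.ha r hr) (hw.hb s hs) M).1)
      (pa_half_le' (h _ _ _ _ (hv.hb r hr) (hw.ha s hs) M).1
        (h _ _ _ _ (hv.hb r hr) (hw.hb s hs) M).1)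
  · have hsub : (Finset.range k ×ˢ Finset.range k').filter
        (fun x => ¬ |pa M ((1 / 2 : ℚ) • (a x.1 + b x.1)) ((1 / 2 : ℚ) • (a' x.2 + b' x.2))| ≤
          2 / (mm (j + 1) : ℚ)) ⊆
        (Finset.range k ×ˢ Finset.range k').filter
          (fun x => La x.1 = La' x.2 ∨ La x.1 = Lb' x.2) ∪
        (Finset.range k ×ˢ Finset.range k').filter
          (fun x => Lb x.1 = La' x.2 ∨ Lb x.1 = Lb' x.2) := by
      intro x hx
      rw [Finset.mem_filter, Finset.mem_product, Finset.mem_range, Finset.mem_range] at hx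
      rw [Finset.mem_union, Finset.mem_filter, Finset.mem_filter, Finset.mem_product,
        Finset.mem_range, Finset.mem_range]
      by_contra hcon
      push Not at hcon
      obtain ⟨⟨hr, hs⟩, hx2⟩ := hx
      obtain ⟨h1, h2⟩ := hcon
      obtain ⟨h3, h4⟩ := h1 ⟨hr, hs⟩
      obtain ⟨h5, h6⟩ := h2 ⟨hr, hs⟩
      apply hx2
      exact pa_half_le
        (pa_half_le'
          (((h _ _ _ _ (hv.ha _ hr) (hw.ha _ hs) M).2 h3).trans
            (max_le (hsm _ hr).1 (hsm' _ hs).1))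
          (((h _ _ _ _ (hv.ha _ hr) (hw.hb _ hs) M).2 h4).trans
            (max_le (hsm _ hr).1 (hsm' _ hs).2)))
        (pa_half_le'
          (((h _ _ _ _ (hv.hb _ hr) (hw.ha _ hs) M).2 h5).trans
            (max_le (hsm _ hr).2 (hsm' _ hs).1))
          (((h _ _ _ _ (hv.hb _ hr) (hw.hb _ hs) M).2 h6).trans
            (max_le (hsm _ hr).2 (hsm' _ hs).2)))
    refine (Finset.card_le_card hsub).trans ((Finset.card_union_le _ _).trans ?_)
    have h1 := card_label (k := k) (f := La) hw.ht hw.la hw.lb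
    have h2 := card_label (k := k) (f := Lb) hw.ht hw.la hw.lb
    have h3 := hv.hk
    omega
  · have h1 := nn_even hj
    have h2 := two_le_mm j
    nlinarith

end Pool.Agent.NAP
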