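import Pool.Agent.NAP.PairB

/-!
# NAP / PairS: pairing of two special nodes of the same index

`PrQ Q Q'` says: a vector `v` with `Q v L` and a vector `w` with `Q' w L'` satisfy `|pa M v w| ≤ 1`, and
`|pa M v w| ≤ max (sm L) (sm L')` if `L ≠ L'`.

`pair_spec`: both are special nodes with the same index `j`, constituents `z r` (`r < k`), `z' s`
(`s < k'`), multipliers `θ`, `θ'`. `v = (1/m_j) ∑ th θ (z r)` (`th_smul`, `th_sum`), the same for `w`. Let
`T` be the largest number `≤ min k k'` such that `z r = z' r` for all `r < T`. With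
`f r s = pa M (th θ (z r)) (th θ' (z' s))` all `|f r s| ≤ 1` (`hQ`, `hQ'`, `h`), and:
* `r = s < T`: `f r s = 0` (`pa_th_self`);
* `r ≠ s` and (`r < T` or `s < T`): the supports are disjoint (if `r < T` then `z r = z' r` and `z' s` lie in
  different windows of the second node; if `s < T` then `z r` and `z s = z' s` lie in different windows
  of the first one), so `f r s = 0` (`pa_eq_zero`);
* `r, s ≥ T` and `(r, s) ≠ (T, T)`: the histories satisfy `hist z r ≠ hist z' s` (for `r ≠ s` the lengths
  differ; for `r = s > T` they differ at the place `T`, as `T < min k k'` and `T` is the largest), so the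
  sets `Sig (hist z r)`, `Sig (hist z' s)` are disjoint (`code_injective`, `Nat.pair` is injective),
  so `i r ≠ i' s` and `|f r s| ≤ max (sm (inl (i r))) (sm (inl (i' s))) ≤ 2 / m_(j+1)` (`sm_le`, the indices
  are larger than `j`).
So at most one pair is bad; `1 + 1 ≤ m_j^2`. Use `pair_sum_two` with `c = 1`.
-/

namespace Pool.Agent.NAP

/-- the sets of admissible indices are disjoint -/
theorem Sig_disjoint {h h' : List V} {i : ℕ} (hi : i ∈ Sig h) (hi' : i ∈ Sig h') : h = h' := by
  obtain ⟨q, hq⟩ := hi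
  obtain ⟨q', hq'⟩ := hi'
  apply code_injective
  have h1 : Nat.pair (code h) q = Nat.pair (code h') q' := by omega
  exact (Nat.pair_eq_pair.1 h1).1

theorem hist_eq {z z' : ℕ → V} {r s : ℕ} (h : hist z r = hist z' s) :
    r = s ∧ ∀ u < r, z u = z' u := by
  have h1 : (hist z r).length = (hist z' s).length := by rw [h]
  unfold hist at h1
  rw [List.length_map, List.length_map, List.length_range, List.length_range] at h1
  subst h1
  refine ⟨rfl, fun u hu => ?_⟩
  unfold hist at h
  exact List.map_inj_left.1 h u (List.mem_range.2 hu)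

theorem window_disjoint {t : ℕ → ℕ} (ht : Monotone t) {v w : V} {r s : ℕ} (hrs : r ≠ s)
    (hv : Sup v (t r) (t (r + 1))) (hw : Sup w (t s) (t (s + 1))) (n : ℕ) : v n = 0 ∨ w n = 0 := by
  by_contra hcon
  push Not at hcon
  have h1 := hv n hcon.1
  have h2 := hw n hcon.2
  rcases lt_or_gt_of_ne hrs with h3 | h3
  · have h4 := ht (show r + 1 ≤ s by omega)
    omega
  · have h4 := ht (show s + 1 ≤ r by omega)
    omega

theorem pair_spec {Q Q' : V → Lab → Prop} (h : PrQ Q Q') (hQ : ClQ Q) (hQ' : ClQ Q') {j k k' : ℕ}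
    {z z' : ℕ → V} {i i' : ℕ → ℕ} {t t' : ℕ → ℕ} {θ θ' : ℕ → ℚ} {v w : V}
    (hv : SpecS Q j k z i t θ v) (hw : SpecS Q' j k' z' i' t' θ' w) (M : ℕ) :
    |pa M v w| ≤ 1 := by
  classical
  have ev : pa M v w = (1 / (mm j : ℚ)) * ((1 / (mm j : ℚ)) *
      ∑ r ∈ Finset.range k, ∑ s ∈ Finset.range k', pa M (th θ (z r)) (th θ' (z' s))) := by
    rw [hv.hv, hw.hv, th_smul, th_smul, th_sum, th_sum, pa_smul_left, pa_smul_right, pa_sum_left]
    congr 2
    exact Finset.sum_congr rfl fun r _ => pa_sum_right M _ _ _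
  rw [ev]
  set T := Nat.findGreatest (fun T => ∀ r < T, z r = z' r) (min k k') with hT
  have hT1 : T ≤ min k k' := Nat.findGreatest_le _
  have hT2 : ∀ r < T, z r = z' r :=
    Nat.findGreatest_spec (P := fun T => ∀ r < T, z r = z' r) (Nat.zero_le _)
      (fun r hr => absurd hr (Nat.not_lt_zero r))
  have hT3 : T < min k k' → z T ≠ z' T := by
    intro h1 h2
    have h3 := Nat.findGreatest_is_greatest (P := fun T => ∀ r < T, z r = z' r)
      (n := min k k') (k := T + 1) (by omega) (by omega)
    apply h3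
    intro r hr
    rcases Nat.lt_succ_iff_lt_or_eq.1 hr with h4 | h4
    · exact hT2 r h4
    · rw [h4]; exact h2
  have hsm : ∀ r < k, sm (Sum.inl (i r)) ≤ 2 / (mm (j + 1) : ℚ) := fun r hr =>
    sm_le (lt_of_le_of_lt (hv.ht0.trans (hv.ht (Nat.zero_le r))) (hv.li r hr).1)
  have hsm' : ∀ r < k', sm (Sum.inl (i' r)) ≤ 2 / (mm (j + 1) : ℚ) := fun r hr =>
    sm_le (lt_of_le_of_lt (hw.ht0.trans (hw.ht (Nat.zero_le r))) (hw.li r hr).1)
  have hpos : (0 : ℚ) ≤ 2 / (mm (j + 1) : ℚ) := by positivity
  refine pair_sum_two (c := 1) hv.hk hw.hk (fun r hr s hs => ?_) ?_ ?_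
  · exact (h _ _ _ _ (hQ _ _ (hv.hz r hr) θ hv.hθ) (hQ' _ _ (hw.hz s hs) θ' hw.hθ) M).1
  · have key : ∀ r < k, ∀ s < k', (r, s) ≠ (T, T) →
        |pa M (th θ (z r)) (th θ' (z' s))| ≤ 2 / (mm (j + 1) : ℚ) := by
      intro r hr s hs hne
      by_cases h1 : r < T
      · have h2 : pa M (th θ (z r)) (th θ' (z' s)) = 0 := by
          by_cases h3 : r = s
          · rw [← h3, hT2 r h1]
            exact pa_th_self M θ θ' (z' r)
          · rw [hT2 r h1]
            exact pa_eq_zero (window_disjoint hw.ht h3 ((hw.sz r (by omega)).th θ)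
              ((hw.sz s hs).th θ')) M
        rw [h2, abs_zero]
        exact hpos
      · by_cases h2 : s < T
        · have h3 : pa M (th θ (z r)) (th θ' (z' s)) = 0 := by
            rw [← hT2 s h2]
            exact pa_eq_zero (window_disjoint hv.ht (by omega) ((hv.sz r hr).th θ)
              ((hv.sz s (by omega)).th θ')) M
          rw [h3, abs_zero]
          exact hpos
        · have h3 : i r ≠ i' s := by
            intro h4
            have h5 := hv.sig r hr
            rw [h4] at h5
            obtain ⟨h6, h7⟩ := hist_eq (Sig_disjoint h5 (hw.sig s hs))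
            subst h6
            have h8 : T ≠ r := by
              intro h9
              exact hne (by rw [h9])
            exact hT3 (by omega) (h7 T (by omega))
          refine ((h _ _ _ _ (hQ _ _ (hv.hz r hr) θ hv.hθ) (hQ' _ _ (hw.hz s hs) θ' hw.hθ) M).2
            (fun h4 => h3 (Sum.inl.inj h4))).trans (max_le (hsm r hr) (hsm' s hs))
    refine (Finset.card_le_card (t := {(T, T)}) ?_).trans (by simp)
    intro x hx
    rw [Finset.mem_filter, Finset.mem_product, Finset.mem_range, Finset.mem_range] at hx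
    rw [Finset.mem_singleton]
    by_contra hne
    exact hx.2 (key x.1 hx.1.1 x.2 hx.1.2 hne)
  · have := two_le_mm j
    nlinarith

end Pool.Agent.NAP
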