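import Pool.Agent.NAP.PairD
import Pool.Agent.NAP.PairP
import Pool.Agent.NAP.PairS

/-!
# NAP / Pair: all pairings of atoms are at most one

`prQ_At`: `PrQ (At d) (At d')` for all `d`, `d'`: induction on `d + d'` (`PrQ` is symmetric by
`pa_antisymm`, `max_comm`). Let `At d v L`, `At d' w L'`. If `v` or `w` is an atom of smaller depth (first
alternative in `At`, `d` or `d'` positive) use the induction hypothesis. Otherwise `v` is a leaf (`d = 0`) or
a node built from `At (d - 1)`, and the same for `w`.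
* two leaves: `pa_leaf` (`sm = 0`).
* `v` a node of index `j`, `w` a leaf: put a special node into the common form (as in the proof of
  `Atom.node`, with `At_th`), then `pair_diff` with `Q = At (d - 1)`, `Q' = At d'` (induction
  hypothesis) gives `|pa M v w| ≤ 2 / m_j ≤ 1`. Symmetric case: exchange.
* two nodes with indices `j < j'`: `pair_diff` as before (`L' = inl j'`); `2 / m_j` is the maximum.
  `j > j'`: exchange.
* two nodes of the same even index: `pair_plain` with `Q = At (d - 1)`, `Q' = At (d' - 1)`.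
* two nodes of the same odd index: `pair_spec` (`ClQ (At d)` is `At_th`).

`sum_abs_le`: signs: take `θ n = ± 1` with `θ n * (x y' - y x') = |x y' - y x'|`; then
`∑_(n < M) |...| = pa M (th θ v) w ≤ 1`.
-/

namespace Pool.Agent.NAP

theorem prQ_symm {Q Q' : V → Lab → Prop} (h : PrQ Q Q') : PrQ Q' Q := by
  intro v L w L' hv hw M
  have h1 := h w L' v L hw hv M
  rw [pa_antisymm, abs_neg, max_comm]
  exact ⟨h1.1, fun h2 => h1.2 h2.symm⟩

theorem clQ_At (d : ℕ) : ClQ (At d) := fun _ _ h _ hθ => At_th h hθ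

/-- case distinction for atoms of depth at most `d` -/
theorem Pair_cases {d : ℕ} {v : V} {L : Lab} (h : At d v L) : IsLeaf v L ∨
    ∃ e, e < d ∧ ∃ j, L = Sum.inl j ∧
      ((Even j ∧ ∃ k a b La Lb t, PlainS (At e) j k a b La Lb t v) ∨
       (Odd j ∧ ∃ k z i t θ, SpecS (At e) j k z i t θ v)) := by
  induction d with
  | zero => exact Or.inl h
  | succ d ih =>
    rcases h with h | ⟨j, hL, hj, h⟩ | ⟨j, hL, hj, h⟩
    · rcases ih h with h1 | ⟨e, he, h1⟩
      · exact Or.inl h1
      · exact Or.inr ⟨e, by omega, h1⟩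
    · exact Or.inr ⟨d, by omega, j, hL, Or.inl ⟨hj, h⟩⟩
    · exact Or.inr ⟨d, by omega, j, hL, Or.inr ⟨hj, h⟩⟩

/-- plain and special nodes in a common form -/
theorem Pair_common {e j : ℕ} {v : V}
    (h : (Even j ∧ ∃ k a b La Lb t, PlainS (At e) j k a b La Lb t v) ∨
       (Odd j ∧ ∃ k z i t θ, SpecS (At e) j k z i t θ v)) :
    ∃ k a b La Lb t, PlainS (At e) j k a b La Lb t v := by
  rcases h with ⟨-, h⟩ | ⟨-, k, z, i, t, θ, h⟩
  · exact h
  · refine ⟨k, fun r => th θ (z r), fun r => th θ (z r), fun r => Sum.inl (i r),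
      fun r => Sum.inl (i r), t, h.hk, h.ht0, h.ht, fun r hr => At_th (h.hz r hr) h.hθ,
      fun r hr => At_th (h.hz r hr) h.hθ, fun r hr => (h.sz r hr).th θ, fun r hr => (h.sz r hr).th θ,
      h.li, h.li, ?_⟩
    rw [h.hv, th_smul, th_sum]
    congr 1
    refine Finset.sum_congr rfl fun r _ => ?_
    rw [← two_smul ℚ, smul_smul]
    norm_num

theorem Pair_inv_le (j : ℕ) : 2 / (mm j : ℚ) ≤ 1 := by
  have h1 : (2 : ℚ) ≤ mm j := by exact_mod_cast two_le_mm j
  rw [div_le_one (by linarith)]
  exact h1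

theorem prQ_At (d d' : ℕ) : PrQ (At d) (At d') := by
  induction hn : d + d' using Nat.strong_induction_on generalizing d d' with
  | _ n ih =>
    have IH : ∀ e e', e + e' < d + d' → PrQ (At e) (At e') :=
      fun e e' he => ih (e + e') (by omega) e e' rfl
    intro v L w L' hv hw M
    rcases Pair_cases hv with h1 | ⟨e, he, j, rfl, h1⟩
    · rcases Pair_cases hw with h2 | ⟨e', he', j', rfl, h2⟩
      · have h3 := pa_leaf h1 h2 M
        refine ⟨h3.1, fun h => ?_⟩
        rw [h3.2 h, abs_zero]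
        exact le_max_of_le_left (sm_nonneg _)
      · obtain ⟨k, a, b, La, Lb, t, h3⟩ := Pair_common h2
        obtain ⟨m, rfl, -⟩ := h1
        have h4 := pair_diff (IH e' d (by omega)) h3 hv (Or.inr ⟨m, rfl⟩) (by simp) M
        rw [pa_antisymm, abs_neg]
        exact ⟨h4.trans (Pair_inv_le j'), fun _ => h4.trans (le_max_right _ _)⟩
    · rcases Pair_cases hw with h2 | ⟨e', he', j', rfl, h2⟩
      · obtain ⟨k, a, b, La, Lb, t, h3⟩ := Pair_common h1
        obtain ⟨m, rfl, -⟩ := h2
        have h4 := pair_diff (IH e d' (by omega)) h3 hw (Or.inr ⟨m, rfl⟩) (by simp) M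
        exact ⟨h4.trans (Pair_inv_le j), fun _ => h4.trans (le_max_left _ _)⟩
      · rcases lt_trichotomy j j' with hjj | rfl | hjj
        · obtain ⟨k, a, b, La, Lb, t, h3⟩ := Pair_common h1
          have h4 := pair_diff (IH e d' (by omega)) h3 hw (Or.inl hjj)
            (fun h => hjj.ne (Sum.inl.inj h).symm) M
          exact ⟨h4.trans (Pair_inv_le j), fun _ => h4.trans (le_max_left _ _)⟩
        · refine ⟨?_, fun h => absurd rfl h⟩
          rcases h1 with ⟨hj, k, a, b, La, Lb, t, h1⟩ | ⟨hj, k, z, i, t, θ, h1⟩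
          · rcases h2 with ⟨-, k', a', b', La', Lb', t', h2⟩ | ⟨hj', -⟩
            · exact pair_plain (IH e e' (by omega)) hj h1 h2 M
            · exact absurd hj (Nat.not_even_iff_odd.2 hj')
          · rcases h2 with ⟨hj', -⟩ | ⟨-, k', z', i', t', θ', h2⟩
            · exact absurd hj' (Nat.not_even_iff_odd.2 hj)
            · exact pair_spec (IH e e' (by omega)) (clQ_At e) (clQ_At e') h1 h2 M
        · obtain ⟨k, a, b, La, Lb, t, h3⟩ := Pair_common h2
          have h4 := pair_diff (IH e' d (by omega)) h3 hv (Or.inl hjj)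
            (fun h => hjj.ne (Sum.inl.inj h).symm) M
          rw [pa_antisymm, abs_neg]
          exact ⟨h4.trans (Pair_inv_le j'), fun _ => h4.trans (le_max_right _ _)⟩

theorem Atom.pair {v w : V} {L L' : Lab} (h : Atom v L) (h' : Atom w L') (M : ℕ) :
    |pa M v w| ≤ 1 := by
  obtain ⟨d, h⟩ := h
  obtain ⟨d', h'⟩ := h'
  exact (prQ_At d d' v L w L' h h' M).1

theorem Atom.sum_abs_le {v w : V} {L L' : Lab} (h : Atom v L) (h' : Atom w L') (M : ℕ) :
    ∑ n ∈ Finset.range M, |(v n).1 * (w n).2 - (v n).2 * (w n).1| ≤ 1 := by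
  classical
  let θ : ℕ → ℚ := fun n => if 0 ≤ (v n).1 * (w n).2 - (v n).2 * (w n).1 then 1 else -1
  have hθ : ∀ n, |θ n| ≤ 1 := by
    intro n
    simp only [θ]
    split_ifs <;> simp
  have h1 := (h.th hθ).pair h' M
  refine le_trans (le_of_eq ?_) ((le_abs_self _).trans h1)
  unfold pa
  refine Finset.sum_congr rfl fun n _ => ?_
  rw [th_apply, Prod.smul_fst, Prod.smul_snd, smul_eq_mul, smul_eq_mul]
  simp only [θ]
  split_ifs with h2
  · rw [abs_of_nonneg h2]
    ring
  · rw [abs_of_neg (not_le.1 h2)]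
    ring

end Pool.Agent.NAP
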