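import Pool.Agent.NAP.SpaceC
import Pool.Agent.NAP.Pair

/-!
# NAP / Emb: atoms in the space, the symplectic form is bounded

* `emb_mem_GG`: `Atom.sum_abs_le` and `norm_om_emb`.
* `iX`: a finitely supported sequence has finite norm: with `S ≥` all coordinates in the support,
  `AP M h (emb v) ≤ ∑_(n ≤ S) ‖om (h n) (v n)‖ ≤ ∑_(n ≤ S) (‖v n 1‖ + ‖v n 2‖)` by `h_coord`.
* `norm_iX_le`: `AP M h (emb a) ≤ 1` for `h ∈ GG`.
* `AP_le_mul`: if `x = 0` both sides are `0`. Otherwise `h = ‖x‖⁻¹ • crd x` belongs to `GG`: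
  `AP M h (emb a) = ‖x‖⁻¹ AP M (emb a) (crd x) ≤ 1` (`AP_comm`, `emb_mem_GG`, `AP_le_norm`). So
  `‖x‖⁻¹ AP M (crd x) (crd y) = AP M h (crd y) ≤ ‖y‖`.
* `ee n`, `ff n`: unit vectors.
-/

namespace Pool.Agent.NAP

open Filter Topology

variable {𝕜 : Type} [RCLike 𝕜]

theorem emb_mem_GG {a : V} {L : Lab} (h : Atom a L) : emb 𝕜 a ∈ GG 𝕜 := by
  intro M a' L' h'
  have h1 := h.sum_abs_le h' M
  have h2 : AP M (emb 𝕜 a) (emb 𝕜 a') =
      ((∑ n ∈ Finset.range M, |(a n).1 * (a' n).2 - (a n).2 * (a' n).1| : ℚ) : ℝ) := by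
    unfold AP
    rw [Rat.cast_sum]
    exact Finset.sum_congr rfl fun n _ => norm_om_emb a a' n
  rw [h2]
  exact_mod_cast h1

private theorem norm_om_le {z : 𝕜 × 𝕜} (hz1 : ‖z.1‖ ≤ 1) (hz2 : ‖z.2‖ ≤ 1) (y : 𝕜 × 𝕜) :
    ‖om z y‖ ≤ ‖y.1‖ + ‖y.2‖ := by
  unfold om
  refine (norm_sub_le _ _).trans ?_
  rw [norm_mul, norm_mul, add_comm]
  exact add_le_add (mul_le_of_le_one_left (norm_nonneg _) hz2)
    (mul_le_of_le_one_left (norm_nonneg _) hz1)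

theorem emb_bdd (v : V) : ∃ C, ∀ h ∈ GG 𝕜, ∀ M, AP M h (emb 𝕜 v) ≤ C := by
  refine ⟨∑ n ∈ v.support, (‖(emb 𝕜 v n).1‖ + ‖(emb 𝕜 v n).2‖), fun h hh M => ?_⟩
  have h1 : AP M h (emb 𝕜 v) ≤
      ∑ n ∈ Finset.range M, (‖(emb 𝕜 v n).1‖ + ‖(emb 𝕜 v n).2‖) := by
    unfold AP
    exact Finset.sum_le_sum fun n _ => norm_om_le (h_coord hh n).1 (h_coord hh n).2 _
  have h2 : ∑ n ∈ Finset.range M, (‖(emb 𝕜 v n).1‖ + ‖(emb 𝕜 v n).2‖) ≤
      ∑ n ∈ Finset.range M ∪ v.support, (‖(emb 𝕜 v n).1‖ + ‖(emb 𝕜 v n).2‖) :=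
    Finset.sum_le_sum_of_subset_of_nonneg Finset.subset_union_left fun _ _ _ => by positivity
  have h3 : ∑ n ∈ v.support, (‖(emb 𝕜 v n).1‖ + ‖(emb 𝕜 v n).2‖) =
      ∑ n ∈ Finset.range M ∪ v.support, (‖(emb 𝕜 v n).1‖ + ‖(emb 𝕜 v n).2‖) := by
    refine Finset.sum_subset Finset.subset_union_right fun n _ hn => ?_
    have h0 : v n = 0 := Finsupp.notMem_support_iff.1 hn
    simp [emb, h0]
  rw [h3]
  exact h1.trans h2

/-- finitely supported rational sequences as elements of `X 𝕜` -/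
noncomputable def iX (𝕜 : Type) [RCLike 𝕜] (v : V) : X 𝕜 := mkX (emb 𝕜 v) (emb_bdd v)

@[simp] theorem crd_iX (v : V) : crd (iX 𝕜 v) = emb 𝕜 v := rfl

theorem iX_add (v w : V) : iX 𝕜 (v + w) = iX 𝕜 v + iX 𝕜 w := by
  apply crd_injective
  rw [map_add, crd_iX, crd_iX, crd_iX, emb_add]

theorem iX_smul (c : ℚ) (v : V) : iX 𝕜 (c • v) = (c : 𝕜) • iX 𝕜 v := by
  apply crd_injective
  rw [map_smul, crd_iX, crd_iX, emb_smul]

theorem norm_iX_le {a : V} {L : Lab} (h : Atom a L) : ‖iX 𝕜 a‖ ≤ 1 :=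
  norm_le_of fun _ hg M => hg M a L h

/-- the symplectic form is bounded, even with absolute values -/
theorem AP_le_mul (x y : X 𝕜) (M : ℕ) : AP M (crd x) (crd y) ≤ ‖x‖ * ‖y‖ := by
  by_cases hx : x = 0
  · subst hx
    rw [AP_comm, map_zero, AP_zero_right, norm_zero, zero_mul]
  · have hx' : 0 < ‖x‖ := norm_pos_iff.2 hx
    have hc : ‖((‖x‖⁻¹ : ℝ) : 𝕜)‖ = ‖x‖⁻¹ := by
      rw [RCLike.norm_ofReal, abs_of_pos (inv_pos.2 hx')]
    have hmem : (((‖x‖⁻¹ : ℝ) : 𝕜) • crd x : Sq 𝕜) ∈ GG 𝕜 := by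
      intro N a L ha
      rw [AP_comm, AP_smul_right, hc, AP_comm]
      have h1 : AP N (emb 𝕜 a) (crd x) ≤ ‖x‖ := AP_le_norm x (emb_mem_GG ha) N
      rw [AP_comm] at h1
      rw [inv_mul_le_iff₀ hx', mul_one]
      exact h1
    have h2 := AP_le_norm y hmem M
    rw [AP_comm, AP_smul_right, hc, AP_comm, inv_mul_le_iff₀ hx'] at h2
    exact h2

/-- first unit vector at the coordinate `n` -/
noncomputable def ee (𝕜 : Type) [RCLike 𝕜] (n : ℕ) : X 𝕜 := iX 𝕜 (Finsupp.single n (1, 0))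

/-- second unit vector at the coordinate `n` -/
noncomputable def ff (𝕜 : Type) [RCLike 𝕜] (n : ℕ) : X 𝕜 := iX 𝕜 (Finsupp.single n (0, 1))

theorem crd_ee (n m : ℕ) : crd (ee 𝕜 n) m = if m = n then (1, 0) else 0 := by
  unfold ee
  rw [crd_iX]
  unfold emb
  by_cases h : m = n
  · subst h
    simp
  · rw [if_neg h, Finsupp.single_eq_of_ne h]
    simp

theorem crd_ff (n m : ℕ) : crd (ff 𝕜 n) m = if m = n then (0, 1) else 0 := by
  unfold ff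
  rw [crd_iX]
  unfold emb
  by_cases h : m = n
  · subst h
    simp
  · rw [if_neg h, Finsupp.single_eq_of_ne h]
    simp

theorem norm_ee (n : ℕ) : ‖ee 𝕜 n‖ = 1 := by
  apply le_antisymm
  · refine norm_iX_le (L := Sum.inr n) (atom_leaf (fun k hk => ?_) ?_)
    · exact Finsupp.single_eq_of_ne hk
    · simp [c1]
  · have h := (coord_le (ee 𝕜 n) n).1
    rw [crd_ee, if_pos rfl] at h
    simpa using h

theorem norm_ff (n : ℕ) : ‖ff 𝕜 n‖ = 1 := by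
  apply le_antisymm
  · refine norm_iX_le (L := Sum.inr n) (atom_leaf (fun k hk => ?_) ?_)
    · exact Finsupp.single_eq_of_ne hk
    · simp [c1]
  · have h := (coord_le (ff 𝕜 n) n).2
    rw [crd_ff, if_pos rfl] at h
    simpa using h

end Pool.Agent.NAP
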