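import Pool.Agent.NAP.Emb

/-!
# NAP / Ext: a functional which is small on atoms is small

`ext_fun`: let `f` be a functional with `‖f (iX a)‖ ≤ C` for all atoms `a` vanishing up to `N`, and `x` an
element vanishing up to `N`; we may take any `C' > C`, `C' > 0` instead of `2 C` ... details:
let `h n = (f (ff n), - f (ee n))` for `N < n ≤ M` and `0` otherwise (signs such that
`om (h n) y = y.1 f (ee n) + y.2 f (ff n)` up to sign: with `h n = (f (ff n), - f (ee n))`,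
`om (h n) y = f (ff n) y.2 + f (ee n) y.1`). For an atom `a`: `om (h n) (emb a n) = f (iX (a restricted to n))`.
Let `α n`, `β n` be the real and imaginary part; choose signs `θ n ∈ {1, -1}` for `n ∈ (N, M]`, `0`
otherwise, with `θ n α n = |α n|`: `∑ |α n| = re f (iX (th θ a)) ≤ C` (`th θ a` is an atom vanishing up to
`N`), the same for `β`. As `‖z‖ ≤ |re z| + |im z|`: `AP M' h (emb a) ≤ 2 C` for all `M'`
(for `M' ≤ M` take `θ = 0` beyond `M'`, or `AP_mono`). So for `D > 2 C`, `D > 0` (or `D = 2 C` if `C > 0`)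
`D⁻¹ • h ∈ GG`, and `‖f (pr M x)‖ = ‖∑_(N < n ≤ M) om (h n) (crd x n)‖ ≤ AP (M + 1) h (crd x) ≤ D ‖x‖`
(`pr M x = ∑_(n ≤ M) ((crd x n).1 • ee n + (crd x n).2 • ff n)`). Let `D → 2 C` (`le_of_forall_pos_le_add`).
-/

namespace Pool.Agent.NAP

variable {𝕜 : Type} [RCLike 𝕜]

/-- the coordinates up to `N` vanish -/
def TlX (N : ℕ) (x : X 𝕜) : Prop := ∀ n ≤ N, crd x n = 0

theorem pr_eq_sum (M : ℕ) (x : X 𝕜) : pr M x =
    ∑ n ∈ Finset.range (M + 1), ((crd x n).1 • ee 𝕜 n + (crd x n).2 • ff 𝕜 n) := by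
  refine X.ext fun m => ?_
  have key : ∀ n, crd ((crd x n).1 • ee 𝕜 n + (crd x n).2 • ff 𝕜 n) m =
      if m = n then crd x n else 0 := by
    intro n
    rw [map_add, map_smul, map_smul, Pi.add_apply, Pi.smul_apply, Pi.smul_apply, crd_ee, crd_ff]
    by_cases h : m = n
    · simp only [h, if_true]
      ext <;> simp
    · simp [h]
  rw [crd_pr, map_sum, Finset.sum_apply, Finset.sum_congr rfl fun n _ => key n]
  by_cases h : m ≤ M
  · rw [if_pos h, Finset.sum_eq_single m]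
    · rw [if_pos rfl]
    · intro b _ hb
      rw [if_neg (Ne.symm hb)]
    · intro hm
      exact absurd (Finset.mem_range.2 (Nat.lt_succ_of_le h)) hm
  · rw [if_neg h]
    symm
    refine Finset.sum_eq_zero fun n hn => ?_
    rw [if_neg]
    intro e
    exact h (e ▸ Nat.lt_succ_iff.1 (Finset.mem_range.1 hn))

theorem ext_f_pr (f : X 𝕜 →L[𝕜] 𝕜) (M : ℕ) (x : X 𝕜) : f (pr M x) =
    ∑ n ∈ Finset.range (M + 1), ((crd x n).1 * f (ee 𝕜 n) + (crd x n).2 * f (ff 𝕜 n)) := by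
  rw [pr_eq_sum, map_sum]
  refine Finset.sum_congr rfl fun n _ => ?_
  rw [map_add, map_smul, map_smul, smul_eq_mul, smul_eq_mul]

theorem ext_f_iX (f : X 𝕜 →L[𝕜] 𝕜) (M : ℕ) (v : V) (hv : ∀ n, M < n → v n = 0) : f (iX 𝕜 v) =
    ∑ n ∈ Finset.range (M + 1), (((v n).1 : 𝕜) * f (ee 𝕜 n) + ((v n).2 : 𝕜) * f (ff 𝕜 n)) := by
  have h1 : pr M (iX 𝕜 v) = iX 𝕜 v := by
    refine X.ext fun n => ?_
    rw [crd_pr]
    by_cases h : n ≤ M
    · rw [if_pos h]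
    · rw [if_neg h, crd_iX]
      unfold emb
      rw [hv n (not_le.1 h)]
      simp only [Prod.fst_zero, Prod.snd_zero, Rat.cast_zero]
      rfl
  rw [← h1, ext_f_pr]
  rfl

/-- the real and imaginary parts -/
theorem ext_part {f : X 𝕜 →L[𝕜] 𝕜} {C : ℝ} {N : ℕ}
    (h : ∀ a, TA N a → ‖f (iX 𝕜 a)‖ ≤ C) (M M' : ℕ) {a : V} {L : Lab} (ha : Atom a L)
    (φ : 𝕜 →+ ℝ) (hφ : ∀ z, |φ z| ≤ ‖z‖) (hφ2 : ∀ (q : ℚ) (z : 𝕜), φ ((q : 𝕜) * z) = (q : ℝ) * φ z) :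
    ∑ n ∈ (Finset.range M').filter (fun n => N < n ∧ n ≤ M),
      |φ (((a n).1 : 𝕜) * f (ee 𝕜 n) + ((a n).2 : 𝕜) * f (ff 𝕜 n))| ≤ C := by
  classical
  set w : ℕ → 𝕜 := fun n => ((a n).1 : 𝕜) * f (ee 𝕜 n) + ((a n).2 : 𝕜) * f (ff 𝕜 n) with hw
  set θ : ℕ → ℚ := fun n => if N < n ∧ n ≤ M ∧ n < M' then (if 0 ≤ φ (w n) then 1 else -1) else 0
    with hθdef
  have hθ : ∀ n, |θ n| ≤ 1 := by
    intro n
    simp only [hθdef]
    split_ifs <;> simp
  have hTA : TA N (th θ a) := by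
    refine ⟨?_, L, ha.th hθ⟩
    intro n hn
    rw [th_apply]
    have : θ n = 0 := by
      simp only [hθdef]
      rw [if_neg]
      rintro ⟨h1, _⟩
      omega
    rw [this, zero_smul]
  have h1 := h _ hTA
  have h2 : ∀ n, M < n → th θ a n = 0 := by
    intro n hn
    rw [th_apply]
    have : θ n = 0 := by
      simp only [hθdef]
      rw [if_neg]
      rintro ⟨_, h1, _⟩
      omega
    rw [this, zero_smul]
  have h3 : f (iX 𝕜 (th θ a)) = ∑ n ∈ Finset.range (M + 1), (θ n : 𝕜) * w n := by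
    rw [ext_f_iX f M _ h2]
    refine Finset.sum_congr rfl fun n _ => ?_
    simp only [hw, th_apply, Prod.smul_fst, Prod.smul_snd, smul_eq_mul, Rat.cast_mul]
    ring
  have h4 : φ (f (iX 𝕜 (th θ a))) = ∑ n ∈ Finset.range (M + 1), (θ n : ℝ) * φ (w n) := by
    rw [h3, map_sum]
    exact Finset.sum_congr rfl fun n _ => hφ2 _ _
  have h5 : ∑ n ∈ Finset.range (M + 1), (θ n : ℝ) * φ (w n) =
      ∑ n ∈ (Finset.range M').filter (fun n => N < n ∧ n ≤ M), |φ (w n)| := by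
    have e : (Finset.range M').filter (fun n => N < n ∧ n ≤ M) =
        (Finset.range (M + 1)).filter (fun n => N < n ∧ n ≤ M ∧ n < M') := by
      ext n
      simp only [Finset.mem_filter, Finset.mem_range]
      omega
    rw [e, Finset.sum_filter]
    refine Finset.sum_congr rfl fun n _ => ?_
    simp only [hθdef]
    split_ifs with h6 h7
    · rw [abs_of_nonneg h7]; simp
    · rw [abs_of_neg (not_le.1 h7)]; simp
    · simp
  calc ∑ n ∈ (Finset.range M').filter (fun n => N < n ∧ n ≤ M), |φ (w n)|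
      = φ (f (iX 𝕜 (th θ a))) := by rw [h4, h5]
    _ ≤ |φ (f (iX 𝕜 (th θ a)))| := le_abs_self _
    _ ≤ ‖f (iX 𝕜 (th θ a))‖ := hφ _
    _ ≤ C := h1

/-- the sequence belonging to `f` -/
noncomputable def extH (f : X 𝕜 →L[𝕜] 𝕜) (N M : ℕ) : Sq 𝕜 := fun n =>
  if N < n ∧ n ≤ M then (f (ff 𝕜 n), - f (ee 𝕜 n)) else 0

theorem om_extH (f : X 𝕜 →L[𝕜] 𝕜) (N M n : ℕ) (y : 𝕜 × 𝕜) : om (extH f N M n) y =
    if N < n ∧ n ≤ M then y.1 * f (ee 𝕜 n) + y.2 * f (ff 𝕜 n) else 0 := by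
  unfold extH
  split_ifs
  · simp only [om]; ring
  · rw [om_zero_left]

theorem ext_norm_le (z : 𝕜) : ‖z‖ ≤ |RCLike.re z| + |RCLike.im z| := by
  have h := RCLike.re_add_im z
  calc ‖z‖ = ‖((RCLike.re z : ℝ) : 𝕜) + ((RCLike.im z : ℝ) : 𝕜) * RCLike.I‖ := by rw [h]
    _ ≤ ‖((RCLike.re z : ℝ) : 𝕜)‖ + ‖((RCLike.im z : ℝ) : 𝕜) * RCLike.I‖ := norm_add_le _ _
    _ ≤ |RCLike.re z| + |RCLike.im z| := by
      rw [norm_mul, RCLike.norm_ofReal, RCLike.norm_ofReal]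
      have h1 : ‖(RCLike.I : 𝕜)‖ ≤ 1 := by
        rcases RCLike.I_eq_zero_or_im_I_eq_one (K := 𝕜) with h0 | h0
        · rw [h0, norm_zero]; exact zero_le_one
        · rw [RCLike.norm_I_of_ne_zero]
          intro h2
          rw [h2] at h0
          simp at h0
      have h2 := mul_le_mul_of_nonneg_left h1 (abs_nonneg (RCLike.im z))
      linarith

theorem AP_extH_le {f : X 𝕜 →L[𝕜] 𝕜} {C : ℝ} {N : ℕ}
    (h : ∀ a, TA N a → ‖f (iX 𝕜 a)‖ ≤ C) (M M' : ℕ) {a : V} {L : Lab} (ha : Atom a L) :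
    AP M' (extH f N M) (emb 𝕜 a) ≤ 2 * C := by
  have hre := ext_part h M M' ha (RCLike.re : 𝕜 →+ ℝ) (fun z => RCLike.abs_re_le_norm z) (by
    intro q z
    have : (q : 𝕜) = ((q : ℝ) : 𝕜) := by push_cast; rfl
    rw [this]
    exact RCLike.re_ofReal_mul _ _)
  have him := ext_part h M M' ha (RCLike.im : 𝕜 →+ ℝ) (fun z => RCLike.abs_im_le_norm z) (by
    intro q z
    have : (q : 𝕜) = ((q : ℝ) : 𝕜) := by push_cast; rfl
    rw [this]
    exact RCLike.im_ofReal_mul _ _)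
  have h1 : AP M' (extH f N M) (emb 𝕜 a) =
      ∑ n ∈ (Finset.range M').filter (fun n => N < n ∧ n ≤ M),
        ‖((a n).1 : 𝕜) * f (ee 𝕜 n) + ((a n).2 : 𝕜) * f (ff 𝕜 n)‖ := by
    unfold AP
    rw [Finset.sum_filter]
    refine Finset.sum_congr rfl fun n _ => ?_
    rw [om_extH]
    split_ifs
    · rfl
    · rw [norm_zero]
  rw [h1]
  calc _ ≤ ∑ n ∈ (Finset.range M').filter (fun n => N < n ∧ n ≤ M),
        (|RCLike.re (((a n).1 : 𝕜) * f (ee 𝕜 n) + ((a n).2 : 𝕜) * f (ff 𝕜 n))| +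
          |RCLike.im (((a n).1 : 𝕜) * f (ee 𝕜 n) + ((a n).2 : 𝕜) * f (ff 𝕜 n))|) :=
        Finset.sum_le_sum fun n _ => ext_norm_le _
    _ ≤ C + C := by
        rw [Finset.sum_add_distrib]
        exact add_le_add hre him
    _ = 2 * C := by ring

theorem ext_fun {f : X 𝕜 →L[𝕜] 𝕜} {C : ℝ} (hC : 0 ≤ C) {N : ℕ}
    (h : ∀ a, TA N a → ‖f (iX 𝕜 a)‖ ≤ C) {x : X 𝕜} (hx : TlX N x) (M : ℕ) :
    ‖f (pr M x)‖ ≤ 2 * C * ‖x‖ := by
  have key : ∀ D : ℝ, 0 < D → 2 * C ≤ D → ‖f (pr M x)‖ ≤ D * ‖x‖ := by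
    intro D hD hCD
    have hG : ((((D⁻¹ : ℝ) : 𝕜)) • extH f N M : Sq 𝕜) ∈ GG 𝕜 := by
      intro M' a L ha
      rw [AP_comm, AP_smul_right, AP_comm, RCLike.norm_ofReal, abs_of_pos (inv_pos.2 hD)]
      have := AP_extH_le h M M' ha
      rw [inv_mul_le_iff₀ hD, mul_one]
      exact this.trans hCD
    have h2 := AP_le_norm x hG (M + 1)
    rw [AP_comm, AP_smul_right, AP_comm, RCLike.norm_ofReal, abs_of_pos (inv_pos.2 hD),
      inv_mul_le_iff₀ hD] at h2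
    refine le_trans ?_ h2
    rw [ext_f_pr]
    refine (norm_sum_le _ _).trans ?_
    unfold AP
    refine le_of_eq (Finset.sum_congr rfl fun n hn => ?_)
    rw [om_extH]
    by_cases h3 : N < n
    · rw [if_pos ⟨h3, Nat.lt_succ_iff.1 (Finset.mem_range.1 hn)⟩]
    · rw [if_neg (fun h4 => h3 h4.1), hx n (not_lt.1 h3)]
      simp
  refine le_of_forall_pos_le_add fun ε hε => ?_
  have hx0 : 0 ≤ ‖x‖ := norm_nonneg x
  have hpos : 0 < ε / (‖x‖ + 1) := by positivity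
  refine (key (2 * C + ε / (‖x‖ + 1)) (by linarith [mul_nonneg (by norm_num : (0 : ℝ) ≤ 2) hC])
    (by linarith)).trans ?_
  have h5 : ε / (‖x‖ + 1) * ‖x‖ ≤ ε := by
    rw [div_mul_eq_mul_div, div_le_iff₀ (by positivity)]
    nlinarith
  linarith [add_mul (2 * C) (ε / (‖x‖ + 1)) ‖x‖]

end Pool.Agent.NAP
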