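import Pool.Agent.NAP.Lim

/-!
# NAP / Form: a bilinear form which does not attain its norm

`form c`: for `c : ℕ → ℝ` with `0 ≤ c n ≤ 1` the form `A x = ∑' n, c n * om (crd (x 0) n) (crd (x 1) n)`; the
series converges absolutely by `AP_le_mul` (`summable_of_sum_range_le`), `|A x| ≤ ‖x 0‖ ‖x 1‖`
(`MultilinearMap.mkContinuous` or `LinearMap.mkContinuous₂` and `ContinuousLinearMap.uncurry..`).

`form_not_attains`: `c n = 1 - 1 / (n + 2)`. For unit vectors `x 0`, `x 1`: if all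
`om (crd (x 0) n) (crd (x 1) n)` vanish then `A x = 0 < 1/2 = |A (ee 0, ff 0)|`. Otherwise
`‖A x‖ ≤ ∑' c n ‖om _ _‖ < ∑' ‖om _ _‖ ≤ 1` (`tsum_lt_tsum`), but `A (ee n, ff n) = 1 - 1/(n + 2)`
exceeds `‖A x‖` for large `n`.

`form_not_wsc`: `c = 1`: `ee n → 0` and `ff n → 0` weakly (`CW.func`: norm one, coordinates tend to zero), but
`A (ee n, ff n) = 1`.
-/

namespace Pool.Agent.NAP

open Filter Topology

variable {𝕜 : Type} [RCLike 𝕜]

private theorem form_summ (x y : X 𝕜) : Summable (fun n => ‖om (crd x n) (crd y n)‖) :=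
  summable_of_sum_range_le (fun _ => norm_nonneg _) (fun M => AP_le_mul x y M)

private theorem form_tsum_le (x y : X 𝕜) : ∑' n, ‖om (crd x n) (crd y n)‖ ≤ ‖x‖ * ‖y‖ :=
  Real.tsum_le_of_sum_range_le (fun _ => norm_nonneg _) (fun M => AP_le_mul x y M)

private theorem form_norm_le {c : ℕ → ℝ} (hc0 : ∀ n, 0 ≤ c n) (hc1 : ∀ n, c n ≤ 1) (x y : X 𝕜)
    (n : ℕ) : ‖(c n : 𝕜) * om (crd x n) (crd y n)‖ ≤ ‖om (crd x n) (crd y n)‖ := by
  rw [norm_mul, RCLike.norm_ofReal, abs_of_nonneg (hc0 n)]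
  exact mul_le_of_le_one_left (norm_nonneg _) (hc1 n)

private theorem form_summ_c {c : ℕ → ℝ} (hc0 : ∀ n, 0 ≤ c n) (hc1 : ∀ n, c n ≤ 1) (x y : X 𝕜) :
    Summable (fun n => (c n : 𝕜) * om (crd x n) (crd y n)) :=
  Summable.of_norm_bounded (form_summ x y) (form_norm_le hc0 hc1 x y)

private theorem form_add_left {c : ℕ → ℝ} (hc0 : ∀ n, 0 ≤ c n) (hc1 : ∀ n, c n ≤ 1)
    (x x' y : X 𝕜) : ∑' n, (c n : 𝕜) * om (crd (x + x') n) (crd y n) =
    ∑' n, (c n : 𝕜) * om (crd x n) (crd y n) + ∑' n, (c n : 𝕜) * om (crd x' n) (crd y n) := by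
  rw [← Summable.tsum_add (form_summ_c hc0 hc1 x y) (form_summ_c hc0 hc1 x' y)]
  refine tsum_congr fun n => ?_
  rw [map_add, Pi.add_apply, om_add_left, mul_add]

private theorem form_add_right {c : ℕ → ℝ} (hc0 : ∀ n, 0 ≤ c n) (hc1 : ∀ n, c n ≤ 1)
    (x y y' : X 𝕜) : ∑' n, (c n : 𝕜) * om (crd x n) (crd (y + y') n) =
    ∑' n, (c n : 𝕜) * om (crd x n) (crd y n) + ∑' n, (c n : 𝕜) * om (crd x n) (crd y' n) := by
  rw [← Summable.tsum_add (form_summ_c hc0 hc1 x y) (form_summ_c hc0 hc1 x y')]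
  refine tsum_congr fun n => ?_
  rw [map_add, Pi.add_apply, om_add_right, mul_add]

private theorem form_smul_left (c : ℕ → ℝ) (a : 𝕜)
    (x y : X 𝕜) : ∑' n, (c n : 𝕜) * om (crd (a • x) n) (crd y n) =
    a * ∑' n, (c n : 𝕜) * om (crd x n) (crd y n) := by
  rw [← tsum_mul_left]
  refine tsum_congr fun n => ?_
  rw [map_smul, Pi.smul_apply, om_smul_left]
  ring

private theorem form_smul_right (c : ℕ → ℝ) (a : 𝕜)
    (x y : X 𝕜) : ∑' n, (c n : 𝕜) * om (crd x n) (crd (a • y) n) =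
    a * ∑' n, (c n : 𝕜) * om (crd x n) (crd y n) := by
  rw [← tsum_mul_left]
  refine tsum_congr fun n => ?_
  rw [map_smul, Pi.smul_apply, om_smul_right]
  ring

private noncomputable def formM (c : ℕ → ℝ) (hc0 : ∀ n, 0 ≤ c n) (hc1 : ∀ n, c n ≤ 1) :
    MultilinearMap 𝕜 (fun _ : Fin 2 => X 𝕜) 𝕜 where
  toFun x := ∑' n, (c n : 𝕜) * om (crd (x 0) n) (crd (x 1) n)
  map_update_add' := by
    intro inst m i x y
    rcases (show i = 0 ∨ i = 1 by omega) with rfl | rfl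
    · rw [Function.update_self, Function.update_self, Function.update_self,
        Function.update_of_ne one_ne_zero, Function.update_of_ne one_ne_zero,
        Function.update_of_ne one_ne_zero]
      exact form_add_left hc0 hc1 _ _ _
    · rw [Function.update_self, Function.update_self, Function.update_self,
        Function.update_of_ne zero_ne_one, Function.update_of_ne zero_ne_one,
        Function.update_of_ne zero_ne_one]
      exact form_add_right hc0 hc1 _ _ _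
  map_update_smul' := by
    intro inst m i a x
    rcases (show i = 0 ∨ i = 1 by omega) with rfl | rfl
    · rw [Function.update_self, Function.update_self,
        Function.update_of_ne one_ne_zero, Function.update_of_ne one_ne_zero]
      exact form_smul_left c _ _ _
    · rw [Function.update_self, Function.update_self,
        Function.update_of_ne zero_ne_one, Function.update_of_ne zero_ne_one]
      exact form_smul_right c _ _ _

theorem exists_form (c : ℕ → ℝ) (hc0 : ∀ n, 0 ≤ c n) (hc1 : ∀ n, c n ≤ 1) :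
    ∃ A : ContinuousMultilinearMap 𝕜 (fun _ : Fin 2 => X 𝕜) 𝕜,
      (∀ x : Fin 2 → X 𝕜, Summable (fun n => ‖om (crd (x 0) n) (crd (x 1) n)‖) ∧
        ∑' n, ‖om (crd (x 0) n) (crd (x 1) n)‖ ≤ ‖x 0‖ * ‖x 1‖) ∧
      ∀ x : Fin 2 → X 𝕜, A x = ∑' n, (c n : 𝕜) * om (crd (x 0) n) (crd (x 1) n) := by
  refine ⟨(formM c hc0 hc1).mkContinuous 1 ?_, fun x => ⟨form_summ _ _, form_tsum_le _ _⟩,
    fun x => rfl⟩
  intro x
  rw [one_mul, Fin.prod_univ_two]
  have h1 : ‖∑' n, (c n : 𝕜) * om (crd (x 0) n) (crd (x 1) n)‖ ≤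
      ∑' n, ‖om (crd (x 0) n) (crd (x 1) n)‖ :=
    tsum_of_norm_bounded (form_summ _ _).hasSum (form_norm_le hc0 hc1 _ _)
  exact h1.trans (form_tsum_le _ _)

private theorem form_unit (c : ℕ → ℝ) (n : ℕ) :
    ∑' m, (c m : 𝕜) * om (crd (ee 𝕜 n) m) (crd (ff 𝕜 n) m) = c n := by
  rw [tsum_eq_single n]
  · rw [crd_ee, crd_ff, if_pos rfl, if_pos rfl]
    simp [om]
  · intro m hm
    rw [crd_ee, if_neg hm, om_zero_left, mul_zero]

theorem form_not_attains : ∃ A : ContinuousMultilinearMap 𝕜 (fun _ : Fin 2 => X 𝕜) 𝕜,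
    ¬ ∃ x : Fin 2 → X 𝕜, (∀ i, ‖x i‖ = 1) ∧
      ∀ y : Fin 2 → X 𝕜, (∀ i, ‖y i‖ ≤ 1) → ‖A y‖ ≤ ‖A x‖ := by
  have hc0 : ∀ n : ℕ, 0 ≤ 1 - 1 / ((n : ℝ) + 2) := by
    intro n
    have h : (0 : ℝ) < (n : ℝ) + 2 := by positivity
    rw [sub_nonneg, div_le_one h]
    have : (0 : ℝ) ≤ n := Nat.cast_nonneg n
    linarith
  have hc1 : ∀ n : ℕ, 1 - 1 / ((n : ℝ) + 2) < 1 := by
    intro n
    have h : (0 : ℝ) < 1 / ((n : ℝ) + 2) := by positivity
    linarith
  obtain ⟨A, hA1, hA2⟩ := exists_form (𝕜 := 𝕜) (fun n => 1 - 1 / ((n : ℝ) + 2)) hc0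
    (fun n => (hc1 n).le)
  refine ⟨A, ?_⟩
  rintro ⟨x, hx, h⟩
  have key : ‖A x‖ < 1 := by
    obtain ⟨hs, ht⟩ := hA1 x
    rw [hx, hx, one_mul] at ht
    rw [hA2 x]
    by_cases h0 : ∀ n, om (crd (x 0) n) (crd (x 1) n) = 0
    · have : ∑' n : ℕ, (((1 - 1 / ((n : ℝ) + 2) : ℝ)) : 𝕜) * om (crd (x 0) n) (crd (x 1) n) = 0 := by
        rw [← tsum_zero (α := 𝕜) (β := ℕ)]
        refine tsum_congr fun n => ?_
        rw [h0 n, mul_zero]
      rw [this, norm_zero]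
      exact one_pos
    · push Not at h0
      obtain ⟨k, hk⟩ := h0
      have hk' : 0 < ‖om (crd (x 0) k) (crd (x 1) k)‖ := norm_pos_iff.2 hk
      have hs' : Summable (fun n : ℕ => (1 - 1 / ((n : ℝ) + 2)) *
          ‖om (crd (x 0) n) (crd (x 1) n)‖) :=
        Summable.of_nonneg_of_le (fun n => mul_nonneg (hc0 n) (norm_nonneg _))
          (fun n => mul_le_of_le_one_left (norm_nonneg _) (hc1 n).le) hs
      have h1 : ‖∑' n : ℕ, (((1 - 1 / ((n : ℝ) + 2) : ℝ)) : 𝕜) * om (crd (x 0) n) (crd (x 1) n)‖ ≤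
          ∑' n : ℕ, (1 - 1 / ((n : ℝ) + 2)) * ‖om (crd (x 0) n) (crd (x 1) n)‖ := by
        refine tsum_of_norm_bounded hs'.hasSum fun n => ?_
        rw [norm_mul, RCLike.norm_ofReal, abs_of_nonneg (hc0 n)]
      refine lt_of_le_of_lt h1 (lt_of_lt_of_le ?_ ht)
      exact Summable.tsum_lt_tsum (i := k)
        (fun n => mul_le_of_le_one_left (norm_nonneg _) (hc1 n).le)
        (mul_lt_of_lt_one_left hk' (hc1 k)) hs' hs
  obtain ⟨n, hn⟩ := exists_nat_gt (1 / (1 - ‖A x‖))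
  have hpos : 0 < 1 - ‖A x‖ := by linarith
  have h1 := h ![ee 𝕜 n, ff 𝕜 n] (by
    intro i
    rcases (show i = 0 ∨ i = 1 by omega) with rfl | rfl
    · exact (norm_ee n).le
    · exact (norm_ff n).le)
  have h2 : A ![ee 𝕜 n, ff 𝕜 n] = ((1 - 1 / ((n : ℝ) + 2) : ℝ) : 𝕜) := by
    rw [hA2]
    exact form_unit (fun n => 1 - 1 / ((n : ℝ) + 2)) n
  rw [h2, RCLike.norm_ofReal, abs_of_nonneg (hc0 n)] at h1
  have hn2 : (0 : ℝ) < (n : ℝ) + 2 := by positivity
  have h3 : 1 / ((n : ℝ) + 2) < 1 - ‖A x‖ := by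
    rw [div_lt_iff₀ hn2]
    rw [div_lt_iff₀ hpos] at hn
    nlinarith
  linarith

private theorem form_ee_tendsto (f : X 𝕜 →L[𝕜] 𝕜) : Tendsto (fun n => f (ee 𝕜 n)) atTop (𝓝 0) := by
  have h : CW 1 (fun n => ee 𝕜 n) (0 : X 𝕜) := by
    refine ⟨fun n => (norm_ee n).le, fun k => ?_⟩
    rw [map_zero, Pi.zero_apply]
    refine tendsto_const_nhds.congr' ?_
    filter_upwards [eventually_gt_atTop k] with n hn
    rw [crd_ee, if_neg hn.ne]
  have h1 := h.func f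
  rwa [map_zero] at h1

private theorem form_ff_tendsto (f : X 𝕜 →L[𝕜] 𝕜) : Tendsto (fun n => f (ff 𝕜 n)) atTop (𝓝 0) := by
  have h : CW 1 (fun n => ff 𝕜 n) (0 : X 𝕜) := by
    refine ⟨fun n => (norm_ff n).le, fun k => ?_⟩
    rw [map_zero, Pi.zero_apply]
    refine tendsto_const_nhds.congr' ?_
    filter_upwards [eventually_gt_atTop k] with n hn
    rw [crd_ff, if_neg hn.ne]
  have h1 := h.func f
  rwa [map_zero] at h1

theorem form_not_wsc : ∃ A : ContinuousMultilinearMap 𝕜 (fun _ : Fin 2 => X 𝕜) 𝕜,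
    ∃ (y : ℕ → Fin 2 → X 𝕜), (∀ i, ∀ f : X 𝕜 →L[𝕜] 𝕜, Tendsto (fun n => f (y n i)) atTop (𝓝 0)) ∧
      ¬ Tendsto (fun n => A (y n)) atTop (𝓝 (A 0)) := by
  obtain ⟨A, hA1, hA2⟩ := exists_form (𝕜 := 𝕜) (fun _ => 1) (fun _ => zero_le_one)
    (fun _ => le_rfl)
  refine ⟨A, fun n => ![ee 𝕜 n, ff 𝕜 n], ?_, ?_⟩
  · intro i f
    rcases (show i = 0 ∨ i = 1 by omega) with rfl | rfl
    · exact form_ee_tendsto f
    · exact form_ff_tendsto f
  · intro h
    have h1 : ∀ n, A ![ee 𝕜 n, ff 𝕜 n] = 1 := by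
      intro n
      rw [hA2]
      have := form_unit (𝕜 := 𝕜) (fun _ => 1) n
      simpa using this
    simp only [h1] at h
    have h2 : A 0 = 0 := A.map_zero
    rw [h2] at h
    exact one_ne_zero (tendsto_nhds_unique tendsto_const_nhds h)

end Pool.Agent.NAP
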