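import Pool.Agent.NAP.Poly
import Pool.Agent.NAP.Form

/-!
# NAP / Final: the main theorem

`weak_compact`: `exists_CW` and `CW.func`: every bounded sequence has a weakly convergent subsequence.
-/

namespace Pool.Agent.NAP

open Filter Topology

/-- every bounded sequence has a weakly convergent subsequence -/
theorem weak_compact {𝕜 : Type} [RCLike 𝕜] (C : ℝ) (y : ℕ → X 𝕜) (hy : ∀ n, ‖y n‖ ≤ C) :
    ∃ (φ : ℕ → ℕ) (z : X 𝕜), StrictMono φ ∧ ∀ f : X 𝕜 →L[𝕜] 𝕜,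
      Tendsto (fun n => f (y (φ n))) atTop (𝓝 (f z)) := by
  obtain ⟨φ, z, hφ, h⟩ := exists_CW hy
  exact ⟨φ, z, hφ, fun f => h.func f⟩

theorem main (𝕜 : Type) [RCLike 𝕜] :
    ∃ (E : Type) (_ : NormedAddCommGroup E) (_ : NormedSpace 𝕜 E) (_ : CompleteSpace E),
      (∀ A : ContinuousMultilinearMap 𝕜 (fun _ : Fin 2 => E) 𝕜,
        ∃ x : E, ‖x‖ = 1 ∧ ∀ y : E, ‖y‖ ≤ 1 → ‖A (fun _ => y)‖ ≤ ‖A (fun _ => x)‖) ∧
      (∃ A : ContinuousMultilinearMap 𝕜 (fun _ : Fin 2 => E) 𝕜,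
        ¬ ∃ x : Fin 2 → E, (∀ i, ‖x i‖ = 1) ∧
          ∀ y : Fin 2 → E, (∀ i, ‖y i‖ ≤ 1) → ‖A y‖ ≤ ‖A x‖) ∧
      (∀ (y : ℕ → E) (C : ℝ), (∀ n, ‖y n‖ ≤ C) → ∃ (φ : ℕ → ℕ) (z : E), StrictMono φ ∧
        ∀ f : E →L[𝕜] 𝕜, Tendsto (fun n => f (y (φ n))) atTop (𝓝 (f z))) ∧
      (∀ (A : ContinuousMultilinearMap 𝕜 (fun _ : Fin 2 => E) 𝕜) (y : ℕ → E) (z : E),
        (∀ f : E →L[𝕜] 𝕜, Tendsto (fun n => f (y n)) atTop (𝓝 (f z))) →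
          Tendsto (fun n => A (fun _ => y n)) atTop (𝓝 (A (fun _ => z)))) ∧
      (∃ A : ContinuousMultilinearMap 𝕜 (fun _ : Fin 2 => E) 𝕜, ∃ (y : ℕ → Fin 2 → E),
        (∀ i, ∀ f : E →L[𝕜] 𝕜, Tendsto (fun n => f (y n i)) atTop (𝓝 0)) ∧
          ¬ Tendsto (fun n => A (y n)) atTop (𝓝 (A 0))) :=
  ⟨X 𝕜, inferInstance, inferInstance, inferInstance, poly_attains, form_not_attains,
    fun y C hy => weak_compact C y hy, poly_wsc, form_not_wsc⟩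

end Pool.Agent.NAP
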