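import Pool.Agent.NAP.KillP

/-!
# NAP / Kill: a symmetric form is small on far atoms with large labels

`not_good`: suppose `Good δ β`. Choose an odd `j` with `m_j δ / 8 > C + 1` (`lt_mm`), `n = n_j = m_j^3`,
`η > 0` so small that `η ≤ δ / 8` and `n^2 η ≤ 1`. Choose recursively `t 0 = j` and `z r`, `i r`, `t (r + 1)` for `r < n`:
`i r ∈ Sig (hist z r)` with `i r > t r` (`Sig h` is unbounded: `q ≤ Nat.pair (code h) q`), which is
even; `z r` from `kill_plain` with `N = i r` and `F = {z 0, ..., z (r - 1)}`; `t (r + 1) ≥ i r`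
above the support of `z r` (`exists_Sup`). (For the recursion construct the pair of the list of the
`z` so far and of the number `t r`; or prove by induction on `K` the existence of `z`, `i`, `t` with the
properties for `r < K`, changing the functions at one place; `hist z r` depends only on `z 0, ..., z (r-1)`.)
`w = (1/m_j) ∑_(r < n) z r` is a special node (`θ = 1`, `th_one`). So
`C ≥ β w w ≥ (1/m_j^2) (n (δ/4 - η) - n^2 η) ≥ m_j δ / 8 - 1 > C`. Contradiction.

`kill`: suppose that for every `N` there are `a`, `b` with `TL N a`, `TL N b`, `|β a b| > ε`. With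
`u± = (1/2) (a ± b)`: `β u+ u+ - β u- u- = β a b`, so `|β u u| ≥ ε / 2` for one of them (`-b` satisfies `TL`
too, `TL.neg`). Hence `Good (ε / 2) β` or `Good (ε / 2) (-β)`: if the first fails at `N0` and the second at
`N1` then take `N = max N0 N1` (`TL.mono`) for a contradiction. Both contradict `not_good`.
-/

namespace Pool.Agent.NAP

theorem Sig_even {h : List V} {i : ℕ} (hi : i ∈ Sig h) : Even i := by
  obtain ⟨q, rfl⟩ := hi
  exact even_two_mul _

theorem Sig_unbounded (h : List V) (N : ℕ) : ∃ i ∈ Sig h, N < i := by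
  refine ⟨2 * Nat.pair (code h) (N + 1), ⟨N + 1, rfl⟩, ?_⟩
  have := Nat.right_le_pair (code h) (N + 1)
  omega

/-- states of the recursion -/
abbrev KState : Type := {p : List V × ℕ // ∀ w ∈ p.1, ∃ L, Atom w L}

theorem kill_step {β : V →ₗ[ℚ] V →ₗ[ℚ] ℝ} {C δ : ℝ}
    (hβ : ∀ a L b L', Atom a L → Atom b L' → |β a b| ≤ C) (hsym : ∀ a b, β a b = β b a)
    (hδ : 0 < δ) (hg : Good δ β) {η : ℝ} (hη : 0 < η) (s : KState) :
    ∃ (z : V) (i t' : ℕ), i ∈ Sig s.1.1 ∧ s.1.2 < i ∧ i ≤ t' ∧ Atom z (Sum.inl i) ∧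
      Sup z s.1.2 t' ∧ δ / 4 - η ≤ β z z ∧ ∀ w ∈ s.1.1, |β w z| ≤ η := by
  classical
  obtain ⟨i, hi, hti⟩ := Sig_unbounded s.1.1 s.1.2
  obtain ⟨z, hz1, hz2, hz3, hz4⟩ := kill_plain hβ hsym hδ hg (Sig_even hi) (le_refl i)
    s.1.1.toFinset (fun w hw => s.2 w (List.mem_toFinset.1 hw)) hη
  obtain ⟨T, hT⟩ := exists_Sup hz2
  refine ⟨z, i, max i T, hi, hti, le_max_left _ _, hz1,
    (hT (max i T) (le_max_right _ _)).mono hti.le le_rfl, hz3, fun w hw => ?_⟩
  exact hz4 w (List.mem_toFinset.2 hw)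

theorem not_good {β : V →ₗ[ℚ] V →ₗ[ℚ] ℝ} {C δ : ℝ}
    (hβ : ∀ a L b L', Atom a L → Atom b L' → |β a b| ≤ C) (hsym : ∀ a b, β a b = β b a)
    (hδ : 0 < δ) : ¬ Good δ β := by
  intro hg
  obtain ⟨K, hK⟩ := exists_nat_gt ((C + 1) * 4 / δ)
  obtain ⟨j, hjdef⟩ : ∃ j, j = 2 * K + 1 := ⟨_, rfl⟩
  have hj : Odd j := ⟨K, hjdef⟩
  have hKm : (K : ℝ) ≤ mm j := by
    have := lt_mm j
    exact_mod_cast (show K ≤ mm j by omega)
  have hm : C + 1 < (mm j : ℝ) * (δ / 4) := by
    have h1 : (C + 1) * 4 / δ < mm j := hK.trans_le hKm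
    rw [div_lt_iff₀ hδ] at h1
    linarith
  set n := nn j with hn
  obtain ⟨η, hη, hη'⟩ : ∃ η : ℝ, 0 < η ∧ (n : ℝ) ^ 2 * η ≤ 1 := by
    refine ⟨1 / ((n : ℝ) ^ 2 + 1), by positivity, ?_⟩
    rw [mul_one_div, div_le_one (by positivity)]
    linarith
  choose fz fi ft hstep using kill_step hβ hsym hδ hg hη
  let nx : KState → KState := fun s => ⟨(s.1.1 ++ [fz s], ft s), by
    intro w hw
    rcases List.mem_append.1 hw with h | h
    · exact s.2 w h
    · rw [List.mem_singleton] at h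
      rw [h]
      exact ⟨_, (hstep s).2.2.2.1⟩⟩
  let s0 : KState := ⟨([], j), by intro w hw; simp at hw⟩
  let st : ℕ → KState := fun r => nx^[r] s0
  have st_succ : ∀ r, st (r + 1) = nx (st r) := fun r => Function.iterate_succ_apply' nx r s0
  let z : ℕ → V := fun r => fz (st r)
  let i : ℕ → ℕ := fun r => fi (st r)
  let t : ℕ → ℕ := fun r => (st r).1.2
  have t_succ : ∀ r, t (r + 1) = ft (st r) := by
    intro r
    change (st (r + 1)).1.2 = _
    rw [st_succ]
  have hhist : ∀ r, hist z r = (st r).1.1 := by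
    intro r
    induction r with
    | zero => rfl
    | succ r ih =>
      rw [st_succ]
      change _ = (st r).1.1 ++ [fz (st r)]
      rw [← ih]
      unfold hist
      rw [List.range_succ, List.map_append]
      rfl
  have tlt : ∀ r, t r < i r ∧ i r ≤ t (r + 1) := by
    intro r
    rw [t_succ]
    exact ⟨(hstep (st r)).2.1, (hstep (st r)).2.2.1⟩
  have tmono : Monotone t := monotone_nat_of_le_succ fun r => ((tlt r).1.le.trans (tlt r).2)
  have hatom : ∀ r, Atom (z r) (Sum.inl (i r)) := fun r => (hstep (st r)).2.2.2.1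
  have hspec : SpecS Atom j n z i t (fun _ => 1) (th (fun _ => 1)
      ((1 / (mm j : ℚ)) • ∑ r ∈ Finset.range n, z r)) := by
    refine ⟨le_rfl, le_rfl, tmono, fun _ => by simp, fun r _ => hatom r, fun r _ => ?_,
      fun r _ => tlt r, fun r _ => ?_, rfl⟩
    · rw [t_succ]
      exact (hstep (st r)).2.2.2.2.1
    · rw [hhist]
      exact (hstep (st r)).1
  have hw := atom_special hj hspec
  rw [th_one] at hw
  have hC := hβ _ _ _ _ hw hw
  -- lower bound of the pairings
  have hdiag : ∀ r, δ / 4 - η ≤ β (z r) (z r) := fun r => (hstep (st r)).2.2.2.2.2.1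
  have hoff : ∀ r s, s < r → |β (z s) (z r)| ≤ η := by
    intro r s hsr
    apply (hstep (st r)).2.2.2.2.2.2
    rw [← hhist]
    unfold hist
    exact List.mem_map.2 ⟨s, List.mem_range.2 hsr, rfl⟩
  have hpair : ∀ r s, (if r = s then δ / 4 else 0) - η ≤ β (z r) (z s) := by
    intro r s
    split_ifs with h
    · rw [← h]
      exact hdiag r
    · rcases lt_or_gt_of_ne h with h | h
      · have := (abs_le.1 (hoff s r h)).1
        linarith
      · have := (abs_le.1 (hoff r s h)).1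
        rw [hsym]
        linarith
  have hsum : (n : ℝ) * (δ / 4) - (n : ℝ) ^ 2 * η ≤
      ∑ r ∈ Finset.range n, ∑ s ∈ Finset.range n, β (z r) (z s) := by
    calc (n : ℝ) * (δ / 4) - (n : ℝ) ^ 2 * η
        = ∑ r ∈ Finset.range n, ∑ s ∈ Finset.range n, ((if r = s then δ / 4 else 0) - η) := by
          have : ∀ r ∈ Finset.range n,
              ∑ s ∈ Finset.range n, ((if r = s then δ / 4 else 0) - η) = δ / 4 - n * η := by
            intro r hr
            rw [Finset.sum_sub_distrib, Finset.sum_ite_eq, if_pos hr]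
            simp
          rw [Finset.sum_congr rfl this]
          simp
          ring
      _ ≤ _ := Finset.sum_le_sum fun r _ => Finset.sum_le_sum fun s _ => hpair r s
  have hval : β ((1 / (mm j : ℚ)) • ∑ r ∈ Finset.range n, z r)
      ((1 / (mm j : ℚ)) • ∑ r ∈ Finset.range n, z r) =
      (1 / (mm j : ℝ)) ^ 2 * ∑ r ∈ Finset.range n, ∑ s ∈ Finset.range n, β (z r) (z s) := by
    have e : β (∑ r ∈ Finset.range n, z r) (∑ r ∈ Finset.range n, z r) =
        ∑ r ∈ Finset.range n, ∑ s ∈ Finset.range n, β (z r) (z s) := by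
      rw [map_sum β, LinearMap.sum_apply]
      simp only [map_sum]
    rw [map_smul, map_smul, LinearMap.smul_apply, e, Rat.smul_def, Rat.smul_def]
    push_cast
    ring
  rw [hval] at hC
  have hmpos : (0 : ℝ) < mm j := by exact_mod_cast mm_pos j
  have hnm : (n : ℝ) = (mm j : ℝ) ^ 3 := by
    rw [hn, nn_odd hj]
    push_cast
    rfl
  have h5 : (mm j : ℝ) * (δ / 4) - 1 ≤
      (1 / (mm j : ℝ)) ^ 2 * ∑ r ∈ Finset.range n, ∑ s ∈ Finset.range n, β (z r) (z s) := by
    calc (mm j : ℝ) * (δ / 4) - 1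
        ≤ (1 / (mm j : ℝ)) ^ 2 * ((n : ℝ) * (δ / 4) - (n : ℝ) ^ 2 * η) := by
          have e : (1 / (mm j : ℝ)) ^ 2 * ((n : ℝ) * (δ / 4)) = (mm j : ℝ) * (δ / 4) := by
            rw [hnm]
            field_simp
          rw [mul_sub, e]
          have h6 : (1 / (mm j : ℝ)) ^ 2 * ((n : ℝ) ^ 2 * η) ≤ 1 := by
            apply mul_le_one₀ _ (by positivity) hη'
            apply pow_le_one₀ (by positivity)
            rw [div_le_one hmpos]
            exact_mod_cast mm_pos j
          linarith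
      _ ≤ _ := mul_le_mul_of_nonneg_left hsum (by positivity)
  have := (abs_le.1 hC).2
  linarith

theorem kill {β : V →ₗ[ℚ] V →ₗ[ℚ] ℝ} {C : ℝ}
    (hβ : ∀ a L b L', Atom a L → Atom b L' → |β a b| ≤ C) (hsym : ∀ a b, β a b = β b a)
    {ε : ℝ} (hε : 0 < ε) : ∃ N, ∀ a b, TL N a → TL N b → |β a b| ≤ ε := by
  by_contra hcon
  push Not at hcon
  have h1 : ¬ Good (ε / 2) β := not_good hβ hsym (by positivity)
  have h2 : ¬ Good (ε / 2) (-β) := by
    refine not_good (C := C) (fun a L b L' ha hb => ?_) (fun a b => ?_) (by positivity)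
    · rw [LinearMap.neg_apply, LinearMap.neg_apply, abs_neg]
      exact hβ a L b L' ha hb
    · rw [LinearMap.neg_apply, LinearMap.neg_apply, LinearMap.neg_apply, LinearMap.neg_apply, hsym]
  unfold Good at h1 h2
  push Not at h1 h2
  obtain ⟨N0, h1⟩ := h1
  obtain ⟨N1, h2⟩ := h2
  obtain ⟨a, b, ha, hb, hab⟩ := hcon (max N0 N1)
  have a0 := h1 a b (ha.mono (le_max_left _ _)) (hb.mono (le_max_left _ _))
  have a1 := h2 a b (ha.mono (le_max_right _ _)) (hb.mono (le_max_right _ _))
  have a2 := h1 a (-b) (ha.mono (le_max_left _ _)) (hb.mono (le_max_left _ _)).neg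
  have a3 := h2 a (-b) (ha.mono (le_max_right _ _)) (hb.mono (le_max_right _ _)).neg
  have e1 : β ((1 / 2 : ℚ) • (a + b)) ((1 / 2 : ℚ) • (a + b)) =
      (1 / 4 : ℝ) * (β a a + 2 * β a b + β b b) := by
    simp only [map_smul, LinearMap.smul_apply, map_add, LinearMap.add_apply, Rat.smul_def, hsym b a]
    push_cast
    ring
  have e2 : β ((1 / 2 : ℚ) • (a + -b)) ((1 / 2 : ℚ) • (a + -b)) =
      (1 / 4 : ℝ) * (β a a - 2 * β a b + β b b) := by
    simp only [map_smul, LinearMap.smul_apply, map_add, map_neg, LinearMap.add_apply,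
      LinearMap.neg_apply, Rat.smul_def, hsym b a]
    push_cast
    ring
  simp only [LinearMap.neg_apply] at a1 a3
  rw [e1] at a0 a1
  rw [e2] at a2 a3
  rcases lt_abs.1 hab with h | h <;> linarith

end Pool.Agent.NAP
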