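import Pool.Agent.NAP.Shrink

/-!
# NAP / KillP: plain nodes built from a supply of half sums

`β` is a symmetric bilinear form, bounded by `C` on atoms. `Good δ β` says: for every `N` there are atoms
`a`, `b` with labels larger than `N`, vanishing up to `N`, such that `u = (1/2) (a + b)` has `β u u ≥ δ`.

`kill_plain`: let `i` be even and `N ≥ i`. Put `n = n_i`, `η' = η / (n^2 + 1) / 2 > 0` (any sufficiently small
positive number). Choose recursively `t 0 = N`, and `a r`, `b r`, `t (r + 1)`: given `t r` and the finite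
set `F' = F ∪ {u 0, ..., u (r - 1)}`: for each `w ∈ F'` the functional `β w` is bounded on atoms (for
`w = u s` by `half_bound`), so `shrink` gives `N_w` with `|β w a| ≤ η'` for `TA N_w a`; let `N'` be the
maximum of `t r` and all `N_w`; take `a r`, `b r` from `Good` for `N'`; `t (r + 1)` large enough for the
supports and labels. Then `|β w (u r)| ≤ η'` for all `w ∈ F'` (`half_bound`). With
`z = (1/m_i) ∑_(r < n) u r`, a plain node of index `i` vanishing up to `t 0 = N`: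
`β z z = (1/m_i^2) (∑ β (u r) (u r) + ∑_(r ≠ s) β (u r) (u s)) ≥ (1/m_i^2) (n δ - n^2 η') ≥ δ/4 - η`
(`nn_even`: `n / m_i^2 = 1/4`; `m_i ≥ 1`), and `|β w z| ≤ (1/m_i) n η' ≤ η` for `w ∈ F`.
-/

namespace Pool.Agent.NAP

/-- a supply of half sums of far atoms with large labels on which the form is at least `δ` -/
def Good (δ : ℝ) (β : V →ₗ[ℚ] V →ₗ[ℚ] ℝ) : Prop :=
  ∀ N, ∃ a b, TL N a ∧ TL N b ∧ δ ≤ β ((1 / 2 : ℚ) • (a + b)) ((1 / 2 : ℚ) • (a + b))

/-- one threshold for finitely many functionals -/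
private theorem shrink_finset {β : V →ₗ[ℚ] V →ₗ[ℚ] ℝ} {C : ℝ} (G : Finset V)
    (hG : ∀ w ∈ G, ∀ a L, Atom a L → |β w a| ≤ C) {ε : ℝ} (hε : 0 < ε) :
    ∃ N, ∀ w ∈ G, ∀ a, TA N a → |β w a| ≤ ε := by
  classical
  induction G using Finset.induction_on with
  | empty => exact ⟨0, fun w hw => absurd hw (Finset.notMem_empty w)⟩
  | insert v G hv ih =>
    obtain ⟨N1, h1⟩ := ih fun w hw => hG w (Finset.mem_insert_of_mem hw)
    obtain ⟨N2, h2⟩ := shrink (φ := β v) (hG v (Finset.mem_insert_self v G)) hε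
    refine ⟨max N1 N2, fun w hw a ha => ?_⟩
    rcases Finset.mem_insert.1 hw with rfl | hw
    · exact h2 a (ha.mono (le_max_right _ _))
    · exact h1 w hw a (ha.mono (le_max_left _ _))

/-- one step of the construction -/
private theorem step {β : V →ₗ[ℚ] V →ₗ[ℚ] ℝ} {C δ : ℝ}
    (hβ : ∀ a L b L', Atom a L → Atom b L' → |β a b| ≤ C) (hsym : ∀ a b, β a b = β b a)
    (hg : Good δ β) (G : Finset V) (hG : ∀ w ∈ G, ∀ a L, Atom a L → |β w a| ≤ C)
    (s : ℕ) {ε : ℝ} (hε : 0 < ε) :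
    ∃ (a b : V) (La Lb : Lab) (t : ℕ), s ≤ t ∧ Atom a La ∧ Atom b Lb ∧ Sup a s t ∧ Sup b s t ∧
      LIn La s t ∧ LIn Lb s t ∧ δ ≤ β ((1 / 2 : ℚ) • (a + b)) ((1 / 2 : ℚ) • (a + b)) ∧
      (∀ w ∈ G, |β w ((1 / 2 : ℚ) • (a + b))| ≤ ε) ∧
      ∀ x L, Atom x L → |β ((1 / 2 : ℚ) • (a + b)) x| ≤ C := by
  obtain ⟨N1, h1⟩ := shrink_finset G hG hε
  obtain ⟨a, b, ha, hb, hab⟩ := hg (max s N1)
  obtain ⟨ha1, La, ha2, ha3⟩ := ha.mono (le_max_left s N1)
  obtain ⟨hb1, Lb, hb2, hb3⟩ := hb.mono (le_max_left s N1)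
  obtain ⟨Ta, hTa⟩ := exists_Sup ha1
  obtain ⟨Tb, hTb⟩ := exists_Sup hb1
  refine ⟨a, b, La, Lb, s + Ta + Tb + lv La + lv Lb, by omega, ha2, hb2, hTa _ (by omega),
    hTb _ (by omega), ⟨ha3, by omega⟩, ⟨hb3, by omega⟩, hab, fun w hw => ?_, fun x L hx => ?_⟩
  · exact half_bound (h1 w hw a (ha.mono (le_max_right s N1)).ta)
      (h1 w hw b (hb.mono (le_max_right s N1)).ta)
  · rw [hsym]
    exact half_bound (hβ x L a La hx ha2) (hβ x L b Lb hx hb2)

/-- the whole sequence -/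
private theorem seq {β : V →ₗ[ℚ] V →ₗ[ℚ] ℝ} {C δ : ℝ}
    (hβ : ∀ a L b L', Atom a L → Atom b L' → |β a b| ≤ C) (hsym : ∀ a b, β a b = β b a)
    (hg : Good δ β) (F : Finset V) (hF : ∀ w ∈ F, ∀ a L, Atom a L → |β w a| ≤ C)
    (N : ℕ) {ε : ℝ} (hε : 0 < ε) :
    ∃ (a b : ℕ → V) (La Lb : ℕ → Lab) (t : ℕ → ℕ), t 0 = N ∧ Monotone t ∧
      (∀ r, Atom (a r) (La r)) ∧ (∀ r, Atom (b r) (Lb r)) ∧
      (∀ r, Sup (a r) (t r) (t (r + 1))) ∧ (∀ r, Sup (b r) (t r) (t (r + 1))) ∧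
      (∀ r, LIn (La r) (t r) (t (r + 1))) ∧ (∀ r, LIn (Lb r) (t r) (t (r + 1))) ∧
      (∀ r, δ ≤ β ((1 / 2 : ℚ) • (a r + b r)) ((1 / 2 : ℚ) • (a r + b r))) ∧
      (∀ w ∈ F, ∀ r, |β w ((1 / 2 : ℚ) • (a r + b r))| ≤ ε) ∧
      (∀ r s, r ≠ s → |β ((1 / 2 : ℚ) • (a r + b r)) ((1 / 2 : ℚ) • (a s + b s))| ≤ ε) := by
  classical
  choose A B LA LB T h1 h2 h3 h4 h5 h6 h7 h8 h9 h10 using
    fun p : {p : Finset V × ℕ // ∀ w ∈ p.1, ∀ a L, Atom a L → |β w a| ≤ C} =>
      step hβ hsym hg p.1.1 p.2 p.1.2 hε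
  let nx : {p : Finset V × ℕ // ∀ w ∈ p.1, ∀ a L, Atom a L → |β w a| ≤ C} →
      {p : Finset V × ℕ // ∀ w ∈ p.1, ∀ a L, Atom a L → |β w a| ≤ C} := fun p =>
    ⟨(insert ((1 / 2 : ℚ) • (A p + B p)) p.1.1, T p), by
      intro w hw
      rcases Finset.mem_insert.1 hw with h | h
      · rw [h]
        exact h10 p
      · exact p.2 w h⟩
  let S : ℕ → {p : Finset V × ℕ // ∀ w ∈ p.1, ∀ a L, Atom a L → |β w a| ≤ C} := fun r =>
    Nat.rec ⟨(F, N), hF⟩ (fun _ p => nx p) r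
  have hS : ∀ r, S (r + 1) = nx (S r) := fun r => rfl
  have hmono : Monotone fun r => (S r).1.1 := by
    refine monotone_nat_of_le_succ fun r => ?_
    rw [hS]
    exact Finset.subset_insert _ _
  have hmem : ∀ r s, r < s → (1 / 2 : ℚ) • (A (S r) + B (S r)) ∈ (S s).1.1 := by
    intro r s hrs
    refine hmono (show r + 1 ≤ s from hrs) ?_
    show _ ∈ (S (r + 1)).1.1
    rw [hS]
    exact Finset.mem_insert_self _ _
  refine ⟨fun r => A (S r), fun r => B (S r), fun r => LA (S r), fun r => LB (S r),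
    fun r => (S r).1.2, rfl, monotone_nat_of_le_succ fun r => h1 (S r), fun r => h2 (S r),
    fun r => h3 (S r), fun r => h4 (S r), fun r => h5 (S r), fun r => h6 (S r),
    fun r => h7 (S r), fun r => h8 (S r), fun w hw r => ?_, fun r s hrs => ?_⟩
  · exact h9 (S r) w (hmono (Nat.zero_le r) hw)
  · rcases lt_or_gt_of_ne hrs with h | h
    · exact h9 (S s) _ (hmem r s h)
    · rw [hsym]
      exact h9 (S r) _ (hmem s r h)

theorem kill_plain {β : V →ₗ[ℚ] V →ₗ[ℚ] ℝ} {C δ : ℝ}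
    (hβ : ∀ a L b L', Atom a L → Atom b L' → |β a b| ≤ C) (hsym : ∀ a b, β a b = β b a)
    (hδ : 0 < δ) (hg : Good δ β) {i : ℕ} (hi : Even i) {N : ℕ} (hN : i ≤ N) (F : Finset V)
    (hF : ∀ w ∈ F, ∃ L, Atom w L) {η : ℝ} (hη : 0 < η) :
    ∃ z, Atom z (Sum.inl i) ∧ Tl N z ∧ δ / 4 - η ≤ β z z ∧ ∀ w ∈ F, |β w z| ≤ η := by
  have hn0 : (0 : ℝ) ≤ (nn i : ℝ) := Nat.cast_nonneg _
  have hε : 0 < η / ((nn i : ℝ) ^ 2 + 1) := by positivity
  obtain ⟨a, b, La, Lb, t, ht0, htm, ha, hb, sa, sb, la, lb, hd, hw, hrs⟩ :=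
    seq hβ hsym hg F (fun w hw x L hx => by
      obtain ⟨L', hL'⟩ := hF w hw
      exact hβ w L' x L hL' hx) N hε
  set ε := η / ((nn i : ℝ) ^ 2 + 1) with hεdef
  have hεη : ((nn i : ℝ) ^ 2 + 1) * ε = η := by
    rw [hεdef]
    field_simp
  have hmpos : (0 : ℝ) < mm i := by exact_mod_cast mm_pos i
  have hm1 : (1 : ℝ) ≤ mm i := by exact_mod_cast mm_pos i
  have hn : 4 * (nn i : ℝ) = (mm i : ℝ) ^ 2 := by exact_mod_cast nn_even hi
  have hn1 : (nn i : ℝ) ≤ (nn i : ℝ) ^ 2 := by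
    have : nn i ≤ nn i ^ 2 := Nat.le_self_pow (by norm_num) _
    exact_mod_cast this
  set u : ℕ → V := fun r => (1 / 2 : ℚ) • (a r + b r) with hu
  have hsmul : ∀ (x y : V), β x ((1 / (mm i : ℚ)) • y) = 1 / (mm i : ℝ) * β x y := by
    intro x y
    rw [map_smul, Rat.smul_def]
    push_cast
    ring
  refine ⟨(1 / (mm i : ℚ)) • ∑ r ∈ Finset.range (nn i), u r, ?_, ?_, ?_, ?_⟩
  · exact atom_plain hi (k := nn i) (a := a) (b := b) (La := La) (Lb := Lb) (t := t)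
      ⟨le_rfl, by rw [ht0]; exact hN, htm, fun r _ => ha r, fun r _ => hb r, fun r _ => sa r,
        fun r _ => sb r, fun r _ => la r, fun r _ => lb r, rfl⟩
  · refine Tl.smul ?_ _
    intro n hnN
    rw [Finsupp.finsetSum_apply]
    refine Finset.sum_eq_zero fun r _ => ?_
    have h1 : Sup (u r) (t r) (t (r + 1)) := (sa r).half (sb r)
    have h2 : N ≤ t r := by
      rw [← ht0]
      exact htm (Nat.zero_le r)
    exact h1.tl n (hnN.trans h2)
  · rw [hsmul, hsym, hsmul, map_sum]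
    have h1 : ∀ r ∈ Finset.range (nn i), δ - nn i * ε ≤ β (∑ s ∈ Finset.range (nn i), u s) (u r) := by
      intro r hr
      rw [hsym, map_sum]
      have h2 : ∀ s ∈ Finset.range (nn i), (if s = r then δ else 0) - ε ≤ β (u r) (u s) := by
        intro s _
        split_ifs with h
        · rw [h]
          have := hd r
          linarith
        · have := abs_le.1 (hrs r s (Ne.symm h))
          linarith [this.1]
      have h3 := Finset.sum_le_sum h2
      rw [Finset.sum_sub_distrib, Finset.sum_ite_eq' (Finset.range (nn i)) r (fun _ => δ),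
        if_pos hr, Finset.sum_const, Finset.card_range, nsmul_eq_mul] at h3
      exact h3
    have h4 := Finset.sum_le_sum h1
    rw [Finset.sum_const, Finset.card_range, nsmul_eq_mul] at h4
    generalize (∑ r ∈ Finset.range (nn i), β (∑ s ∈ Finset.range (nn i), u s) (u r)) = X at *
    have h5 : 1 / (mm i : ℝ) * (1 / (mm i : ℝ) * X) = X / (4 * nn i) := by
      rw [hn]
      field_simp
    rw [h5, le_div_iff₀ (by rw [hn]; positivity)]
    have h6 : (1 : ℝ) ≤ nn i := by exact_mod_cast one_le_nn i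
    have h7 : (nn i : ℝ) ^ 2 * ε ≤ η := by
      have := hε.le
      linarith
    have h8 : η ≤ 4 * nn i * η := by nlinarith
    linarith
  · intro w hwF
    rw [hsmul, map_sum, abs_mul, abs_of_pos (by positivity)]
    have h1 : |∑ r ∈ Finset.range (nn i), β w (u r)| ≤ nn i * ε := by
      refine (Finset.abs_sum_le_sum_abs _ _).trans ?_
      have h2 := Finset.sum_le_sum fun r (_ : r ∈ Finset.range (nn i)) => hw w hwF r
      rw [Finset.sum_const, Finset.card_range, nsmul_eq_mul] at h2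
      exact h2
    have h3 : 1 / (mm i : ℝ) ≤ 1 := by
      rw [div_le_one hmpos]
      exact hm1
    calc 1 / (mm i : ℝ) * |∑ r ∈ Finset.range (nn i), β w (u r)|
        ≤ 1 * |∑ r ∈ Finset.range (nn i), β w (u r)| :=
          mul_le_mul_of_nonneg_right h3 (abs_nonneg _)
      _ ≤ nn i * ε := by rw [one_mul]; exact h1
      _ ≤ ((nn i : ℝ) ^ 2 + 1) * ε := by
          apply mul_le_mul_of_nonneg_right _ hε.le
          linarith
      _ = η := hεη

end Pool.Agent.NAP
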