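import Pool.Agent.NAP.SpaceC

/-!
# NAP / LimA: coordinatewise convergence of bounded sequences

`CW C y z`: the norms of `y n` are at most `C` and the coordinates converge to those of `z`.

* `CW.norm_le`: `AP M h (crd z) = lim AP M h (crd (y n)) ≤ C` (finite sum), `norm_le_of`.
* `exists_CW`: all coordinates of `y n` lie in the compact set of all `u : ℕ → 𝕜 × 𝕜` with components of norm
  at most `C` (`coord_le`; `isCompact_univ_pi`, closed balls in `𝕜` are compact); it is metrizable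
  (`IsCompact.isSeqCompact`), so a subsequence converges to some `u` (`tendsto_pi_nhds`); `u ∈ XS` because
  `AP M h u = lim AP M h (crd (y n)) ≤ C`.
-/

namespace Pool.Agent.NAP

open Filter Topology

variable {𝕜 : Type} [RCLike 𝕜]

/-- bounded and coordinatewise convergent -/
structure CW (C : ℝ) (y : ℕ → X 𝕜) (z : X 𝕜) : Prop where
  bd : ∀ n, ‖y n‖ ≤ C
  lim : ∀ k, Tendsto (fun n => crd (y n) k) atTop (𝓝 (crd z k))

variable {C : ℝ} {y : ℕ → X 𝕜} {z : X 𝕜}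

theorem limA_tendsto_AP (M : ℕ) (h : Sq 𝕜) (s : ℕ → Sq 𝕜) (u : Sq 𝕜)
    (hs : ∀ k, Tendsto (fun n => s n k) atTop (𝓝 (u k))) :
    Tendsto (fun n => AP M h (s n)) atTop (𝓝 (AP M h u)) := by
  unfold AP
  refine tendsto_finsetSum _ fun k _ => ?_
  have hc : Continuous (fun x : 𝕜 × 𝕜 => ‖om (h k) x‖) := by
    unfold om
    fun_prop
  exact (hc.tendsto (u k)).comp (hs k)

theorem limA_AP_le (hy : ∀ n, ‖y n‖ ≤ C) (u : Sq 𝕜) (φ : ℕ → ℕ)
    (hs : ∀ k, Tendsto (fun n => crd (y (φ n)) k) atTop (𝓝 (u k)))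
    (h : Sq 𝕜) (hh : h ∈ GG 𝕜) (M : ℕ) : AP M h u ≤ C :=
  le_of_tendsto (limA_tendsto_AP M h (fun n => crd (y (φ n))) u hs)
    (Eventually.of_forall fun n => (AP_le_norm (y (φ n)) hh M).trans (hy (φ n)))

theorem CW.norm_le (h : CW C y z) : ‖z‖ ≤ C :=
  norm_le_of fun g hg M => limA_AP_le h.bd (crd z) (fun n => n) h.lim g hg M

theorem exists_CW (hy : ∀ n, ‖y n‖ ≤ C) : ∃ (φ : ℕ → ℕ) (z : X 𝕜), StrictMono φ ∧
    CW C (fun n => y (φ n)) z := by
  have hK : IsCompact (Set.univ.pi (fun _ : ℕ => Metric.closedBall (0 : 𝕜 × 𝕜) C)) :=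
    isCompact_univ_pi fun _ => isCompact_closedBall _ _
  have hmem : ∀ n, (crd (y n) : Sq 𝕜) ∈ Set.univ.pi
      (fun _ : ℕ => Metric.closedBall (0 : 𝕜 × 𝕜) C) := by
    intro n k _
    rw [mem_closedBall_zero_iff, Prod.norm_def]
    have h := coord_le (y n) k
    exact max_le (h.1.trans (hy n)) (h.2.trans (hy n))
  obtain ⟨u, -, φ, hφ, hu⟩ := hK.isSeqCompact hmem
  have hk : ∀ k, Tendsto (fun n => crd (y (φ n)) k) atTop (𝓝 (u k)) := by
    intro k
    exact (tendsto_pi_nhds.1 hu) k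
  refine ⟨φ, ⟨u, C, fun h hh M => limA_AP_le hy u φ hk h hh M⟩, hφ, ⟨fun n => hy (φ n), hk⟩⟩

end Pool.Agent.NAP
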