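import Pool.Agent.NAP.Tail
import Pool.Agent.NAP.LimA
import Pool.Agent.NAP.Compl

/-!
# NAP / Lim: functionals and symmetric forms along coordinatewise convergent bounded sequences

`CW C y z`: the norms of `y n` are at most `C` and the coordinates converge to those of `z`.

* `CW.func`: let `w n = y n - z`, `‖w n‖ ≤ 2 C`. Given `ε`, `tail_fun` gives `N`. `w n = pr N (w n) +
  (w n - pr N (w n))`; `‖f (w n - pr N (w n))‖ ≤ ε 2 C` (`TlX N (x - pr N x)` by `crd_pr`), and
  `‖f (pr N (w n))‖ ≤ ‖f‖ ∑_(k ≤ N) (‖(crd (w n) k).1‖ + ‖(crd (w n) k).2‖) → 0` (`norm_pr_le_sum`).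
* `CW.bil`: `B (y n) (y n) - B z z = B z (w n) + B (w n) z + B (w n) (w n)`; the first two tend to zero by
  `CW.func` (`B z`, `B.flip z`); for the third one split `w n = pr N (w n) + tail`: the term with two tails is
  at most `ε (2 C)^2` (`tail_bil`), the others at most `‖B‖ ‖pr N (w n)‖ 2 C` each, which tends to zero.
* `CW.of_weak`: a weakly convergent sequence is bounded (`banach_steinhaus` in the dual, see
  `NormedSpace.inclusionInDoubleDual`; the functionals are pointwise bounded) and converges coordinatewise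
  (the coordinate functionals are continuous by `coord_le`).
-/

namespace Pool.Agent.NAP

open Filter Topology

variable {𝕜 : Type} [RCLike 𝕜] {C : ℝ} {y : ℕ → X 𝕜} {z : X 𝕜}

theorem Lim_C_nonneg (h : CW C y z) : 0 ≤ C := (norm_nonneg _).trans (h.bd 0)

theorem Lim_norm_le (h : CW C y z) (n : ℕ) : ‖y n - z‖ ≤ 2 * C := by
  have h1 := norm_sub_le (y n) z
  have h2 := h.bd n
  have h3 := h.norm_le
  linarith

theorem Lim_tail (N : ℕ) (x : X 𝕜) : TlX N (x - pr N x) := by
  intro n hn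
  rw [map_sub, Pi.sub_apply, crd_pr, if_pos hn, sub_self]

theorem Lim_pr (h : CW C y z) (N : ℕ) : Tendsto (fun n => ‖pr N (y n - z)‖) atTop (𝓝 0) := by
  have h1 : Tendsto (fun n => ∑ k ∈ Finset.range (N + 1),
      (‖(crd (y n - z) k).1‖ + ‖(crd (y n - z) k).2‖)) atTop (𝓝 0) := by
    have h2 : (0 : ℝ) = ∑ k ∈ Finset.range (N + 1), ((0 : ℝ) + 0) := by simp
    rw [h2]
    refine tendsto_finsetSum _ fun k _ => ?_
    have h3 : Tendsto (fun n => crd (y n - z) k) atTop (𝓝 0) := by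
      have h4 := (h.lim k).sub_const (crd z k)
      rw [sub_self] at h4
      refine h4.congr fun n => ?_
      rw [map_sub, Pi.sub_apply]
    have h5 : Tendsto (fun n => (crd (y n - z) k).1) atTop (𝓝 0) :=
      (continuous_fst.tendsto (0 : 𝕜 × 𝕜)).comp h3
    have h6 : Tendsto (fun n => (crd (y n - z) k).2) atTop (𝓝 0) :=
      (continuous_snd.tendsto (0 : 𝕜 × 𝕜)).comp h3
    have h7 := h5.norm
    have h8 := h6.norm
    rw [norm_zero] at h7 h8
    exact h7.add h8
  exact squeeze_zero (fun n => norm_nonneg _) (fun n => norm_pr_le_sum N _) h1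

theorem Lim_func0 (h : CW C y z) (f : X 𝕜 →L[𝕜] 𝕜) :
    Tendsto (fun n => f (y n - z)) atTop (𝓝 0) := by
  have hC := Lim_C_nonneg h
  rw [NormedAddGroup.tendsto_nhds_zero]
  intro ε hε
  obtain ⟨N, hN⟩ := tail_fun f (ε := ε / (4 * (C + 1))) (by positivity)
  have h1 : Tendsto (fun n => ‖f‖ * ‖pr N (y n - z)‖) atTop (𝓝 0) := by
    have := (Lim_pr h N).const_mul ‖f‖
    rwa [mul_zero] at this
  have h2 := h1.eventually (gt_mem_nhds (half_pos hε))
  filter_upwards [h2] with n hn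
  have e1 : f (y n - z) = f (pr N (y n - z)) + f (y n - z - pr N (y n - z)) := by
    rw [← map_add]
    congr 1
    abel
  rw [e1]
  have e2 := norm_add_le (f (pr N (y n - z))) (f (y n - z - pr N (y n - z)))
  have e3 := f.le_opNorm (pr N (y n - z))
  have e4 := hN _ (Lim_tail N (y n - z))
  have e5 := (norm_sub_pr_le N (y n - z)).trans (Lim_norm_le h n)
  have e6 : ε / (4 * (C + 1)) * ‖y n - z - pr N (y n - z)‖ ≤ ε / 2 := by
    have e7 : ε / (4 * (C + 1)) * ‖y n - z - pr N (y n - z)‖ ≤ ε / (4 * (C + 1)) * (2 * C) :=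
      mul_le_mul_of_nonneg_left e5 (by positivity)
    have e8 : ε / (4 * (C + 1)) * (2 * C) ≤ ε / 2 := by
      rw [div_mul_eq_mul_div, div_le_div_iff₀ (by positivity) (by norm_num)]
      nlinarith
    linarith
  linarith

theorem CW.func (h : CW C y z) (f : X 𝕜 →L[𝕜] 𝕜) : Tendsto (fun n => f (y n)) atTop (𝓝 (f z)) := by
  have h1 := (Lim_func0 h f).add_const (f z)
  rw [zero_add] at h1
  refine h1.congr fun n => ?_
  rw [map_sub, sub_add_cancel]

theorem Lim_bil0 (h : CW C y z) (B : X 𝕜 →L[𝕜] X 𝕜 →L[𝕜] 𝕜) (hB : ∀ x y, B x y = B y x) :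
    Tendsto (fun n => B (y n - z) (y n - z)) atTop (𝓝 0) := by
  have hC := Lim_C_nonneg h
  rw [NormedAddGroup.tendsto_nhds_zero]
  intro ε hε
  obtain ⟨N, hN⟩ := tail_bil B hB (ε := ε / (8 * (C + 1) ^ 2)) (by positivity)
  have h1 : Tendsto (fun n => (‖B‖ * (2 * C) * 2) * ‖pr N (y n - z)‖) atTop (𝓝 0) := by
    have := (Lim_pr h N).const_mul (‖B‖ * (2 * C) * 2)
    rwa [mul_zero] at this
  have h2 := h1.eventually (gt_mem_nhds (half_pos hε))
  filter_upwards [h2] with n hn
  have hw := Lim_norm_le h n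
  have ht := (norm_sub_pr_le N (y n - z)).trans hw
  have hT := Lim_tail N (y n - z)
  generalize y n - z = w at *
  generalize hp : pr N w = p at *
  have e0 : w = p + (w - p) := by abel
  have e1 : B w w = B p w + B (w - p) p + B (w - p) (w - p) := by
    have e2 : B w w = B p w + B (w - p) w := by
      rw [map_sub, ContinuousLinearMap.sub_apply]
      ring
    have e3 : B (w - p) w = B (w - p) p + B (w - p) (w - p) := by
      rw [← map_add]
      congr 1
    rw [e2, e3]
    ring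
  rw [e1]
  have a1 : ‖B p w‖ ≤ ‖B‖ * ‖p‖ * (2 * C) :=
    (B.le_opNorm₂ p w).trans (mul_le_mul_of_nonneg_left hw (by positivity))
  have a2 : ‖B (w - p) p‖ ≤ ‖B‖ * (2 * C) * ‖p‖ := by
    refine (B.le_opNorm₂ (w - p) p).trans ?_
    exact mul_le_mul_of_nonneg_right (mul_le_mul_of_nonneg_left ht B.opNorm_nonneg)
      (norm_nonneg _)
  have a3 := hN _ _ hT hT
  have a4 : ε / (8 * (C + 1) ^ 2) * ‖w - p‖ * ‖w - p‖ ≤ ε / 2 := by
    have b1 : ‖w - p‖ * ‖w - p‖ ≤ (2 * C) * (2 * C) :=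
      mul_self_le_mul_self (norm_nonneg _) ht
    have b2 : ε / (8 * (C + 1) ^ 2) * (‖w - p‖ * ‖w - p‖) ≤
        ε / (8 * (C + 1) ^ 2) * ((2 * C) * (2 * C)) :=
      mul_le_mul_of_nonneg_left b1 (by positivity)
    have b3 : ε / (8 * (C + 1) ^ 2) * ((2 * C) * (2 * C)) ≤ ε / 2 := by
      rw [div_mul_eq_mul_div, div_le_div_iff₀ (by positivity) (by norm_num)]
      have : C * C ≤ (C + 1) ^ 2 := by nlinarith
      nlinarith
    rw [mul_assoc]
    exact b2.trans b3
  have a5 := norm_add_le (B p w + B (w - p) p) (B (w - p) (w - p))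
  have a6 := norm_add_le (B p w) (B (w - p) p)
  have a7 : ‖B‖ * (2 * C) * 2 * ‖p‖ = ‖B‖ * ‖p‖ * (2 * C) + ‖B‖ * (2 * C) * ‖p‖ := by ring
  linarith

theorem CW.bil (h : CW C y z) (B : X 𝕜 →L[𝕜] X 𝕜 →L[𝕜] 𝕜) (hB : ∀ x y, B x y = B y x) :
    Tendsto (fun n => B (y n) (y n)) atTop (𝓝 (B z z)) := by
  have h1 := Lim_func0 h (B z)
  have h2 := Lim_bil0 h B hB
  have h3 : Tendsto (fun n => B z z + B z (y n - z) + B z (y n - z) + B (y n - z) (y n - z)) atTop
      (𝓝 (B z z)) := by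
    have h4 := ((h1.const_add (B z z)).add h1).add h2
    rw [add_zero, add_zero, add_zero] at h4
    exact h4
  refine h3.congr fun n => ?_
  have e1 : B (y n - z) (y n - z) = B (y n) (y n) - B z (y n) - (B z (y n) - B z z) := by
    have e0 : B (y n - z) = B (y n) - B z := map_sub B (y n) z
    rw [e0, ContinuousLinearMap.sub_apply, map_sub, map_sub, hB (y n) z]
  rw [e1, map_sub]
  ring

theorem CW.of_weak (h : ∀ f : X 𝕜 →L[𝕜] 𝕜, Tendsto (fun n => f (y n)) atTop (𝓝 (f z))) :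
    ∃ C, CW C y z := by
  obtain ⟨C, hC⟩ := banach_steinhaus
    (g := fun n => NormedSpace.inclusionInDoubleDual 𝕜 (X 𝕜) (y n)) (fun f => by
      obtain ⟨D, hD⟩ := (h f).norm.bddAbove_range
      refine ⟨D, fun n => ?_⟩
      rw [NormedSpace.dual_def]
      exact hD ⟨n, rfl⟩)
  refine ⟨C, fun n => ?_, fun k => ?_⟩
  · have h1 := (NormedSpace.inclusionInDoubleDualLi (E := X 𝕜) 𝕜).norm_map (y n)
    rw [← h1]
    exact hC n
  · have f1 : ∃ g : X 𝕜 →L[𝕜] 𝕜, ∀ x, g x = (crd x k).1 :=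
      ⟨LinearMap.mkContinuous
        { toFun := fun x => (crd x k).1
          map_add' := fun a b => by rw [map_add]; rfl
          map_smul' := fun c a => by rw [map_smul]; rfl } 1
        (fun x => by rw [one_mul]; exact (coord_le x k).1), fun x => rfl⟩
    have f2 : ∃ g : X 𝕜 →L[𝕜] 𝕜, ∀ x, g x = (crd x k).2 :=
      ⟨LinearMap.mkContinuous
        { toFun := fun x => (crd x k).2
          map_add' := fun a b => by rw [map_add]; rfl
          map_smul' := fun c a => by rw [map_smul]; rfl } 1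
        (fun x => by rw [one_mul]; exact (coord_le x k).2), fun x => rfl⟩
    obtain ⟨g1, hg1⟩ := f1
    obtain ⟨g2, hg2⟩ := f2
    have t1 := h g1
    have t2 := h g2
    simp only [hg1] at t1
    simp only [hg2] at t2
    exact t1.prodMk_nhds t2

end Pool.Agent.NAP
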