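import Pool.Agent.NAP.Defs

/-!
# NAP / Num: the numbers `m_j`, `n_j`
-/

namespace Pool.Agent.NAP

theorem mm_pos (j : ℕ) : 0 < mm j := by unfold mm; positivity

theorem two_le_mm (j : ℕ) : 2 ≤ mm j := by
  unfold mm
  calc 2 = 2 ^ 1 := by norm_num
    _ ≤ 2 ^ 8 ^ j := Nat.pow_le_pow_right (by norm_num) (Nat.one_le_pow _ _ (by norm_num))

theorem mm_succ (j : ℕ) : mm (j + 1) = mm j ^ 8 := by
  unfold mm
  rw [← pow_mul, pow_succ]

theorem mm_strictMono : StrictMono mm := by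
  apply strictMono_nat_of_lt_succ
  intro j
  rw [mm_succ]
  exact lt_self_pow₀ (by have := two_le_mm j; omega) (by norm_num)

theorem mm_mono {i j : ℕ} (h : i ≤ j) : mm i ≤ mm j := mm_strictMono.monotone h

theorem lt_mm (j : ℕ) : j < mm j := by
  induction j with
  | zero => exact mm_pos 0
  | succ j ih => exact lt_of_le_of_lt ih (mm_strictMono (Nat.lt_succ_self j))

theorem four_dvd (j : ℕ) : 4 ∣ mm j ^ 2 := by
  unfold mm
  rw [← pow_mul]
  have h : 2 ≤ 8 ^ j * 2 := by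
    have := Nat.one_le_pow j 8 (by norm_num)
    omega
  exact (pow_dvd_pow 2 h)

theorem nn_even {j : ℕ} (h : Even j) : 4 * nn j = mm j ^ 2 := by
  unfold nn
  rw [if_pos h]
  exact Nat.mul_div_cancel' (four_dvd j)

theorem nn_odd {j : ℕ} (h : Odd j) : nn j = mm j ^ 3 := by
  unfold nn
  rw [if_neg (Nat.not_even_iff_odd.2 h)]

theorem nn_le (j : ℕ) : nn j ≤ mm j ^ 3 := by
  unfold nn
  split_ifs
  · calc mm j ^ 2 / 4 ≤ mm j ^ 2 := Nat.div_le_self _ _
      _ ≤ mm j ^ 3 := Nat.pow_le_pow_right (mm_pos j) (by norm_num)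
  · exact le_rfl

theorem one_le_nn (j : ℕ) : 1 ≤ nn j := by
  rcases Nat.even_or_odd j with h | h
  · have h1 := nn_even h
    have h2 := two_le_mm j
    by_contra h3
    have h4 : nn j = 0 := by omega
    rw [h4] at h1
    have h5 : 0 < mm j ^ 2 := by positivity
    omega
  · rw [nn_odd h]
    exact Nat.one_le_pow _ _ (mm_pos j)

theorem four_nn_sq (j : ℕ) : 4 * nn j ^ 2 ≤ mm (j + 1) := by
  rw [mm_succ]
  have h1 := nn_le j
  have h2 := two_le_mm j
  calc 4 * nn j ^ 2 ≤ 4 * (mm j ^ 3) ^ 2 := by gcongr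
    _ = 2 ^ 2 * mm j ^ 6 := by ring
    _ ≤ mm j ^ 2 * mm j ^ 6 := by gcongr
    _ = mm j ^ 8 := by ring

end Pool.Agent.NAP
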