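import Pool.Agent.NAP.Basic

/-!
# NAP / PairB: the pairing `pa`, numerical bounds

* `pa` is biadditive and bihomogeneous, antisymmetric.
* `pa M (th θ v) (th η v) = 0` (every term is `θ n η n (x y - y x)`).
* vectors without common coordinates pair to `0`.
* leaves: `|pa M v w| ≤ 1` for two leaves, `= 0` for leaves with different labels.
  (`|x y' - y x'| ≤ |x| |y'| + |y| |x'| ≤ (|x| + |y|) (|x'| + |y'|) ≤ 1`.)
* `pair_sum_one`: if `k ≤ n_j`, `|f r| ≤ 1` for all `r < k` and `|f r| ≤ 2 / m_(j+1)` for all `r < k` but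
  at most one (`r0`) then `(1/m_j) |∑ f r| ≤ (1/m_j) (1 + n_j 2 / m_(j+1)) ≤ 2 / m_j`
  (`four_nn_sq`: `4 n_j^2 ≤ m_(j+1)`, `one_le_nn`).
* `pair_sum_two`: if `k, l ≤ n_j`, `|f r s| ≤ 1` for all `r < k`, `s < l`, and the set of pairs
  `(r, s)` with `|f r s| > 2 / m_(j+1)` has at most `c` elements, `c + 1 ≤ m_j^2`, then
  `(1/m_j)^2 |∑ ∑ f r s| ≤ (1/m_j)^2 (c + n_j^2 2 / m_(j+1)) ≤ (1/m_j)^2 (c + 1) ≤ 1`.
-/

namespace Pool.Agent.NAP

/-- bound for labels: `2 / m_j` for nodes, `0` for leaves -/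
def sm : Lab → ℚ := Sum.elim (fun j => 2 / (mm j : ℚ)) (fun _ => 0)

@[simp] theorem sm_inl (j : ℕ) : sm (Sum.inl j) = 2 / (mm j : ℚ) := rfl

@[simp] theorem sm_inr (n : ℕ) : sm (Sum.inr n) = 0 := rfl

/-- bounds for all pairings of `Q` and `Q'` -/
def PrQ (Q Q' : V → Lab → Prop) : Prop :=
  ∀ v L w L', Q v L → Q' w L' → ∀ M, |pa M v w| ≤ 1 ∧ (L ≠ L' → |pa M v w| ≤ max (sm L) (sm L'))

/-- closed under multiplication with scalar functions -/
def ClQ (Q : V → Lab → Prop) : Prop :=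
  ∀ v L, Q v L → ∀ θ : ℕ → ℚ, (∀ n, |θ n| ≤ 1) → Q (th θ v) L

theorem sm_nonneg (L : Lab) : 0 ≤ sm L := by
  rcases L with j | n
  · rw [sm_inl]; positivity
  · rw [sm_inr]

/-- labels larger than `j` have a small bound -/
theorem sm_le {L : Lab} {j : ℕ} (h : j < lv L) : sm L ≤ 2 / (mm (j + 1) : ℚ) := by
  rcases L with i | n
  · rw [sm_inl]
    have h1 : (mm (j + 1) : ℚ) ≤ mm i := by exact_mod_cast mm_mono h
    have h2 : (0 : ℚ) < mm (j + 1) := by exact_mod_cast mm_pos (j + 1)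
    gcongr
  · rw [sm_inr]; positivity

theorem pa_add_left (M : ℕ) (v v' w : V) : pa M (v + v') w = pa M v w + pa M v' w := by
  unfold pa
  rw [← Finset.sum_add_distrib]
  refine Finset.sum_congr rfl fun n _ => ?_
  rw [Finsupp.add_apply, Prod.fst_add, Prod.snd_add]
  ring

theorem pa_smul_left (M : ℕ) (c : ℚ) (v w : V) : pa M (c • v) w = c * pa M v w := by
  unfold pa
  rw [Finset.mul_sum]
  refine Finset.sum_congr rfl fun n _ => ?_
  rw [Finsupp.smul_apply, Prod.smul_fst, Prod.smul_snd, smul_eq_mul, smul_eq_mul]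
  ring

theorem pa_sum_left {ι : Type*} (M : ℕ) (s : Finset ι) (f : ι → V) (w : V) :
    pa M (∑ i ∈ s, f i) w = ∑ i ∈ s, pa M (f i) w := by
  classical
  induction s using Finset.induction_on with
  | empty => simp [pa]
  | insert a s ha ih => rw [Finset.sum_insert ha, Finset.sum_insert ha, pa_add_left, ih]

theorem pa_antisymm (M : ℕ) (v w : V) : pa M v w = - pa M w v := by
  unfold pa
  rw [← Finset.sum_neg_distrib]
  refine Finset.sum_congr rfl fun n _ => ?_
  ring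

theorem pa_add_right (M : ℕ) (v w w' : V) : pa M v (w + w') = pa M v w + pa M v w' := by
  rw [pa_antisymm, pa_add_left, pa_antisymm M w, pa_antisymm M w']
  ring

theorem pa_smul_right (M : ℕ) (c : ℚ) (v w : V) : pa M v (c • w) = c * pa M v w := by
  rw [pa_antisymm, pa_smul_left, pa_antisymm M w]
  ring

theorem pa_sum_right {ι : Type*} (M : ℕ) (s : Finset ι) (v : V) (f : ι → V) :
    pa M v (∑ i ∈ s, f i) = ∑ i ∈ s, pa M v (f i) := by
  rw [pa_antisymm, pa_sum_left, ← Finset.sum_neg_distrib]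
  exact Finset.sum_congr rfl fun n _ => (pa_antisymm M v (f n)).symm

theorem pa_th_self (M : ℕ) (θ η : ℕ → ℚ) (v : V) : pa M (th θ v) (th η v) = 0 := by
  unfold pa
  refine Finset.sum_eq_zero fun n _ => ?_
  rw [th_apply, th_apply, Prod.smul_fst, Prod.smul_snd, Prod.smul_fst, Prod.smul_snd,
    smul_eq_mul, smul_eq_mul, smul_eq_mul, smul_eq_mul]
  ring

theorem pa_eq_zero {v w : V} (h : ∀ n, v n = 0 ∨ w n = 0) (M : ℕ) : pa M v w = 0 := by
  unfold pa
  refine Finset.sum_eq_zero fun n _ => ?_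
  rcases h n with h | h <;> rw [h] <;> simp

theorem pa_half_le {M : ℕ} {a b w : V} {C : ℚ} (ha : |pa M a w| ≤ C) (hb : |pa M b w| ≤ C) :
    |pa M ((1 / 2 : ℚ) • (a + b)) w| ≤ C := by
  rw [pa_smul_left, pa_add_left, abs_mul, abs_of_pos (show (0 : ℚ) < 1 / 2 by norm_num)]
  have := abs_add_le (pa M a w) (pa M b w)
  linarith

theorem pa_half_le' {M : ℕ} {a b w : V} {C : ℚ} (ha : |pa M w a| ≤ C) (hb : |pa M w b| ≤ C) :
    |pa M w ((1 / 2 : ℚ) • (a + b))| ≤ C := by
  rw [pa_smul_right, pa_add_right, abs_mul, abs_of_pos (show (0 : ℚ) < 1 / 2 by norm_num)]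
  have := abs_add_le (pa M w a) (pa M w b)
  linarith

theorem pa_leaf {v w : V} {L L' : Lab} (h : IsLeaf v L) (h' : IsLeaf w L') (M : ℕ) :
    |pa M v w| ≤ 1 ∧ (L ≠ L' → pa M v w = 0) := by
  obtain ⟨n, rfl, h1, h2⟩ := h
  obtain ⟨m, rfl, h3, h4⟩ := h'
  by_cases hnm : n = m
  · subst hnm
    refine ⟨?_, fun h => absurd rfl h⟩
    have key : |(v n).1 * (w n).2 - (v n).2 * (w n).1| ≤ 1 := by
      unfold c1 at h2 h4
      have e1 : |(v n).1 * (w n).2 - (v n).2 * (w n).1| ≤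
          |(v n).1| * |(w n).2| + |(v n).2| * |(w n).1| := by
        rw [← abs_mul, ← abs_mul]
        exact abs_sub _ _
      have p1 := abs_nonneg (v n).1
      have p2 := abs_nonneg (v n).2
      have p3 := abs_nonneg (w n).1
      have p4 := abs_nonneg (w n).2
      nlinarith [mul_nonneg p1 p3, mul_nonneg p2 p4,
        mul_le_mul h2 h4 (add_nonneg p3 p4) zero_le_one]
    by_cases hM : n < M
    · unfold pa
      rw [Finset.sum_eq_single_of_mem n (Finset.mem_range.2 hM)]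
      · exact key
      · intro k _ hk
        rw [h1 k hk]
        simp
    · unfold pa
      rw [Finset.sum_eq_zero]
      · simp
      · intro k hk
        have : k ≠ n := by
          rintro rfl
          exact hM (Finset.mem_range.1 hk)
        rw [h1 k this]
        simp
  · have h0 : pa M v w = 0 := by
      refine pa_eq_zero (fun k => ?_) M
      by_cases hk : k = n
      · right
        exact h3 k (by rw [hk]; exact hnm)
      · left
        exact h1 k hk
    exact ⟨by rw [h0]; simp, fun _ => h0⟩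

theorem pair_sum_one {j k r0 : ℕ} (hk : k ≤ nn j) {f : ℕ → ℚ} (h1 : ∀ r < k, |f r| ≤ 1)
    (h2 : ∀ r < k, r ≠ r0 → |f r| ≤ 2 / (mm (j + 1) : ℚ)) :
    |(1 / (mm j : ℚ)) * ∑ r ∈ Finset.range k, f r| ≤ 2 / (mm j : ℚ) := by
  have hm : (0 : ℚ) < mm j := by exact_mod_cast mm_pos j
  have hm1 : (0 : ℚ) < mm (j + 1) := by exact_mod_cast mm_pos (j + 1)
  have h3 : |∑ r ∈ Finset.range k, f r| ≤ 2 := by
    have e1 : ∀ r ∈ Finset.range k, |f r| ≤ (if r = r0 then 1 else 0) + 2 / (mm (j + 1) : ℚ) := by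
      intro r hr
      by_cases h : r = r0
      · rw [if_pos h]
        have := h1 r (Finset.mem_range.1 hr)
        have h5 : (0 : ℚ) ≤ 2 / (mm (j + 1) : ℚ) := by positivity
        linarith
      · rw [if_neg h, zero_add]
        exact h2 r (Finset.mem_range.1 hr) h
    refine (Finset.abs_sum_le_sum_abs _ _).trans ((Finset.sum_le_sum e1).trans ?_)
    rw [Finset.sum_add_distrib, Finset.sum_const, Finset.card_range, nsmul_eq_mul]
    have e2 : ∑ r ∈ Finset.range k, (if r = r0 then (1 : ℚ) else 0) ≤ 1 := by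
      rw [Finset.sum_ite_eq' (Finset.range k) r0 (fun _ => (1 : ℚ))]
      split_ifs <;> norm_num
    have e3 : (k : ℚ) * (2 / (mm (j + 1) : ℚ)) ≤ 1 := by
      rw [mul_div_assoc', div_le_one hm1]
      have h6 := four_nn_sq j
      have h7 := one_le_nn j
      have h8 : k * 2 ≤ mm (j + 1) := by nlinarith
      exact_mod_cast h8
    linarith
  rw [abs_mul, abs_of_pos (by positivity : (0 : ℚ) < 1 / (mm j : ℚ)), one_div, inv_mul_eq_div]
  exact div_le_div_of_nonneg_right h3 hm.le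

theorem pair_sum_two {j k l c : ℕ} (hk : k ≤ nn j) (hl : l ≤ nn j) {f : ℕ → ℕ → ℚ}
    (h1 : ∀ r < k, ∀ s < l, |f r s| ≤ 1)
    (h2 : ((Finset.range k ×ˢ Finset.range l).filter
      (fun x => ¬ |f x.1 x.2| ≤ 2 / (mm (j + 1) : ℚ))).card ≤ c) (hc : c + 1 ≤ mm j ^ 2) :
    |(1 / (mm j : ℚ)) * ((1 / (mm j : ℚ)) *
      ∑ r ∈ Finset.range k, ∑ s ∈ Finset.range l, f r s)| ≤ 1 := by
  have hm : (0 : ℚ) < mm j := by exact_mod_cast mm_pos j
  have hm1 : (0 : ℚ) < mm (j + 1) := by exact_mod_cast mm_pos (j + 1)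
  have h3 : |∑ r ∈ Finset.range k, ∑ s ∈ Finset.range l, f r s| ≤ (mm j : ℚ) ^ 2 := by
    rw [← Finset.sum_product']
    have e1 : ∀ x ∈ Finset.range k ×ˢ Finset.range l, |f x.1 x.2| ≤
        (if ¬ |f x.1 x.2| ≤ 2 / (mm (j + 1) : ℚ) then 1 else 0) + 2 / (mm (j + 1) : ℚ) := by
      intro x hx
      rw [Finset.mem_product, Finset.mem_range, Finset.mem_range] at hx
      by_cases h : |f x.1 x.2| ≤ 2 / (mm (j + 1) : ℚ)
      · rw [if_neg (not_not.2 h), zero_add]
        exact h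
      · rw [if_pos h]
        have := h1 x.1 hx.1 x.2 hx.2
        have h5 : (0 : ℚ) ≤ 2 / (mm (j + 1) : ℚ) := by positivity
        linarith
    refine (Finset.abs_sum_le_sum_abs _ _).trans ((Finset.sum_le_sum e1).trans ?_)
    rw [Finset.sum_add_distrib, Finset.sum_const, Finset.card_product, Finset.card_range,
      Finset.card_range, nsmul_eq_mul, ← Finset.sum_filter, Finset.sum_const, nsmul_eq_mul, mul_one]
    have e2 : (((Finset.range k ×ˢ Finset.range l).filter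
      (fun x => ¬ |f x.1 x.2| ≤ 2 / (mm (j + 1) : ℚ))).card : ℚ) ≤ c := by exact_mod_cast h2
    have e3 : ((k * l : ℕ) : ℚ) * (2 / (mm (j + 1) : ℚ)) ≤ 1 := by
      rw [mul_div_assoc', div_le_one hm1]
      have h6 := four_nn_sq j
      have h7 : k * l ≤ nn j * nn j := Nat.mul_le_mul hk hl
      have h8 : k * l * 2 ≤ mm (j + 1) := by nlinarith
      exact_mod_cast h8
    have e4 : ((c : ℚ) + 1) ≤ (mm j : ℚ) ^ 2 := by exact_mod_cast hc
    linarith
  rw [← mul_assoc, abs_mul, abs_of_pos (by positivity : (0 : ℚ) < 1 / (mm j : ℚ) * (1 / (mm j : ℚ)))]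
  have h4 : 1 / (mm j : ℚ) * (1 / (mm j : ℚ)) = 1 / (mm j : ℚ) ^ 2 := by
    field_simp
  rw [h4, one_div, inv_mul_eq_div, div_le_one (by positivity)]
  exact h3

end Pool.Agent.NAP
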