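import Pool.Agent.NAP.PairB

/-!
# NAP / PairD: pairing of a node with a vector of a different label

`PrQ Q Q'` says: a vector `v` with `Q v L` and a vector `w` with `Q' w L'` satisfy `|pa M v w| ≤ 1`, and
`|pa M v w| ≤ max (sm L) (sm L')` if `L ≠ L'`.

`pair_diff`: `v` is a node of index `j` (in the common form `PlainS`, see `Atom.node`), `L' ≠ inl j`, and
`L'` is a leaf label or larger than `j`. Let `W_r = {La r, Lb r}`. The windows `(t r, t (r+1)]` are
disjoint, so `L'` lies in at most one `W_r` (say in `W_(r0)`; if in none take `r0 = k`). For `r ≠ r0` both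
`|pa M (a r) w|` and `|pa M (b r) w|` are at most `max (sm (La r)) (sm L') ≤ 2 / m_(j+1)` (`sm_le`: the
labels `La r` are larger than `t r ≥ t 0 ≥ j`; `sm L' = 0` for a leaf, or `lv L' > j`). All are at most `1`.
Use `pa_smul_left`, `pa_sum_left`, `pa_half_le`, `pair_sum_one`.
-/

namespace Pool.Agent.NAP

theorem LIn_unique {t : ℕ → ℕ} (ht : Monotone t) {L : Lab} {r s : ℕ}
    (h : LIn L (t r) (t (r + 1))) (h' : LIn L (t s) (t (s + 1))) : r = s := by
  by_contra hne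
  rcases lt_or_gt_of_ne hne with h1 | h1
  · have h2 := ht (show r + 1 ≤ s by omega)
    unfold LIn at h h'
    omega
  · have h2 := ht (show s + 1 ≤ r by omega)
    unfold LIn at h h'
    omega

theorem pair_diff {Q Q' : V → Lab → Prop} (h : PrQ Q Q') {j k : ℕ} {a b : ℕ → V} {La Lb : ℕ → Lab}
    {t : ℕ → ℕ} {v : V} (hv : PlainS Q j k a b La Lb t v) {w : V} {L' : Lab} (hw : Q' w L')
    (hL' : j < lv L' ∨ ∃ n, L' = Sum.inr n) (hne : L' ≠ Sum.inl j) (M : ℕ) :
    |pa M v w| ≤ 2 / (mm j : ℚ) := by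
  have hsm : sm L' ≤ 2 / (mm (j + 1) : ℚ) := by
    rcases hL' with h1 | ⟨n, rfl⟩
    · exact sm_le h1
    · rw [sm_inr]; positivity
  have hla : ∀ r < k, sm (La r) ≤ 2 / (mm (j + 1) : ℚ) := fun r hr =>
    sm_le (lt_of_le_of_lt (hv.ht0.trans (hv.ht (Nat.zero_le r))) (hv.la r hr).1)
  have hlb : ∀ r < k, sm (Lb r) ≤ 2 / (mm (j + 1) : ℚ) := fun r hr =>
    sm_le (lt_of_le_of_lt (hv.ht0.trans (hv.ht (Nat.zero_le r))) (hv.lb r hr).1)
  have h0 : ∃ r0, ∀ r < k, r ≠ r0 → La r ≠ L' ∧ Lb r ≠ L' := by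
    by_cases hex : ∃ r0 < k, La r0 = L' ∨ Lb r0 = L'
    · obtain ⟨r0, hr0, h1⟩ := hex
      have h2 : LIn L' (t r0) (t (r0 + 1)) := by
        rcases h1 with h1 | h1
        · rw [← h1]; exact hv.la r0 hr0
        · rw [← h1]; exact hv.lb r0 hr0
      refine ⟨r0, fun r hr hne => ⟨fun h3 => hne ?_, fun h3 => hne ?_⟩⟩
      · have h4 := hv.la r hr
        rw [h3] at h4
        exact LIn_unique hv.ht h4 h2
      · have h4 := hv.lb r hr
        rw [h3] at h4
        exact LIn_unique hv.ht h4 h2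
    · push Not at hex
      exact ⟨k, fun r hr _ => hex r hr⟩
  obtain ⟨r0, hr0⟩ := h0
  rw [hv.hv, pa_smul_left, pa_sum_left]
  refine pair_sum_one (r0 := r0) hv.hk (fun r hr => ?_) (fun r hr hne => ?_)
  · exact pa_half_le (h _ _ _ _ (hv.ha r hr) hw M).1 (h _ _ _ _ (hv.hb r hr) hw M).1
  · refine pa_half_le ?_ ?_
    · exact ((h _ _ _ _ (hv.ha r hr) hw M).2 (hr0 r hr hne).1).trans (max_le (hla r hr) hsm)
    · exact ((h _ _ _ _ (hv.hb r hr) hw M).2 (hr0 r hr hne).2).trans (max_le (hlb r hr) hsm)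

end Pool.Agent.NAP
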