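import Pool.Agent.NAP.Lim

/-!
# NAP / Poly: 2-homogeneous polynomials attain their norm and are weakly sequentially continuous

`symB A`: for a continuous bilinear map `A` (as a `ContinuousMultilinearMap` on `Fin 2`) there is a
symmetric `B : X →L X →L 𝕜` with `B x x = A (fun _ => x)`: `B x y = (1/2) (A ![x, y] + A ![y, x])`
(`LinearMap.mkContinuous₂` with bound `‖A‖`, `ContinuousMultilinearMap.le_opNorm`, `Fin.prod_univ_two`;
or `A.curryLeft` and friends).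

`poly_attains`: if `A (fun _ => y) = 0` for all `y` in the ball take `x = ee 0`. Otherwise let
`S = sup ‖A (fun _ => y)‖` over the ball, `S > 0` (bounded by `‖A‖`); choose `y n` in the ball with
`‖A (fun _ => y n)‖ → S`; by `exists_CW` a subsequence converges coordinatewise to some `z`, `‖z‖ ≤ 1`
(`CW.norm_le`), and by `CW.bil` `‖A (fun _ => z)‖ = S`. Since `S > 0`, `z ≠ 0`, and `x = ‖z‖⁻¹ • z` satisfies
`‖A (fun _ => x)‖ = ‖z‖⁻¹ ^ 2 S ≥ S`, so it is at least all values in the ball, `‖x‖ = 1`.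

`poly_wsc`: `CW.of_weak` and `CW.bil`.
-/

namespace Pool.Agent.NAP

open Filter Topology

variable {𝕜 : Type} [RCLike 𝕜]

private theorem poly_fin2 (i : Fin 2) : i = 0 ∨ i = 1 := by omega

private theorem poly_add0 (A : ContinuousMultilinearMap 𝕜 (fun _ : Fin 2 => X 𝕜) 𝕜)
    (x x' y : X 𝕜) : A ![x + x', y] = A ![x, y] + A ![x', y] := by
  have h := A.map_update_add ![x, y] 0 x x'
  have e : ∀ z : X 𝕜, Function.update ![x, y] 0 z = ![z, y] := by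
    intro z
    funext i
    rcases poly_fin2 i with rfl | rfl
    · simp
    · simp
  rwa [e, e, e] at h

private theorem poly_add1 (A : ContinuousMultilinearMap 𝕜 (fun _ : Fin 2 => X 𝕜) 𝕜)
    (x y y' : X 𝕜) : A ![x, y + y'] = A ![x, y] + A ![x, y'] := by
  have h := A.map_update_add ![x, y] 1 y y'
  have e : ∀ z : X 𝕜, Function.update ![x, y] 1 z = ![x, z] := by
    intro z
    funext i
    rcases poly_fin2 i with rfl | rfl
    · simp
    · simp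
  rwa [e, e, e] at h

private theorem poly_smul0 (A : ContinuousMultilinearMap 𝕜 (fun _ : Fin 2 => X 𝕜) 𝕜)
    (c : 𝕜) (x y : X 𝕜) : A ![c • x, y] = c • A ![x, y] := by
  have h := A.map_update_smul ![x, y] 0 c x
  have e : ∀ z : X 𝕜, Function.update ![x, y] 0 z = ![z, y] := by
    intro z
    funext i
    rcases poly_fin2 i with rfl | rfl
    · simp
    · simp
  rwa [e, e] at h

private theorem poly_smul1 (A : ContinuousMultilinearMap 𝕜 (fun _ : Fin 2 => X 𝕜) 𝕜)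
    (c : 𝕜) (x y : X 𝕜) : A ![x, c • y] = c • A ![x, y] := by
  have h := A.map_update_smul ![x, y] 1 c y
  have e : ∀ z : X 𝕜, Function.update ![x, y] 1 z = ![x, z] := by
    intro z
    funext i
    rcases poly_fin2 i with rfl | rfl
    · simp
    · simp
  rwa [e, e] at h

private theorem poly_norm (A : ContinuousMultilinearMap 𝕜 (fun _ : Fin 2 => X 𝕜) 𝕜)
    (x y : X 𝕜) : ‖A ![x, y]‖ ≤ ‖A‖ * ‖x‖ * ‖y‖ := by
  have h := A.le_opNorm ![x, y]
  rw [Fin.prod_univ_two] at h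
  rw [mul_assoc]
  exact h

theorem symB (A : ContinuousMultilinearMap 𝕜 (fun _ : Fin 2 => X 𝕜) 𝕜) :
    ∃ B : X 𝕜 →L[𝕜] X 𝕜 →L[𝕜] 𝕜, (∀ x y, B x y = B y x) ∧ ∀ x, B x x = A (fun _ => x) := by
  have h2 : (2 : 𝕜) ≠ 0 := two_ne_zero
  let L : X 𝕜 →ₗ[𝕜] X 𝕜 →ₗ[𝕜] 𝕜 := LinearMap.mk₂ 𝕜
    (fun x y => (2 : 𝕜)⁻¹ * (A ![x, y] + A ![y, x]))
    (fun x x' y => by
      rw [poly_add0, poly_add1]
      ring)
    (fun c x y => by
      rw [poly_smul0, poly_smul1, smul_eq_mul, smul_eq_mul, smul_eq_mul]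
      ring)
    (fun x y y' => by
      rw [poly_add0, poly_add1]
      ring)
    (fun c x y => by
      rw [poly_smul0, poly_smul1, smul_eq_mul, smul_eq_mul, smul_eq_mul]
      ring)
  have hL : ∀ x y, L x y = (2 : 𝕜)⁻¹ * (A ![x, y] + A ![y, x]) := fun x y => rfl
  have hn : ∀ x y, ‖L x y‖ ≤ ‖A‖ * ‖x‖ * ‖y‖ := by
    intro x y
    rw [hL, norm_mul, norm_inv, RCLike.norm_ofNat]
    have h1 := norm_add_le (A ![x, y]) (A ![y, x])
    have h3 := poly_norm A x y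
    have h4 := poly_norm A y x
    have e : ‖A‖ * ‖y‖ * ‖x‖ = ‖A‖ * ‖x‖ * ‖y‖ := by ring
    rw [e] at h4
    linarith
  refine ⟨L.mkContinuous₂ ‖A‖ hn, fun x y => ?_, fun x => ?_⟩
  · rw [LinearMap.mkContinuous₂_apply, LinearMap.mkContinuous₂_apply, hL, hL, add_comm]
  · rw [LinearMap.mkContinuous₂_apply, hL]
    have e : (![x, x] : Fin 2 → X 𝕜) = fun _ => x := by
      funext i
      rcases poly_fin2 i with rfl | rfl
      · simp
      · simp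
    rw [e, ← two_mul, ← mul_assoc, inv_mul_cancel₀ h2, one_mul]

theorem poly_attains (A : ContinuousMultilinearMap 𝕜 (fun _ : Fin 2 => X 𝕜) 𝕜) :
    ∃ x : X 𝕜, ‖x‖ = 1 ∧ ∀ y : X 𝕜, ‖y‖ ≤ 1 → ‖A (fun _ => y)‖ ≤ ‖A (fun _ => x)‖ := by
  obtain ⟨B, hB, hBA⟩ := symB A
  set S : Set ℝ := {r | ∃ y : X 𝕜, ‖y‖ ≤ 1 ∧ r = ‖A (fun _ => y)‖} with hS
  have hne : S.Nonempty := ⟨_, 0, by rw [norm_zero]; exact zero_le_one, rfl⟩
  have hbd : BddAbove S := by
    refine ⟨‖A‖, ?_⟩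
    rintro r ⟨y, hy, rfl⟩
    have h1 := A.le_opNorm (fun _ => y)
    rw [Fin.prod_univ_two] at h1
    refine h1.trans ?_
    have h3 : ‖y‖ * ‖y‖ ≤ 1 := mul_le_one₀ hy (norm_nonneg _) hy
    exact mul_le_of_le_one_right (norm_nonneg _) h3
  obtain ⟨u, -, hu, huS⟩ := exists_seq_tendsto_sSup hne hbd
  choose y hy hyu using huS
  obtain ⟨φ, z, hφ, hz⟩ := exists_CW hy
  have hz1 : ‖z‖ ≤ 1 := hz.norm_le
  have h1 := (hz.bil B hB).norm
  simp only [hBA] at h1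
  have h2 : Tendsto (fun n => ‖A (fun _ => y (φ n))‖) atTop (𝓝 (sSup S)) := by
    have h3 := hu.comp hφ.tendsto_atTop
    refine h3.congr fun n => ?_
    exact hyu (φ n)
  have h3 : ‖A (fun _ => z)‖ = sSup S := tendsto_nhds_unique h1 h2
  have h4 : ∀ w : X 𝕜, ‖w‖ ≤ 1 → ‖A (fun _ => w)‖ ≤ ‖A (fun _ => z)‖ := by
    intro w hw
    rw [h3]
    exact le_csSup hbd ⟨w, hw, rfl⟩
  by_cases hz0 : z = 0
  · refine ⟨ee 𝕜 0, norm_ee 0, fun w hw => ?_⟩
    have h5 := h4 w hw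
    rw [← hBA z, hz0, map_zero, norm_zero] at h5
    exact h5.trans (norm_nonneg _)
  · have hzn : 0 < ‖z‖ := norm_pos_iff.2 hz0
    refine ⟨((‖z‖⁻¹ : ℝ) : 𝕜) • z, ?_, fun w hw => (h4 w hw).trans ?_⟩
    · rw [norm_smul, RCLike.norm_ofReal, abs_of_pos (inv_pos.2 hzn), inv_mul_cancel₀ hzn.ne']
    · rw [← hBA, ← hBA, map_smul, map_smul, smul_apply, norm_smul, norm_smul,
        RCLike.norm_ofReal, abs_of_pos (inv_pos.2 hzn)]
      have h5 : 1 ≤ ‖z‖⁻¹ := (one_le_inv₀ hzn).2 hz1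
      have h6 : 1 * ‖B z z‖ ≤ ‖z‖⁻¹ * ‖B z z‖ := mul_le_mul_of_nonneg_right h5 (norm_nonneg _)
      have h7 : 1 * (‖z‖⁻¹ * ‖B z z‖) ≤ ‖z‖⁻¹ * (‖z‖⁻¹ * ‖B z z‖) :=
        mul_le_mul_of_nonneg_right h5 (by positivity)
      linarith

theorem poly_wsc (A : ContinuousMultilinearMap 𝕜 (fun _ : Fin 2 => X 𝕜) 𝕜) (y : ℕ → X 𝕜) (z : X 𝕜)
    (h : ∀ f : X 𝕜 →L[𝕜] 𝕜, Tendsto (fun n => f (y n)) atTop (𝓝 (f z))) :
    Tendsto (fun n => A (fun _ => y n)) atTop (𝓝 (A (fun _ => z))) := by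
  obtain ⟨C, hC⟩ := CW.of_weak h
  obtain ⟨B, hB, hBA⟩ := symB A
  have h1 := hC.bil B hB
  simpa only [hBA] using h1

end Pool.Agent.NAP
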