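import Pool.Agent.NAP.Basic

/-!
# NAP / Space: the Banach space `X 𝕜`

`Sq 𝕜` is the space of all sequences of vectors of dimension two over `𝕜`, `om` the symplectic form on
`𝕜 × 𝕜`, `AP M x y = ∑_(n < M) ‖om (x n) (y n)‖`. `GG 𝕜` is the set of all `h` with `AP M h a ≤ 1` for all
atoms `a` and all `M`. The norm of `X 𝕜` is `sup AP M h y` over `h ∈ GG 𝕜` and `M`.
-/

namespace Pool.Agent.NAP

/-- sequences of vectors of dimension two -/
abbrev Sq (𝕜 : Type) : Type := ℕ → 𝕜 × 𝕜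

variable {𝕜 : Type} [RCLike 𝕜]

/-- symplectic form in dimension two -/
def om (x y : 𝕜 × 𝕜) : 𝕜 := x.1 * y.2 - x.2 * y.1

theorem om_add_left (x x' y : 𝕜 × 𝕜) : om (x + x') y = om x y + om x' y := by
  simp only [om, Prod.fst_add, Prod.snd_add]; ring

theorem om_add_right (x y y' : 𝕜 × 𝕜) : om x (y + y') = om x y + om x y' := by
  simp only [om, Prod.fst_add, Prod.snd_add]; ring

theorem om_smul_left (c : 𝕜) (x y : 𝕜 × 𝕜) : om (c • x) y = c * om x y := by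
  simp only [om, Prod.smul_fst, Prod.smul_snd, smul_eq_mul]; ring

theorem om_smul_right (c : 𝕜) (x y : 𝕜 × 𝕜) : om x (c • y) = c * om x y := by
  simp only [om, Prod.smul_fst, Prod.smul_snd, smul_eq_mul]; ring

theorem om_antisymm (x y : 𝕜 × 𝕜) : om x y = - om y x := by
  simp only [om]; ring

theorem om_zero_left (y : 𝕜 × 𝕜) : om 0 y = 0 := by simp [om]

theorem om_zero_right (x : 𝕜 × 𝕜) : om x 0 = 0 := by simp [om]

/-- sum of the absolute values of the symplectic products -/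
noncomputable def AP (M : ℕ) (x y : Sq 𝕜) : ℝ := ∑ n ∈ Finset.range M, ‖om (x n) (y n)‖

theorem AP_nonneg (M : ℕ) (x y : Sq 𝕜) : 0 ≤ AP M x y :=
  Finset.sum_nonneg fun _ _ => norm_nonneg _

theorem AP_comm (M : ℕ) (x y : Sq 𝕜) : AP M x y = AP M y x := by
  unfold AP
  refine Finset.sum_congr rfl fun n _ => ?_
  rw [om_antisymm, norm_neg]

theorem AP_mono {M M' : ℕ} (h : M ≤ M') (x y : Sq 𝕜) : AP M x y ≤ AP M' x y := by
  unfold AP
  exact Finset.sum_le_sum_of_subset_of_nonneg (Finset.range_mono h) fun _ _ _ => norm_nonneg _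

theorem AP_add_right (M : ℕ) (x y y' : Sq 𝕜) : AP M x (y + y') ≤ AP M x y + AP M x y' := by
  unfold AP
  rw [← Finset.sum_add_distrib]
  refine Finset.sum_le_sum fun n _ => ?_
  rw [Pi.add_apply, om_add_right]
  exact norm_add_le _ _

theorem AP_smul_right (M : ℕ) (c : 𝕜) (x y : Sq 𝕜) : AP M x (c • y) = ‖c‖ * AP M x y := by
  unfold AP
  rw [Finset.mul_sum]
  refine Finset.sum_congr rfl fun n _ => ?_
  rw [Pi.smul_apply, om_smul_right, norm_mul]

theorem AP_zero_right (M : ℕ) (x : Sq 𝕜) : AP M x 0 = 0 := by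
  unfold AP
  exact Finset.sum_eq_zero fun n _ => by rw [Pi.zero_apply, om_zero_right, norm_zero]

/-- finitely supported rational sequences as sequences over `𝕜` -/
def emb (𝕜 : Type) [RCLike 𝕜] (v : V) : Sq 𝕜 := fun n => (((v n).1 : 𝕜), ((v n).2 : 𝕜))

theorem emb_add (v w : V) : emb 𝕜 (v + w) = emb 𝕜 v + emb 𝕜 w := by
  funext n
  ext <;> simp [emb]

theorem emb_smul (c : ℚ) (v : V) : emb 𝕜 (c • v) = (c : 𝕜) • emb 𝕜 v := by
  funext n
  ext <;> simp [emb]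

theorem norm_om_emb (v w : V) (n : ℕ) : ‖om (emb 𝕜 v n) (emb 𝕜 w n)‖ =
    ((|(v n).1 * (w n).2 - (v n).2 * (w n).1| : ℚ) : ℝ) := by
  have h : om (emb 𝕜 v n) (emb 𝕜 w n) = (((v n).1 * (w n).2 - (v n).2 * (w n).1 : ℚ) : 𝕜) := by
    unfold om emb
    push_cast
    ring
  rw [h]
  have h2 : (((v n).1 * (w n).2 - (v n).2 * (w n).1 : ℚ) : 𝕜) =
      ((((v n).1 * (w n).2 - (v n).2 * (w n).1 : ℚ) : ℝ) : 𝕜) := by
    push_cast
    ring
  rw [h2, RCLike.norm_ofReal, Rat.cast_abs]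

/-- dual ball -/
def GG (𝕜 : Type) [RCLike 𝕜] : Set (Sq 𝕜) := {h | ∀ M a L, Atom a L → AP M h (emb 𝕜 a) ≤ 1}

theorem zero_mem_GG : (0 : Sq 𝕜) ∈ GG 𝕜 := by
  intro M a L _
  rw [AP_comm, AP_zero_right]
  exact zero_le_one

/-- the coordinate functionals -/
theorem single_mem_GG (n : ℕ) (z : 𝕜 × 𝕜) (hz1 : ‖z.1‖ ≤ 1) (hz2 : ‖z.2‖ ≤ 1) :
    (Pi.single n z : Sq 𝕜) ∈ GG 𝕜 := by
  intro M a L ha
  have h1 : AP M (Pi.single n z : Sq 𝕜) (emb 𝕜 a) ≤ ‖om z (emb 𝕜 a n)‖ := by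
    unfold AP
    by_cases hn : n ∈ Finset.range M
    · rw [Finset.sum_eq_single_of_mem n hn]
      · rw [Pi.single_eq_same]
      · intro m _ hm
        rw [Pi.single_eq_of_ne hm, om_zero_left, norm_zero]
    · rw [Finset.sum_eq_zero]
      · exact norm_nonneg _
      · intro m hm
        have : m ≠ n := fun h => hn (h ▸ hm)
        rw [Pi.single_eq_of_ne this, om_zero_left, norm_zero]
  refine h1.trans ?_
  have h2 : ‖om z (emb 𝕜 a n)‖ ≤ ‖emb 𝕜 a n |>.2‖ + ‖emb 𝕜 a n |>.1‖ := by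
    unfold om
    refine (norm_sub_le _ _).trans ?_
    rw [norm_mul, norm_mul]
    exact add_le_add (mul_le_of_le_one_left (norm_nonneg _) hz1)
      (mul_le_of_le_one_left (norm_nonneg _) hz2)
  have h3 : ∀ q : ℚ, ‖(q : 𝕜)‖ = ((|q| : ℚ) : ℝ) := by
    intro q
    have : (q : 𝕜) = ((q : ℝ) : 𝕜) := by push_cast; ring
    rw [this, RCLike.norm_ofReal, Rat.cast_abs]
  have h4 : ‖emb 𝕜 a n |>.2‖ + ‖emb 𝕜 a n |>.1‖ = ((c1 a n : ℚ) : ℝ) := by
    unfold emb c1
    rw [h3, h3]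
    push_cast
    ring
  rw [h4] at h2
  refine h2.trans ?_
  exact_mod_cast ha.c1_le n

/-- the subspace of sequences of finite norm -/
def XS (𝕜 : Type) [RCLike 𝕜] : Submodule 𝕜 (Sq 𝕜) where
  carrier := {y | ∃ C, ∀ h ∈ GG 𝕜, ∀ M, AP M h y ≤ C}
  add_mem' := by
    rintro y y' ⟨C, hC⟩ ⟨C', hC'⟩
    exact ⟨C + C', fun h hh M => (AP_add_right M h y y').trans
      (add_le_add (hC h hh M) (hC' h hh M))⟩
  zero_mem' := ⟨0, fun h _ M => (AP_zero_right M h).le⟩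
  smul_mem' := by
    rintro c y ⟨C, hC⟩
    refine ⟨‖c‖ * C, fun h hh M => ?_⟩
    rw [AP_smul_right]
    exact mul_le_mul_of_nonneg_left (hC h hh M) (norm_nonneg _)

/-- the Banach space -/
def X (𝕜 : Type) [RCLike 𝕜] : Type := XS 𝕜

noncomputable instance : AddCommGroup (X 𝕜) := inferInstanceAs (AddCommGroup (XS 𝕜))

noncomputable instance : Module 𝕜 (X 𝕜) := inferInstanceAs (Module 𝕜 (XS 𝕜))

/-- the coordinates -/
def crd : X 𝕜 →ₗ[𝕜] Sq 𝕜 := (XS 𝕜).subtype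

theorem crd_injective : Function.Injective (crd : X 𝕜 → Sq 𝕜) := Subtype.val_injective

theorem X.ext {x y : X 𝕜} (h : ∀ n, crd x n = crd y n) : x = y := crd_injective (funext h)

theorem crd_bdd (x : X 𝕜) : ∃ C, ∀ h ∈ GG 𝕜, ∀ M, AP M h (crd x) ≤ C := x.2

/-- the values whose supremum is the norm -/
def vals (x : X 𝕜) : Set ℝ := {r | ∃ h ∈ GG 𝕜, ∃ M, r = AP M h (crd x)}

theorem vals_nonempty (x : X 𝕜) : (vals x).Nonempty := ⟨_, 0, zero_mem_GG, 0, rfl⟩

theorem vals_bdd (x : X 𝕜) : BddAbove (vals x) := by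
  obtain ⟨C, hC⟩ := crd_bdd x
  refine ⟨C, ?_⟩
  rintro r ⟨h, hh, M, rfl⟩
  exact hC h hh M

noncomputable instance : Norm (X 𝕜) := ⟨fun x => sSup (vals x)⟩

theorem norm_def (x : X 𝕜) : ‖x‖ = sSup (vals x) := rfl

theorem AP_le_norm (x : X 𝕜) {h : Sq 𝕜} (hh : h ∈ GG 𝕜) (M : ℕ) : AP M h (crd x) ≤ ‖x‖ :=
  le_csSup (vals_bdd x) ⟨h, hh, M, rfl⟩

theorem norm_le_of {x : X 𝕜} {C : ℝ} (hC : ∀ h ∈ GG 𝕜, ∀ M, AP M h (crd x) ≤ C) : ‖x‖ ≤ C := by
  refine csSup_le (vals_nonempty x) ?_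
  rintro r ⟨h, hh, M, rfl⟩
  exact hC h hh M

theorem norm_nonneg' (x : X 𝕜) : 0 ≤ ‖x‖ := by
  refine le_trans ?_ (AP_le_norm x zero_mem_GG 0)
  exact AP_nonneg _ _ _

theorem coord_le (x : X 𝕜) (n : ℕ) : ‖(crd x n).1‖ ≤ ‖x‖ ∧ ‖(crd x n).2‖ ≤ ‖x‖ := by
  constructor
  · have h := AP_le_norm x (single_mem_GG (𝕜 := 𝕜) n (0, 1) (by simp) (by simp)) (n + 1)
    refine le_trans ?_ h
    unfold AP
    refine le_trans ?_ (Finset.single_le_sum (f := fun m =>
      ‖om ((Pi.single n ((0, 1) : 𝕜 × 𝕜) : Sq 𝕜) m) (crd x m)‖) (fun _ _ => norm_nonneg _)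
      (Finset.mem_range.2 (Nat.lt_succ_self n)))
    simp [om]
  · have h := AP_le_norm x (single_mem_GG (𝕜 := 𝕜) n (1, 0) (by simp) (by simp)) (n + 1)
    refine le_trans ?_ h
    unfold AP
    refine le_trans ?_ (Finset.single_le_sum (f := fun m =>
      ‖om ((Pi.single n ((1, 0) : 𝕜 × 𝕜) : Sq 𝕜) m) (crd x m)‖) (fun _ _ => norm_nonneg _)
      (Finset.mem_range.2 (Nat.lt_succ_self n)))
    simp [om]

theorem core : NormedSpace.Core 𝕜 (X 𝕜) where
  norm_nonneg := norm_nonneg'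
  norm_smul := by
    intro c x
    apply le_antisymm
    · refine norm_le_of fun h hh M => ?_
      rw [map_smul, AP_smul_right]
      exact mul_le_mul_of_nonneg_left (AP_le_norm x hh M) (norm_nonneg _)
    · by_cases hc : c = 0
      · rw [hc, norm_zero, zero_mul]
        exact norm_nonneg' _
      · have hc' : 0 < ‖c‖ := norm_pos_iff.2 hc
        rw [← le_div_iff₀' hc']
        refine norm_le_of fun h hh M => ?_
        rw [le_div_iff₀' hc', ← AP_smul_right, ← map_smul]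
        exact AP_le_norm _ hh M
  norm_triangle := by
    intro x y
    refine norm_le_of fun h hh M => ?_
    rw [map_add]
    exact (AP_add_right M h _ _).trans (add_le_add (AP_le_norm x hh M) (AP_le_norm y hh M))
  norm_eq_zero_iff := by
    intro x
    constructor
    · intro hx
      refine X.ext fun n => ?_
      have h := coord_le x n
      rw [hx] at h
      have h1 := norm_le_zero_iff.1 h.1
      have h2 := norm_le_zero_iff.1 h.2
      rw [map_zero, Pi.zero_apply]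
      exact Prod.ext h1 h2
    · rintro rfl
      apply le_antisymm _ (norm_nonneg' _)
      refine norm_le_of fun h hh M => ?_
      rw [map_zero, AP_zero_right]

noncomputable instance : NormedAddCommGroup (X 𝕜) := NormedAddCommGroup.ofCore core

noncomputable instance : NormedSpace 𝕜 (X 𝕜) := NormedSpace.ofCore core

end Pool.Agent.NAP
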