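import Pool.Agent.NAP.Space

/-!
# NAP / SpaceC: cutting off

* `cut θ`: multiplication with a function `θ : ℕ → 𝕜` with `‖θ n‖ ≤ 1` does not increase the norm, because
  `AP M h (θ y) ≤ AP M h y`. `pr N` keeps the coordinates `n ≤ N`.
* `h_coord`: for `h ∈ GG` both components of every coordinate are at most one (test with the leaves
  `single n (0, 1)`, `single n (1, 0)`, which are atoms, `M = n + 1`).
* `norm_pr_le_sum`: `AP M h (crd (pr N x)) ≤ ∑_(n ≤ N) ‖om (h n) (x n)‖ ≤ ∑ (‖(x n).1‖ + ‖(x n).2‖)`.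
-/

namespace Pool.Agent.NAP

open Filter Topology

variable {𝕜 : Type} [RCLike 𝕜]

/-- elements of the space from their coordinates -/
def mkX (y : Sq 𝕜) (h : ∃ C, ∀ h ∈ GG 𝕜, ∀ M, AP M h y ≤ C) : X 𝕜 := ⟨y, h⟩

@[simp] theorem crd_mkX (y : Sq 𝕜) (h : ∃ C, ∀ h ∈ GG 𝕜, ∀ M, AP M h y ≤ C) :
    crd (mkX y h) = y := rfl

private theorem spc_leaf (n : ℕ) (z : ℚ × ℚ) (hz : |z.1| + |z.2| ≤ 1) :
    Atom (Finsupp.single n z) (Sum.inr n) := by
  refine ⟨0, n, rfl, fun k hk => ?_, ?_⟩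
  · exact Finsupp.single_eq_of_ne hk
  · unfold c1
    rw [Finsupp.single_eq_same]
    exact hz

private theorem spc_term {h : Sq 𝕜} (hh : h ∈ GG 𝕜) (n : ℕ) (z : ℚ × ℚ)
    (hz : |z.1| + |z.2| ≤ 1) : ‖om (h n) ((z.1 : 𝕜), (z.2 : 𝕜))‖ ≤ 1 := by
  have h1 := hh (n + 1) _ _ (spc_leaf n z hz)
  refine le_trans ?_ h1
  unfold AP
  refine le_trans (le_of_eq ?_) (Finset.single_le_sum (f := fun m =>
    ‖om (h m) (emb 𝕜 (Finsupp.single n z) m)‖) (fun _ _ => norm_nonneg _)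
    (Finset.mem_range.2 (Nat.lt_succ_self n)))
  have h2 : emb 𝕜 (Finsupp.single n z) n = ((z.1 : 𝕜), (z.2 : 𝕜)) := by
    unfold emb
    rw [Finsupp.single_eq_same]
  simp only [h2]

theorem h_coord {h : Sq 𝕜} (hh : h ∈ GG 𝕜) (n : ℕ) : ‖(h n).1‖ ≤ 1 ∧ ‖(h n).2‖ ≤ 1 := by
  constructor
  · have h1 := spc_term hh n (0, 1) (by simp)
    simpa [om] using h1
  · have h1 := spc_term hh n (1, 0) (by simp)
    simpa [om] using h1

theorem AP_cut_le {θ : ℕ → 𝕜} (hθ : ∀ n, ‖θ n‖ ≤ 1) (M : ℕ) (x y : Sq 𝕜) :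
    AP M x (fun n => θ n • y n) ≤ AP M x y := by
  unfold AP
  refine Finset.sum_le_sum fun n _ => ?_
  rw [om_smul_right, norm_mul]
  exact mul_le_of_le_one_left (norm_nonneg _) (hθ n)

/-- multiplication of the coordinates -/
theorem exists_cut (θ : ℕ → 𝕜) (hθ : ∀ n, ‖θ n‖ ≤ 1) : ∃ T : X 𝕜 →L[𝕜] X 𝕜,
    (∀ x n, crd (T x) n = θ n • crd x n) ∧ ∀ x, ‖T x‖ ≤ ‖x‖ := by
  have hb : ∀ x : X 𝕜, ∃ C, ∀ h ∈ GG 𝕜, ∀ M, AP M h (fun n => θ n • crd x n) ≤ C := fun x =>
    ⟨‖x‖, fun h hh M => (AP_cut_le hθ M h (crd x)).trans (AP_le_norm x hh M)⟩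
  let L : X 𝕜 →ₗ[𝕜] X 𝕜 :=
    { toFun := fun x => mkX (fun n => θ n • crd x n) (hb x)
      map_add' := fun x y => X.ext fun n => by
        have h1 : crd (mkX (fun n => θ n • crd (x + y) n) (hb (x + y))) n =
            θ n • crd (x + y) n := rfl
        have h2 : crd (mkX (fun n => θ n • crd x n) (hb x)) n = θ n • crd x n := rfl
        have h3 : crd (mkX (fun n => θ n • crd y n) (hb y)) n = θ n • crd y n := rfl
        rw [map_add crd (mkX (fun n => θ n • crd x n) (hb x)), Pi.add_apply, h1, h2, h3,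
          map_add, Pi.add_apply, smul_add]
      map_smul' := fun c x => X.ext fun n => by
        have h1 : crd (mkX (fun n => θ n • crd (c • x) n) (hb (c • x))) n =
            θ n • crd (c • x) n := rfl
        have h2 : crd (mkX (fun n => θ n • crd x n) (hb x)) n = θ n • crd x n := rfl
        rw [RingHom.id_apply, map_smul crd c (mkX (fun n => θ n • crd x n) (hb x)),
          Pi.smul_apply, h1, h2, map_smul, Pi.smul_apply, smul_comm] }
  have hL : ∀ x n, crd (L x) n = θ n • crd x n := fun x n => rfl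
  have hn : ∀ x, ‖L x‖ ≤ ‖x‖ := by
    intro x
    refine norm_le_of fun h hh M => ?_
    have h1 : crd (L x) = fun n => θ n • crd x n := funext fun n => hL x n
    rw [h1]
    exact (AP_cut_le hθ M h (crd x)).trans (AP_le_norm x hh M)
  refine ⟨L.mkContinuous 1 fun x => by rw [one_mul]; exact hn x, ?_, ?_⟩
  · intro x n
    exact hL x n
  · intro x
    exact hn x

/-- keep the coordinates `n ≤ N` -/
noncomputable def pr (N : ℕ) : X 𝕜 →L[𝕜] X 𝕜 :=
  Classical.choose (exists_cut (𝕜 := 𝕜) (fun n => if n ≤ N then 1 else 0) (by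
    intro n
    split_ifs <;> simp))

theorem crd_pr (N : ℕ) (x : X 𝕜) (n : ℕ) : crd (pr N x) n = if n ≤ N then crd x n else 0 := by
  have h := (Classical.choose_spec (exists_cut (𝕜 := 𝕜) (fun n => if n ≤ N then 1 else 0) (by
    intro n
    split_ifs <;> simp))).1 x n
  refine h.trans ?_
  split_ifs
  · rw [one_smul]
  · rw [zero_smul]

theorem norm_pr_le (N : ℕ) (x : X 𝕜) : ‖pr N x‖ ≤ ‖x‖ :=
  (Classical.choose_spec (exists_cut (𝕜 := 𝕜) (fun n => if n ≤ N then 1 else 0) (by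
    intro n
    split_ifs <;> simp))).2 x

private theorem spc_cut_norm {x y : X 𝕜} {θ : ℕ → 𝕜} (hθ : ∀ n, ‖θ n‖ ≤ 1)
    (h : ∀ n, crd y n = θ n • crd x n) : ‖y‖ ≤ ‖x‖ := by
  refine norm_le_of fun g hg M => ?_
  have h1 : crd y = fun n => θ n • crd x n := funext h
  rw [h1]
  exact (AP_cut_le hθ M g (crd x)).trans (AP_le_norm x hg M)

private theorem spc_crd_sub (N : ℕ) (x : X 𝕜) (n : ℕ) :
    crd (x - pr N x) n = if n ≤ N then 0 else crd x n := by
  rw [map_sub, Pi.sub_apply, crd_pr]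
  split_ifs
  · rw [sub_self]
  · rw [sub_zero]

private theorem spc_theta (N : ℕ) (n : ℕ) : ‖(if n ≤ N then (0 : 𝕜) else 1)‖ ≤ 1 := by
  split_ifs <;> simp

theorem norm_sub_pr_le (N : ℕ) (x : X 𝕜) : ‖x - pr N x‖ ≤ ‖x‖ := by
  refine spc_cut_norm (θ := fun n => if n ≤ N then 0 else 1) (spc_theta N) fun n => ?_
  rw [spc_crd_sub]
  by_cases h : n ≤ N
  · simp only [if_pos h, zero_smul]
  · simp only [if_neg h, one_smul]

theorem norm_sub_pr_anti {N N' : ℕ} (h : N ≤ N') (x : X 𝕜) : ‖x - pr N' x‖ ≤ ‖x - pr N x‖ := by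
  refine spc_cut_norm (θ := fun n => if n ≤ N' then 0 else 1) (spc_theta N') fun n => ?_
  rw [spc_crd_sub, spc_crd_sub]
  by_cases h1 : n ≤ N'
  · simp only [if_pos h1, zero_smul]
  · have h2 : ¬ n ≤ N := fun h3 => h1 (h3.trans h)
    simp only [if_neg h1, if_neg h2, one_smul]

theorem norm_pr_le_sum (N : ℕ) (x : X 𝕜) :
    ‖pr N x‖ ≤ ∑ n ∈ Finset.range (N + 1), (‖(crd x n).1‖ + ‖(crd x n).2‖) := by
  refine norm_le_of fun h hh M => ?_
  unfold AP
  have h1 : ∀ n ∈ Finset.range M, ‖om (h n) (crd (pr N x) n)‖ ≤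
      if n ∈ Finset.range (N + 1) then ‖(crd x n).1‖ + ‖(crd x n).2‖ else 0 := by
    intro n _
    rw [crd_pr]
    by_cases hn : n ≤ N
    · rw [if_pos hn, if_pos (Finset.mem_range.2 (by omega))]
      unfold om
      refine (norm_sub_le _ _).trans ?_
      rw [norm_mul, norm_mul, add_comm]
      exact add_le_add (mul_le_of_le_one_left (norm_nonneg _) (h_coord hh n).2)
        (mul_le_of_le_one_left (norm_nonneg _) (h_coord hh n).1)
    · rw [if_neg hn, if_neg (fun h2 => hn (by rw [Finset.mem_range] at h2; omega)),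
        om_zero_right, norm_zero]
  refine (Finset.sum_le_sum h1).trans ?_
  rw [← Finset.sum_filter]
  refine Finset.sum_le_sum_of_subset_of_nonneg ?_ fun n _ _ =>
    add_nonneg (norm_nonneg _) (norm_nonneg _)
  intro n hn
  exact (Finset.mem_filter.1 hn).2

end Pool.Agent.NAP
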