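import Pool.Agent.NAP.Basic

/-!
# NAP / Split: an atom of index `j` whose coordinates up to `N` vanish

`split`: take the common form `h.node`: windows `t`, constituents `u r = (1/2) (a r + b r)`. Let
`θ = indc (N < ·)`; `v = th θ v = (1/m_j) ∑ (1/2) (th θ (a r) + th θ (b r))` (`th_indc_eq_self`, `th_sum`,
`th_smul`, `th_add`). If `t (r + 1) ≤ N` for all `r < k` then all `th θ (a r) = 0` and `v = 0`: take `k = 0`,
`a0 = b0 = 0` (`atom_zero`). Otherwise let `r0 < k` be the smallest `r` with `N < t (r + 1)`. For `r < r0`: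
`t (r + 1) ≤ N`, so `th θ (a r) = 0` (`th_indc_eq_zero`). `a0 = th θ (a r0)`, `b0 = th θ (b r0)`. For
`r0 < r < k`: `t r ≥ t (r0 + 1) > N`, so `a r` vanishes up to `N`, `th θ (a r) = a r`, and its label is larger
than `t r > N`: these are the at most `k - r0 - 1 ≤ n_j` others (reindex `r = r0 + 1 + r'`).

`split_bound`: insert; `1/m_j ≤ 1/2` and `1/m_j ≤ 1`; the half sums are bounded by `c` and `e`.
-/

namespace Pool.Agent.NAP

private theorem th_low {N : ℕ} {v : V} {s t : ℕ} (h : Sup v s t) (ht : t ≤ N) :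
    th (indc (fun n => N < n)) v = 0 := by
  apply th_indc_eq_zero
  intro n hn
  have := (h n hn).2
  omega

private theorem th_high {N : ℕ} {v : V} {s t : ℕ} (h : Sup v s t) (ht : N ≤ s) :
    th (indc (fun n => N < n)) v = v := by
  apply th_indc_eq_self
  intro n hn
  have := (h n hn).1
  omega

private theorem th_TA {N : ℕ} {v : V} {L : Lab} (h : Atom v L) :
    TA N (th (indc (fun n => N < n)) v) := by
  classical
  refine ⟨fun n hn => ?_, L, h.th (abs_indc_le _)⟩
  rw [th_indc_apply, if_neg (not_lt.2 hn)]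

private theorem TA_zero (N : ℕ) : TA N 0 := ⟨fun _ _ => rfl, Sum.inr 0, atom_zero 0⟩

theorem split {v : V} {j N : ℕ} (h : Atom v (Sum.inl j)) (hv : Tl N v) :
    ∃ k ≤ nn j, ∃ (a0 b0 : V) (a b : ℕ → V), TA N a0 ∧ TA N b0 ∧
      (∀ r < k, TL N (a r) ∧ TL N (b r)) ∧
      v = (1 / (mm j : ℚ)) • ((1 / 2 : ℚ) • (a0 + b0) +
        ∑ r ∈ Finset.range k, (1 / 2 : ℚ) • (a r + b r)) := by
  classical
  obtain ⟨k, a, b, La, Lb, t, h⟩ := h.node
  have hself : th (indc (fun n => N < n)) v = v := by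
    apply th_indc_eq_self
    intro n hn
    by_contra h1
    exact hn (hv n (not_lt.1 h1))
  have hexp : v = (1 / (mm j : ℚ)) • ∑ r ∈ Finset.range k, (1 / 2 : ℚ) •
      (th (indc (fun n => N < n)) (a r) + th (indc (fun n => N < n)) (b r)) := by
    conv_lhs => rw [← hself, h.hv]
    rw [th_smul, th_sum]
    congr 1
    refine Finset.sum_congr rfl fun r _ => ?_
    rw [th_smul, th_add]
  by_cases hex : ∃ r, r < k ∧ N < t (r + 1)
  · have hr0 := Nat.find_spec hex
    have hmin : ∀ r, r < Nat.find hex → t (r + 1) ≤ N := by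
      intro r hr
      have h1 := Nat.find_min hex hr
      by_contra h2
      exact h1 ⟨lt_trans hr hr0.1, not_le.1 h2⟩
    obtain ⟨r0, hr0def⟩ : ∃ r0, r0 = Nat.find hex := ⟨_, rfl⟩
    rw [← hr0def] at hr0 hmin
    obtain ⟨K, hK⟩ : ∃ K, k = r0 + (K + 1) := ⟨k - r0 - 1, by omega⟩
    refine ⟨K, ?_, th (indc (fun n => N < n)) (a r0), th (indc (fun n => N < n)) (b r0),
      fun r => a (r0 + (r + 1)), fun r => b (r0 + (r + 1)), th_TA (h.ha r0 hr0.1),
      th_TA (h.hb r0 hr0.1), ?_, ?_⟩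
    · have := h.hk
      omega
    · intro r hr
      have h1 : r0 + (r + 1) < k := by omega
      have h2 : N < t (r0 + (r + 1)) := lt_of_lt_of_le hr0.2 (h.ht (by omega))
      exact ⟨⟨(h.sa _ h1).tl.mono h2.le, _, h.ha _ h1, lt_trans h2 (h.la _ h1).1⟩,
        ⟨(h.sb _ h1).tl.mono h2.le, _, h.hb _ h1, lt_trans h2 (h.lb _ h1).1⟩⟩
    · conv_lhs => rw [hexp, hK]
      rw [Finset.sum_range_add, Finset.sum_eq_zero, zero_add, Finset.sum_range_succ', add_zero,
        add_comm]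
      · congr 2
        refine Finset.sum_congr rfl fun r hr => ?_
        have h1 : r0 + (r + 1) < k := by
          have := Finset.mem_range.1 hr
          omega
        have h2 : N < t (r0 + (r + 1)) := lt_of_lt_of_le hr0.2 (h.ht (by omega))
        rw [th_high (h.sa _ h1) h2.le, th_high (h.sb _ h1) h2.le]
      · intro r hr
        have h1 := Finset.mem_range.1 hr
        have h2 : r < k := by omega
        rw [th_low (h.sa r h2) (hmin r h1), th_low (h.sb r h2) (hmin r h1), add_zero, smul_zero]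
  · push Not at hex
    refine ⟨0, Nat.zero_le _, 0, 0, fun _ => 0, fun _ => 0, TA_zero N, TA_zero N,
      fun r hr => absurd hr (Nat.not_lt_zero r), ?_⟩
    conv_lhs => rw [hexp]
    rw [Finset.sum_eq_zero]
    · simp
    · intro r hr
      have h2 := Finset.mem_range.1 hr
      rw [th_low (h.sa r h2) (hex r h2), th_low (h.sb r h2) (hex r h2), add_zero, smul_zero]

/-- bounds for rational linear functionals on half sums -/
theorem half_bound {φ : V →ₗ[ℚ] ℝ} {a b : V} {c : ℝ} (ha : |φ a| ≤ c) (hb : |φ b| ≤ c) :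
    |φ ((1 / 2 : ℚ) • (a + b))| ≤ c := by
  rw [map_smul, map_add, Rat.smul_def]
  push_cast
  rw [abs_mul, abs_of_pos (by norm_num : (0 : ℝ) < 1 / 2)]
  have := abs_add_le (φ a) (φ b)
  linarith

theorem split_bound {φ : V →ₗ[ℚ] ℝ} {N : ℕ} {c e : ℝ} (hc0 : 0 ≤ c) (he0 : 0 ≤ e)
    (hc : ∀ a, TA N a → |φ a| ≤ c) (he : ∀ a, TL N a → |φ a| ≤ e) {v : V} {j : ℕ}
    (h : Atom v (Sum.inl j)) (hv : Tl N v) : |φ v| ≤ c / 2 + nn j * e := by
  obtain ⟨k, hk, a0, b0, a, b, ha0, hb0, hab, hv'⟩ := split h hv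
  have h1 : |φ ((1 / 2 : ℚ) • (a0 + b0))| ≤ c := half_bound (hc a0 ha0) (hc b0 hb0)
  have h2 : |φ (∑ r ∈ Finset.range k, (1 / 2 : ℚ) • (a r + b r))| ≤ nn j * e := by
    rw [map_sum]
    refine (Finset.abs_sum_le_sum_abs _ _).trans ?_
    calc ∑ r ∈ Finset.range k, |φ ((1 / 2 : ℚ) • (a r + b r))|
        ≤ ∑ r ∈ Finset.range k, e := Finset.sum_le_sum fun r hr =>
          half_bound (he _ (hab r (Finset.mem_range.1 hr)).1) (he _ (hab r (Finset.mem_range.1 hr)).2)
      _ = k * e := by rw [Finset.sum_const, Finset.card_range, nsmul_eq_mul]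
      _ ≤ nn j * e := by
          have : (k : ℝ) ≤ nn j := by exact_mod_cast hk
          exact mul_le_mul_of_nonneg_right this he0
  have hm : (2 : ℝ) ≤ mm j := by exact_mod_cast two_le_mm j
  have hm1 : (1 : ℝ) / mm j ≤ 1 / 2 := one_div_le_one_div_of_le (by norm_num) hm
  have hm0 : (0 : ℝ) ≤ 1 / mm j := by positivity
  have hnn : (0 : ℝ) ≤ nn j * e := by positivity
  rw [hv', map_smul, Rat.smul_def]
  push_cast
  rw [abs_mul, abs_of_nonneg hm0, map_add]
  have h3 := abs_add_le (φ ((1 / 2 : ℚ) • (a0 + b0)))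
    (φ (∑ r ∈ Finset.range k, (1 / 2 : ℚ) • (a r + b r)))
  calc (1 : ℝ) / mm j * |φ ((1 / 2 : ℚ) • (a0 + b0)) +
        φ (∑ r ∈ Finset.range k, (1 / 2 : ℚ) • (a r + b r))|
      ≤ 1 / mm j * (c + nn j * e) := mul_le_mul_of_nonneg_left (h3.trans (add_le_add h1 h2)) hm0
    _ ≤ 1 / 2 * (c + nn j * e) := mul_le_mul_of_nonneg_right hm1 (by positivity)
    _ ≤ c / 2 + nn j * e := by linarith

end Pool.Agent.NAP
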