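import Pool.Agent.NAP.Kill

/-!
# NAP / Sym: a symmetric form is small on far atoms

`sym_one`: `∀ ε > 0, ∃ N, ∀ a b, TA N a → TL N b → |β a b| ≤ ε`. `halve` with
`P c = ∃ N, ∀ a b, TA N a → TL N b → |β a b| ≤ c`. Step: `c` holds from `N1`; by `kill` let `L1` belong to
`ε`, and `N2` to `e = ε / (1 + m_(L1)^3)`; `N = max`. Let `TA N v`, `TL N b`. If `v` is a leaf with label
`≤ N` then `v = 0`; if its label is larger than `N`, or `v` is a node of index `> L1`, then `TL L1 v` and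
`TL L1 b`, so `≤ ε`. If `v` is a node of index `j ≤ L1` then `split_bound` for `φ = a ↦ β a b` (`β.flip b`)
gives `c / 2 + n_j e ≤ c / 2 + ε`.

`sym_two`: the same once more: `P c = ∃ N, ∀ a b, TA N a → TA N b → |β a b| ≤ c`; now split `b`, with
`φ = β a` and `sym_one` in the place of `kill`.
-/

namespace Pool.Agent.NAP

private theorem Sym_gen {S : ℕ → V → Prop} (hS : ∀ N N' b, S N b → N' ≤ N → S N' b)
    {ψ : V → V →ₗ[ℚ] ℝ} {C : ℝ} (hC : 0 ≤ C) (h0 : ∀ a b, TA 0 a → S 0 b → |ψ b a| ≤ C)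
    (hk : ∀ ε : ℝ, 0 < ε → ∃ N, ∀ a b, TL N a → S N b → |ψ b a| ≤ ε) {ε : ℝ} (hε : 0 < ε) :
    ∃ N, ∀ a b, TA N a → S N b → |ψ b a| ≤ ε := by
  refine halve (P := fun c => ∃ N, ∀ a b, TA N a → S N b → |ψ b a| ≤ c) hC ⟨0, h0⟩ ?_ ?_ ε hε
  · rintro c c' hc ⟨N, hN⟩
    exact ⟨N, fun a b ha hb => (hN a b ha hb).trans hc⟩
  · rintro c hc ⟨N1, h1⟩ ε hε
    obtain ⟨L1, hL1⟩ := hk ε hε
    have hm : (0 : ℝ) < 1 + (mm L1 : ℝ) ^ 3 := by positivity
    obtain ⟨N2, h2⟩ := hk (ε / (1 + (mm L1 : ℝ) ^ 3)) (div_pos hε hm)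
    have hle1 : N1 ≤ max N1 (max L1 N2) := le_max_left _ _
    have hle2 : L1 ≤ max N1 (max L1 N2) := le_trans (le_max_left _ _) (le_max_right _ _)
    have hle3 : N2 ≤ max N1 (max L1 N2) := le_trans (le_max_right _ _) (le_max_right _ _)
    generalize max N1 (max L1 N2) = N at hle1 hle2 hle3
    refine ⟨N, fun v b hv hb => ?_⟩
    have hbig : TL L1 v → |ψ b v| ≤ c / 2 + ε := fun h =>
      (hL1 v b h (hS _ _ _ hb hle2)).trans (by linarith)
    obtain ⟨hv0, L, hL⟩ := hv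
    rcases L with j | m
    · rcases lt_or_ge L1 j with hj | hj
      · exact hbig ⟨hv0.mono hle2, _, hL, hj⟩
      · have h3 := split_bound (φ := ψ b) (N := N) (c := c) (e := ε / (1 + (mm L1 : ℝ) ^ 3)) hc
          (div_pos hε hm).le (fun a ha => h1 a b (ha.mono hle1) (hS _ _ _ hb hle1))
          (fun a ha => h2 a b (ha.mono hle3) (hS _ _ _ hb hle3)) hL hv0
        have h4 : (nn j : ℝ) ≤ (mm L1 : ℝ) ^ 3 := by
          have h5 : nn j ≤ mm L1 ^ 3 := (nn_le j).trans (Nat.pow_le_pow_left (mm_mono hj) 3)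
          exact_mod_cast h5
        have h6 : (nn j : ℝ) * (ε / (1 + (mm L1 : ℝ) ^ 3)) ≤ ε := by
          rw [← mul_div_assoc, div_le_iff₀ hm]
          nlinarith
        linarith
    · rcases lt_or_ge N m with hm1 | hm1
      · exact hbig ⟨hv0.mono hle2, _, hL, lt_of_le_of_lt hle2 hm1⟩
      · have h3 := atom_inr_eq_zero hL hv0 hm1
        rw [h3, map_zero, abs_zero]
        linarith

theorem sym_one {β : V →ₗ[ℚ] V →ₗ[ℚ] ℝ} {C : ℝ}
    (hβ : ∀ a L b L', Atom a L → Atom b L' → |β a b| ≤ C) (hsym : ∀ a b, β a b = β b a)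
    {ε : ℝ} (hε : 0 < ε) : ∃ N, ∀ a b, TA N a → TL N b → |β a b| ≤ ε := by
  have hC : 0 ≤ C := (abs_nonneg _).trans (hβ 0 _ 0 _ (atom_zero 0) (atom_zero 0))
  have h := Sym_gen (S := TL) (fun N N' b hb hN => hb.mono hN) (ψ := fun b => β.flip b) (C := C) hC
    (fun a b ha hb => by
      obtain ⟨-, L, hL⟩ := ha
      obtain ⟨-, L', hL', -⟩ := hb
      exact hβ a L b L' hL hL') (fun ε hε => kill hβ hsym hε) hε
  exact h

theorem sym_two {β : V →ₗ[ℚ] V →ₗ[ℚ] ℝ} {C : ℝ}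
    (hβ : ∀ a L b L', Atom a L → Atom b L' → |β a b| ≤ C) (hsym : ∀ a b, β a b = β b a)
    {ε : ℝ} (hε : 0 < ε) : ∃ N, ∀ a b, TA N a → TA N b → |β a b| ≤ ε := by
  have hC : 0 ≤ C := (abs_nonneg _).trans (hβ 0 _ 0 _ (atom_zero 0) (atom_zero 0))
  have h := Sym_gen (S := TA) (fun N N' b hb hN => hb.mono hN) (ψ := fun b => β.flip b) (C := C) hC
    (fun a b ha hb => by
      obtain ⟨-, L, hL⟩ := ha
      obtain ⟨-, L', hL'⟩ := hb
      exact hβ a L b L' hL hL') (fun ε hε => by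
        obtain ⟨N, hN⟩ := sym_one hβ hsym hε
        refine ⟨N, fun a b ha hb => ?_⟩
        have := hN b a hb ha
        rw [hsym] at this
        exact this) hε
  exact h

end Pool.Agent.NAP
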