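import Pool.Agent.NAP.Ext
import Pool.Agent.NAP.BC
import Pool.Agent.NAP.Sym

/-!
# NAP / Tail: functionals and symmetric bilinear forms are small on far elements

`ext_fun'`: `ext_fun` and `M → ∞` with `bc` and continuity of `f`.

`tail_fun`: `v ↦ re (f (iX v))` and `v ↦ im (f (iX v))` are `ℚ`-linear maps `V → ℝ` (`iX_add`, `iX_smul`), bounded
by `‖f‖` on atoms; by `shrink` both are at most `ε / 4` on all atoms vanishing up to some `N`; so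
`‖f (iX a)‖ ≤ ε / 2`, and `ext_fun'` gives `‖f x‖ ≤ ε ‖x‖`.

`tail_bil`: `(v, w) ↦ re (B (iX v) (iX w))` and `im` are `ℚ`-bilinear (`LinearMap.mk₂`), symmetric, bounded by `‖B‖` on atoms;
by `sym_two` both are at most `ε / 8` on all pairs of atoms vanishing up to `N`: `‖B (iX a) (iX b)‖ ≤ ε / 4`.
`ext_fun'` for `f = B (iX a)`: `‖B (iX a) y‖ ≤ (ε / 2) ‖y‖`; then `ext_fun'` for `f = B.flip y`,
`C = (ε / 2) ‖y‖`: `‖B x y‖ ≤ ε ‖y‖ ‖x‖`.
-/

namespace Pool.Agent.NAP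

open Filter Topology

variable {𝕜 : Type} [RCLike 𝕜]

theorem ext_fun' {f : X 𝕜 →L[𝕜] 𝕜} {C : ℝ} (hC : 0 ≤ C) {N : ℕ}
    (h : ∀ a, TA N a → ‖f (iX 𝕜 a)‖ ≤ C) {x : X 𝕜} (hx : TlX N x) : ‖f x‖ ≤ 2 * C * ‖x‖ := by
  have h1 : Tendsto (fun M => ‖f (pr M x)‖) atTop (𝓝 ‖f x‖) :=
    ((f.continuous.tendsto x).comp (bc x)).norm
  exact le_of_tendsto h1 (Eventually.of_forall fun M => ext_fun hC h hx M)

private theorem ratCast_mul_re (c : ℚ) (z : 𝕜) : RCLike.re ((c : 𝕜) * z) = (c : ℝ) * RCLike.re z := by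
  have h : (c : 𝕜) = ((c : ℝ) : 𝕜) := by push_cast; ring
  rw [h, RCLike.re_ofReal_mul]

private theorem ratCast_mul_im (c : ℚ) (z : 𝕜) : RCLike.im ((c : 𝕜) * z) = (c : ℝ) * RCLike.im z := by
  have h : (c : 𝕜) = ((c : ℝ) : 𝕜) := by push_cast; ring
  rw [h, RCLike.im_ofReal_mul]

private theorem norm_le_re_im (z : 𝕜) : ‖z‖ ≤ |RCLike.re z| + |RCLike.im z| := by
  have h := RCLike.re_add_im z
  calc ‖z‖ = ‖((RCLike.re z : ℝ) : 𝕜) + ((RCLike.im z : ℝ) : 𝕜) * RCLike.I‖ := by rw [h]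
    _ ≤ ‖((RCLike.re z : ℝ) : 𝕜)‖ + ‖((RCLike.im z : ℝ) : 𝕜) * RCLike.I‖ := norm_add_le _ _
    _ ≤ |RCLike.re z| + |RCLike.im z| := by
        rw [norm_mul, RCLike.norm_ofReal, RCLike.norm_ofReal]
        have hI : ‖(RCLike.I : 𝕜)‖ ≤ 1 := by
          rcases eq_or_ne (RCLike.I : 𝕜) 0 with h0 | h0
          · rw [h0, norm_zero]; norm_num
          · rw [RCLike.norm_I_of_ne_zero h0]
        have := mul_le_of_le_one_right (abs_nonneg (RCLike.im z)) hI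
        linarith

/-- real part of a functional as a linear map on finitely supported rational sequences -/
private noncomputable def reF (f : X 𝕜 →L[𝕜] 𝕜) : V →ₗ[ℚ] ℝ where
  toFun v := RCLike.re (f (iX 𝕜 v))
  map_add' v w := by rw [iX_add, map_add, map_add]
  map_smul' c v := by
    rw [iX_smul, map_smul, smul_eq_mul, ratCast_mul_re, RingHom.id_apply, Rat.smul_def]

/-- imaginary part -/
private noncomputable def imF (f : X 𝕜 →L[𝕜] 𝕜) : V →ₗ[ℚ] ℝ where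
  toFun v := RCLike.im (f (iX 𝕜 v))
  map_add' v w := by rw [iX_add, map_add, map_add]
  map_smul' c v := by
    rw [iX_smul, map_smul, smul_eq_mul, ratCast_mul_im, RingHom.id_apply, Rat.smul_def]

theorem tail_fun (f : X 𝕜 →L[𝕜] 𝕜) {ε : ℝ} (hε : 0 < ε) :
    ∃ N, ∀ x, TlX N x → ‖f x‖ ≤ ε * ‖x‖ := by
  have hb : ∀ a L, Atom a L → ‖f (iX 𝕜 a)‖ ≤ ‖f‖ := fun a L ha =>
    (f.le_opNorm _).trans (mul_le_of_le_one_right (norm_nonneg _) (norm_iX_le ha))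
  have h1 : ∀ a L, Atom a L → |reF f a| ≤ ‖f‖ := fun a L ha =>
    (RCLike.abs_re_le_norm _).trans (hb a L ha)
  have h2 : ∀ a L, Atom a L → |imF f a| ≤ ‖f‖ := fun a L ha =>
    (RCLike.abs_im_le_norm _).trans (hb a L ha)
  obtain ⟨N1, hN1⟩ := shrink h1 (show 0 < ε / 4 by linarith)
  obtain ⟨N2, hN2⟩ := shrink h2 (show 0 < ε / 4 by linarith)
  refine ⟨max N1 N2, fun x hx => ?_⟩
  have h3 : ∀ a, TA (max N1 N2) a → ‖f (iX 𝕜 a)‖ ≤ ε / 2 := by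
    intro a ha
    have h4 : |RCLike.re (f (iX 𝕜 a))| ≤ ε / 4 := hN1 a (ha.mono (le_max_left _ _))
    have h5 : |RCLike.im (f (iX 𝕜 a))| ≤ ε / 4 := hN2 a (ha.mono (le_max_right _ _))
    have h6 := norm_le_re_im (f (iX 𝕜 a))
    linarith
  have h7 := ext_fun' (by linarith) h3 hx
  linarith

/-- real part of a bilinear form on finitely supported rational sequences -/
private noncomputable def reB (B : X 𝕜 →L[𝕜] X 𝕜 →L[𝕜] 𝕜) : V →ₗ[ℚ] V →ₗ[ℚ] ℝ :=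
  LinearMap.mk₂ ℚ (fun v w => RCLike.re (B (iX 𝕜 v) (iX 𝕜 w)))
    (fun v v' w => by rw [iX_add, map_add, add_apply, map_add])
    (fun c v w => by
      rw [iX_smul, map_smul, smul_apply, smul_eq_mul, ratCast_mul_re, Rat.smul_def])
    (fun v w w' => by rw [iX_add, map_add, map_add])
    (fun c v w => by rw [iX_smul, map_smul, smul_eq_mul, ratCast_mul_re, Rat.smul_def])

/-- imaginary part -/
private noncomputable def imB (B : X 𝕜 →L[𝕜] X 𝕜 →L[𝕜] 𝕜) : V →ₗ[ℚ] V →ₗ[ℚ] ℝ :=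
  LinearMap.mk₂ ℚ (fun v w => RCLike.im (B (iX 𝕜 v) (iX 𝕜 w)))
    (fun v v' w => by rw [iX_add, map_add, add_apply, map_add])
    (fun c v w => by
      rw [iX_smul, map_smul, smul_apply, smul_eq_mul, ratCast_mul_im, Rat.smul_def])
    (fun v w w' => by rw [iX_add, map_add, map_add])
    (fun c v w => by rw [iX_smul, map_smul, smul_eq_mul, ratCast_mul_im, Rat.smul_def])

theorem tail_bil (B : X 𝕜 →L[𝕜] X 𝕜 →L[𝕜] 𝕜) (hB : ∀ x y, B x y = B y x) {ε : ℝ} (hε : 0 < ε) :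
    ∃ N, ∀ x y, TlX N x → TlX N y → ‖B x y‖ ≤ ε * ‖x‖ * ‖y‖ := by
  have hb : ∀ a L b L', Atom a L → Atom b L' → ‖B (iX 𝕜 a) (iX 𝕜 b)‖ ≤ ‖B‖ := by
    intro a L b L' ha hb
    refine (B.le_opNorm₂ _ _).trans ?_
    have h1 := mul_le_of_le_one_right (norm_nonneg B) (norm_iX_le (𝕜 := 𝕜) ha)
    exact (mul_le_of_le_one_right (by positivity) (norm_iX_le hb)).trans h1
  have h1 : ∀ a L b L', Atom a L → Atom b L' → |reB B a b| ≤ ‖B‖ := fun a L b L' ha hb' =>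
    (RCLike.abs_re_le_norm _).trans (hb a L b L' ha hb')
  have h2 : ∀ a L b L', Atom a L → Atom b L' → |imB B a b| ≤ ‖B‖ := fun a L b L' ha hb' =>
    (RCLike.abs_im_le_norm _).trans (hb a L b L' ha hb')
  have hs1 : ∀ a b, reB B a b = reB B b a := fun a b => by
    change RCLike.re (B (iX 𝕜 a) (iX 𝕜 b)) = RCLike.re (B (iX 𝕜 b) (iX 𝕜 a))
    rw [hB]
  have hs2 : ∀ a b, imB B a b = imB B b a := fun a b => by
    change RCLike.im (B (iX 𝕜 a) (iX 𝕜 b)) = RCLike.im (B (iX 𝕜 b) (iX 𝕜 a))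
    rw [hB]
  obtain ⟨N1, hN1⟩ := sym_two h1 hs1 (show 0 < ε / 8 by linarith)
  obtain ⟨N2, hN2⟩ := sym_two h2 hs2 (show 0 < ε / 8 by linarith)
  refine ⟨max N1 N2, fun x y hx hy => ?_⟩
  have h3 : ∀ a b, TA (max N1 N2) a → TA (max N1 N2) b →
      ‖B (iX 𝕜 a) (iX 𝕜 b)‖ ≤ ε / 4 := by
    intro a b ha hb
    have h4 : |RCLike.re (B (iX 𝕜 a) (iX 𝕜 b))| ≤ ε / 8 :=
      hN1 a b (ha.mono (le_max_left _ _)) (hb.mono (le_max_left _ _))
    have h5 : |RCLike.im (B (iX 𝕜 a) (iX 𝕜 b))| ≤ ε / 8 :=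
      hN2 a b (ha.mono (le_max_right _ _)) (hb.mono (le_max_right _ _))
    have h6 := norm_le_re_im (B (iX 𝕜 a) (iX 𝕜 b))
    linarith
  have h4 : ∀ a, TA (max N1 N2) a → ‖B.flip y (iX 𝕜 a)‖ ≤ ε / 2 * ‖y‖ := by
    intro a ha
    have h5 := ext_fun' (f := B (iX 𝕜 a)) (show 0 ≤ ε / 4 by linarith) (h3 a · ha) hy
    rw [ContinuousLinearMap.flip_apply]
    linarith
  have h5 := ext_fun' (f := B.flip y) (show 0 ≤ ε / 2 * ‖y‖ by positivity) h4 hx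
  rw [ContinuousLinearMap.flip_apply] at h5
  linarith

end Pool.Agent.NAP
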